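import Mathlib

set_option autoImplicit false

namespace Pool.Agent.Results.MP_30c5a0_lc.CycleLabelSmall

/-- The distance between the vertices `u` and `v` of the cycle `C_i`, whose vertices are
`0, 1, …, i - 1` in cyclic order: the length of the shorter of the two paths joining them. -/
def cycDist (i : ℕ) (u v : Fin i) : ℕ :=
  min (max u.val v.val - min u.val v.val) (i - (max u.val v.val - min u.val v.val))

/-- `φ` is a distance labeling of `C_3, …, C_n`: some function `d'` of two labels gives the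
distance of any two vertices of the same cycle. -/
def IsDistanceLabeling (n : ℕ) {L : Type} (φ : (i : ℕ) → Fin i → L) : Prop :=
  ∃ d' : L → L → ℤ, ∀ i : ℕ, 3 ≤ i → i ≤ n → ∀ u v : Fin i,
    d' (φ i u) (φ i v) = (cycDist i u v : ℤ)

/-- The set of labels that `φ` uses on `C_3, …, C_n`. -/
def usedLabels (n : ℕ) {L : Type} (φ : (i : ℕ) → Fin i → L) : Set L :=
  {x | ∃ i : ℕ, 3 ≤ i ∧ i ≤ n ∧ ∃ u : Fin i, φ i u = x}

/-- `lam n` is the least number of labels used by a distance labeling of `C_3, …, C_n`. -/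
noncomputable def lam (n : ℕ) : ℕ :=
  sInf {m : ℕ | ∃ (L : Type) (φ : (i : ℕ) → Fin i → L),
    IsDistanceLabeling n φ ∧ (usedLabels n φ).ncard = m}

/-- Sanity check: every labeling uses finitely many labels on `C_3, …, C_n`, so that the
`ncard` in the definition of `lam` is the true number of labels. -/
lemma usedLabels_finite (n : ℕ) {L : Type} (φ : (i : ℕ) → Fin i → L) :
    (usedLabels n φ).Finite := by
  have h : usedLabels n φ ⊆ ⋃ i ∈ Finset.range (n + 1), Set.range (φ i) := by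
    rintro x ⟨i, _, hi, u, rfl⟩
    exact Set.mem_biUnion (Finset.mem_coe.2 (Finset.mem_range.2 (by omega))) ⟨u, rfl⟩
  exact Set.Finite.subset (Set.Finite.biUnion (Finset.finite_toSet _)
    (fun i _ => Set.finite_range _)) h

/-! ### Labelings of sets of cycles -/

/-- Two labels have the same distance in all cycles with length in `A`. -/
def Cons (A : Set ℕ) {L : Type} (φ : (i : ℕ) → Fin i → L) : Prop :=
  ∀ i ∈ A, ∀ j ∈ A, ∀ (u v : Fin i) (u' v' : Fin j),
    φ i u = φ j u' → φ i v = φ j v' → cycDist i u v = cycDist j u' v'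

/-- The cycles with length in `A` have a distance labeling with at most `m` labels. -/
def Col (A : Set ℕ) (m : ℕ) : Prop :=
  ∃ (L : Type) (φ : (i : ℕ) → Fin i → L) (F : Finset L),
    (∀ i ∈ A, ∀ u : Fin i, φ i u ∈ F) ∧ Cons A φ ∧ F.card ≤ m

lemma Col.mono {A B : Set ℕ} {m m' : ℕ} (h : Col B m) (hA : A ⊆ B) (hm : m ≤ m') :
    Col A m' := by
  obtain ⟨L, φ, F, h1, h2, h3⟩ := h
  exact ⟨L, φ, F, fun i hi => h1 i (hA hi), fun i hi j hj => h2 i (hA hi) j (hA hj),
    h3.trans hm⟩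

lemma Col.union {A B : Set ℕ} {m m' : ℕ} (h : Col A m) (h' : Col B m') :
    Col (A ∪ B) (m + m') := by
  classical
  obtain ⟨L, φ, F, h1, h2, h3⟩ := h
  obtain ⟨L', φ', F', h1', h2', h3'⟩ := h'
  refine ⟨L ⊕ L', fun i u => if i ∈ A then Sum.inl (φ i u) else Sum.inr (φ' i u),
    F.disjSum F', ?_, ?_, ?_⟩
  · rintro i hi u
    by_cases hA : i ∈ A
    · simp only [hA, if_true]
      exact Finset.inl_mem_disjSum.2 (h1 i hA u)
    · simp only [hA, if_false]
      exact Finset.inr_mem_disjSum.2 (h1' i (hi.resolve_left hA) u)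
  · rintro i hi j hj u v u' v' e1 e2
    by_cases hA : i ∈ A
    · by_cases hA' : j ∈ A
      · simp only [hA, hA', if_true, Sum.inl.injEq] at e1 e2
        exact h2 i hA j hA' u v u' v' e1 e2
      · simp [hA, hA'] at e1
    · by_cases hA' : j ∈ A
      · simp [hA, hA'] at e1
      · simp only [hA, hA', if_false, Sum.inr.injEq] at e1 e2
        exact h2' i (hi.resolve_left hA) j (hj.resolve_left hA') u v u' v' e1 e2
  · rw [Finset.card_disjSum]
    omega

lemma lam_le {n m : ℕ} (h : Col {i | i ≤ n} m) : lam n ≤ m := by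
  classical
  obtain ⟨L, φ, F, h1, h2, h3⟩ := h
  have hd : IsDistanceLabeling n φ := by
    refine ⟨fun x y => if hp : ∃ p : (Σ i : ℕ, Fin i × Fin i), p.1 ≤ n ∧ φ p.1 p.2.1 = x ∧
      φ p.1 p.2.2 = y then (cycDist hp.choose.1 hp.choose.2.1 hp.choose.2.2 : ℤ) else 0, ?_⟩
    intro i _ hi u v
    have hp : ∃ p : (Σ i : ℕ, Fin i × Fin i), p.1 ≤ n ∧ φ p.1 p.2.1 = φ i u ∧
      φ p.1 p.2.2 = φ i v := ⟨⟨i, u, v⟩, hi, rfl, rfl⟩
    simp only
    rw [dif_pos hp]
    have hs := hp.choose_spec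
    exact_mod_cast h2 _ hs.1 _ hi _ _ _ _ hs.2.1 hs.2.2
  have hl : lam n ≤ (usedLabels n φ).ncard := Nat.sInf_le ⟨L, φ, hd, rfl⟩
  refine hl.trans (le_trans ?_ h3)
  rw [← Set.ncard_coe_finset]
  refine Set.ncard_le_ncard ?_ (Finset.finite_toSet _)
  rintro x ⟨i, _, hi, u, rfl⟩
  exact Finset.mem_coe.2 (h1 i hi u)

/-! ### The two basic schemes -/

lemma col_small (m : ℕ) : Col {i | i < m} (m * m) := by
  refine ⟨ℕ × ℕ, fun i u => (i, u.val), Finset.range m ×ˢ Finset.range m, ?_, ?_, ?_⟩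
  · rintro i hi u
    have hi' : i < m := hi
    have := u.isLt
    simp only [Finset.mem_product, Finset.mem_range]
    omega
  · rintro i hi j hj u v u' v' e1 e2
    simp only [Prod.mk.injEq] at e1 e2
    obtain ⟨rfl, e1⟩ := e1
    obtain ⟨_, e2⟩ := e2
    rw [Fin.val_inj] at e1 e2
    rw [e1, e2]
  · simp

lemma col_basic (n B : ℕ) (A : Finset ℕ) (hA : ∀ i ∈ A, i ≤ n) (hB : A.card ≤ B * B) :
    Col (A : Set ℕ) (2 * B * (n + 1)) := by
  classical
  obtain ⟨f, hf⟩ : ∃ f : ℕ → ℕ, (∀ i ∈ A, f i < B * B) ∧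
      ∀ i ∈ A, ∀ j ∈ A, f i = f j → i = j := by
    refine ⟨fun i => if h : i ∈ A then (A.equivFin ⟨i, h⟩).val else 0, ?_, ?_⟩
    · intro i hi
      simp only [hi, dif_pos]
      exact lt_of_lt_of_le (Fin.is_lt _) hB
    · intro i hi j hj hij
      simp only [hi, hj, dif_pos] at hij
      have := A.equivFin.injective (Fin.val_injective hij)
      simpa using this
  refine ⟨ℕ × ℕ × ℕ, fun i u => if u.val < (i + 1) / 2 then (0, f i % B, u.val)
    else (1, f i / B, u.val - (i + 1) / 2),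
    Finset.range 2 ×ˢ Finset.range B ×ˢ Finset.range (n + 1), ?_, ?_, ?_⟩
  · rintro i hi u
    have hi' := hA i hi
    have hfi := hf.1 i hi
    have hB0 : 0 < B := by
      rcases Nat.eq_zero_or_pos B with rfl | h
      · simp at hfi
      · exact h
    have hu := u.isLt
    have h1 : f i % B < B := Nat.mod_lt _ hB0
    have h2 : f i / B < B := Nat.div_lt_of_lt_mul hfi
    dsimp only
    split_ifs <;> simp only [Finset.mem_product, Finset.mem_range] <;> omega
  · rintro i hi j hj u v u' v' e1 e2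
    have hu := u.isLt
    have hv := v.isLt
    have hu' := u'.isLt
    have hv' := v'.isLt
    have key : f i % B = f j % B → f i / B = f j / B → i = j := fun h1 h2 =>
      hf.2 i hi j hj (by rw [← Nat.div_add_mod (f i) B, ← Nat.div_add_mod (f j) B, h1, h2])
    unfold cycDist
    dsimp only at e1 e2
    split_ifs at e1 e2 <;> simp only [Prod.mk.injEq] at e1 e2 <;> omega
  · simp only [Finset.card_product, Finset.card_range]
    rw [← mul_assoc]

/-! ### Arithmetic of one cycle -/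

lemma decomp (gp : ℕ → ℕ) (r u : ℕ) (h : u < ∑ m ∈ Finset.range r, gp m) :
    ∃ t p : ℕ, t < r ∧ p < gp t ∧ u = ∑ m ∈ Finset.range t, gp m + p := by
  induction r with
  | zero => simp at h
  | succ r ih =>
    by_cases hu : u < ∑ m ∈ Finset.range r, gp m
    · obtain ⟨t, p, h1, h2, h3⟩ := ih hu
      exact ⟨t, p, by omega, h2, h3⟩
    · rw [Finset.sum_range_succ] at h
      exact ⟨r, u - ∑ m ∈ Finset.range r, gp m, by omega, by omega, by omega⟩

/-- The vertex at forward distance `∑ gp (t + m) + e - p` in a cycle. -/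
lemma fwd (gp : ℕ → ℕ) (r L t k δ p e u v : ℕ) (hper : ∀ m, gp (r + m) = gp m)
    (hL : ∑ m ∈ Finset.range r, gp m = L) (hk : k = t + δ ∨ r + k = t + δ)
    (hu : u = ∑ m ∈ Finset.range t, gp m + p) (hv : v = ∑ m ∈ Finset.range k, gp m + e)
    (huL : u < L) (hvL : v < L)
    (hp : p ≤ ∑ m ∈ Finset.range δ, gp (t + m) + e)
    (hhalf : 2 * (∑ m ∈ Finset.range δ, gp (t + m) + e) ≤ L + 2 * p) :
    min (max u v - min u v) (L - (max u v - min u v)) + p =
      ∑ m ∈ Finset.range δ, gp (t + m) + e := by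
  have h1 := Finset.sum_range_add gp t δ
  rcases hk with rfl | hk
  · omega
  · have h2 := Finset.sum_range_add gp r k
    have h3 : ∑ m ∈ Finset.range k, gp (r + m) = ∑ m ∈ Finset.range k, gp m :=
      Finset.sum_congr rfl fun m _ => hper m
    rw [hk, h1] at h2
    omega

/-! ### Words -/

/-- The window of `h` letters of the cyclic word `Y` that starts at `t`. -/
def wd (h q : ℕ) (Y : ZMod (2 * h) → Fin q) (t : ℕ) : Fin h → Fin q :=
  fun m => Y ((t + m.val : ℕ) : ZMod (2 * h))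

/-- The sum of the gaps of the cyclic word `Y`. -/
def S (h q : ℕ) (s : Fin q → Fin q → ℕ) (Y : ZMod (2 * h) → Fin q) : ℕ :=
  ∑ m ∈ Finset.range (2 * h), s (Y (m : ZMod (2 * h))) (Y ((m + 1 : ℕ) : ZMod (2 * h)))

/-- The gap after the letter `t`, in a cycle with threads of length `ℓ`. -/
def gap (h q c ℓ : ℕ) (s : Fin q → Fin q → ℕ) (Y : ZMod (2 * h) → Fin q) (t : ℕ) : ℕ :=
  ℓ + c + s (Y (t : ZMod (2 * h))) (Y ((t + 1 : ℕ) : ZMod (2 * h)))

lemma sum_gap (h q c ℓ : ℕ) (s : Fin q → Fin q → ℕ) (Y : ZMod (2 * h) → Fin q) :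
    ∑ m ∈ Finset.range (2 * h), gap h q c ℓ s Y m = 2 * h * (ℓ + c) + S h q s Y := by
  unfold gap S
  rw [Finset.sum_add_distrib, Finset.sum_const, Finset.card_range, smul_eq_mul]

lemma gap_per (h q c ℓ : ℕ) (s : Fin q → Fin q → ℕ) (Y : ZMod (2 * h) → Fin q) (m : ℕ) :
    gap h q c ℓ s Y (2 * h + m) = gap h q c ℓ s Y m := by
  unfold gap
  have h1 : ((2 * h + m : ℕ) : ZMod (2 * h)) = (m : ZMod (2 * h)) := by
    rw [Nat.cast_add, ZMod.natCast_self, zero_add]
  have h2 : ((2 * h + m + 1 : ℕ) : ZMod (2 * h)) = ((m + 1 : ℕ) : ZMod (2 * h)) := by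
    rw [add_assoc, Nat.cast_add, ZMod.natCast_self, zero_add]
  rw [h1, h2]

/-- The sum over a period does not depend on the starting point. -/
lemma sum_shift (f : ℕ → ℕ) (r t : ℕ) (hf : ∀ m, f (r + m) = f m) :
    ∑ m ∈ Finset.range r, f (t + m) = ∑ m ∈ Finset.range r, f m := by
  induction t with
  | zero => simp
  | succ t ih =>
    rw [← ih]
    have h1 := Finset.sum_range_succ (fun m => f (t + m)) r
    have h2 := Finset.sum_range_succ' (fun m => f (t + m)) r
    have h3 : f (t + r) = f t := by rw [add_comm, hf]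
    have h4 : ∑ m ∈ Finset.range r, f (t + 1 + m) = ∑ m ∈ Finset.range r, f (t + (m + 1)) :=
      Finset.sum_congr rfl fun m _ => by congr 1; ring
    rw [h4]
    simp only [add_zero] at h1 h2
    omega

lemma cast_eq_iff {r t k δ : ℕ} (ht : t < r) (hk : k < r) (hδ : δ < r) :
    (((t + δ : ℕ) : ZMod r) = (k : ZMod r)) ↔ (k = t + δ ∨ r + k = t + δ) := by
  rw [ZMod.natCast_eq_natCast_iff']
  rw [Nat.mod_eq_of_lt hk]
  by_cases h : t + δ < r
  · rw [Nat.mod_eq_of_lt h]
    omega
  · rw [Nat.mod_eq_sub_mod (by omega), Nat.mod_eq_of_lt (by omega)]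
    omega

/-- Equality of two windows. -/
lemma wd_apply {h q : ℕ} {Y Y' : ZMod (2 * h) → Fin q} {t t' m : ℕ} (hm : m < h)
    (e : wd h q Y t = wd h q Y' t') :
    Y ((t + m : ℕ) : ZMod (2 * h)) = Y' ((t' + m : ℕ) : ZMod (2 * h)) :=
  congrFun e ⟨m, hm⟩

lemma step_eq {h q : ℕ} (hh : 1 ≤ h) {Y Y' : ZMod (2 * h) → Fin q}
    (hY' : Function.Injective Y') {t k t' k' δ : ℕ} (ht : t < 2 * h) (hk : k < 2 * h)
    (ht' : t' < 2 * h) (hk' : k' < 2 * h) (hδ : δ < h)
    (e1 : wd h q Y t = wd h q Y' t') (e2 : wd h q Y k = wd h q Y' k')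
    (hr : k = t + δ ∨ 2 * h + k = t + δ) : k' = t' + δ ∨ 2 * h + k' = t' + δ := by
  rw [← cast_eq_iff ht hk (by omega)] at hr
  rw [← cast_eq_iff ht' hk' (by omega)]
  apply hY'
  rw [← wd_apply hδ e1, hr]
  have := wd_apply (m := 0) (by omega) e2
  simpa using this

lemma near {h q : ℕ} (hh : 1 ≤ h) {c M ℓ : ℕ} (hc : h * M ≤ c) {s : Fin q → Fin q → ℕ}
    (hs : ∀ a b, s a b < M) {Y Y' : ZMod (2 * h) → Fin q}
    (hY' : Function.Injective Y') {t k t' k' δ p e u v u' v' i j : ℕ}
    (ht : t < 2 * h) (hk : k < 2 * h)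
    (ht' : t' < 2 * h) (hk' : k' < 2 * h) (hδ0 : 0 < δ) (hδ : δ < h)
    (e1 : wd h q Y t = wd h q Y' t') (e2 : wd h q Y k = wd h q Y' k')
    (hr : k = t + δ ∨ 2 * h + k = t + δ)
    (hi : 2 * h * (ℓ + c) + S h q s Y = i) (hj : 2 * h * (ℓ + c) + S h q s Y' = j)
    (hp : p < ℓ) (he : e < ℓ)
    (hu : u = ∑ m ∈ Finset.range t, gap h q c ℓ s Y m + p)
    (hv : v = ∑ m ∈ Finset.range k, gap h q c ℓ s Y m + e)
    (hu' : u' = ∑ m ∈ Finset.range t', gap h q c ℓ s Y' m + p)
    (hv' : v' = ∑ m ∈ Finset.range k', gap h q c ℓ s Y' m + e)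
    (hui : u < i) (hvi : v < i) (huj : u' < j) (hvj : v' < j) :
    min (max u v - min u v) (i - (max u v - min u v)) =
      min (max u' v' - min u' v') (j - (max u' v' - min u' v')) := by
  have hr' := step_eq hh hY' ht hk ht' hk' hδ e1 e2 hr
  have hsum : ∑ m ∈ Finset.range δ, gap h q c ℓ s Y (t + m) =
      ∑ m ∈ Finset.range δ, gap h q c ℓ s Y' (t' + m) := by
    refine Finset.sum_congr rfl fun m hm => ?_
    have hm' := Finset.mem_range.1 hm
    unfold gap
    rw [wd_apply (by omega : m < h) e1, add_assoc t m 1, add_assoc t' m 1,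
      wd_apply (by omega : m + 1 < h) e1]
  have hle : ∑ m ∈ Finset.range δ, gap h q c ℓ s Y (t + m) ≤ δ * (ℓ + c + M) := by
    refine (Finset.sum_le_card_nsmul _ _ (ℓ + c + M) fun m _ => ?_).trans ?_
    · unfold gap
      have := hs (Y ((t + m : ℕ) : ZMod (2 * h))) (Y ((t + m + 1 : ℕ) : ZMod (2 * h)))
      omega
    · simp
  have hge : ℓ ≤ ∑ m ∈ Finset.range δ, gap h q c ℓ s Y (t + m) := by
    refine le_trans ?_ (Finset.single_le_sum (f := fun m => gap h q c ℓ s Y (t + m))
      (fun _ _ => Nat.zero_le _) (Finset.mem_range.2 hδ0))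
    unfold gap
    omega
  obtain ⟨h', rfl⟩ : ∃ h', h = h' + 1 := ⟨h - 1, by omega⟩
  have hhalf : ∑ m ∈ Finset.range δ, gap (h' + 1) q c ℓ s Y (t + m) + e ≤
      (h' + 1) * (ℓ + c) := by
    have h1 : δ * (ℓ + c + M) ≤ h' * (ℓ + c + M) := Nat.mul_le_mul_right _ (by omega)
    nlinarith
  have a1 := fwd (gap (h' + 1) q c ℓ s Y) (2 * (h' + 1)) i t k δ p e u v
    (gap_per _ _ _ _ _ _) (by rw [sum_gap, hi]) hr hu hv hui hvi (by omega)
    (by rw [← hi]; nlinarith)
  have a2 := fwd (gap (h' + 1) q c ℓ s Y') (2 * (h' + 1)) j t' k' δ p e u' v'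
    (gap_per _ _ _ _ _ _) (by rw [sum_gap, hj]) hr' hu' hv' huj hvj (by rw [← hsum]; omega)
    (by rw [← hj, ← hsum]; nlinarith)
  rw [← hsum] at a2
  omega

/-- Opposite threads determine the cyclic word. -/
lemma opposite {h q : ℕ} (hh : 1 ≤ h) {s : Fin q → Fin q → ℕ} {Y Y' : ZMod (2 * h) → Fin q}
    (hY : Function.Injective Y) (hY' : Function.Injective Y') {t k t' k' : ℕ}
    (ht : t < 2 * h) (hk : k < 2 * h) (ht' : t' < 2 * h) (hk' : k' < 2 * h)
    (e1 : wd h q Y t = wd h q Y' t') (e2 : wd h q Y k = wd h q Y' k')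
    (hr : k = t + h ∨ 2 * h + k = t + h) : S h q s Y = S h q s Y' := by
  -- the offset of `k'` from `t'` is `h`
  obtain ⟨δ, hδ, hrel⟩ : ∃ δ, δ < 2 * h ∧ (k' = t' + δ ∨ 2 * h + k' = t' + δ) := by
    by_cases hlt : t' ≤ k'
    · exact ⟨k' - t', by omega, Or.inl (by omega)⟩
    · exact ⟨2 * h + k' - t', by omega, Or.inr (by omega)⟩
  have hδh : δ = h := by
    by_contra hne
    by_cases hlt : δ < h
    · have := step_eq hh hY ht' hk' ht hk hlt e1.symm e2.symm hrel
      omega
    · have hrel' : t' = k' + (2 * h - δ) ∨ 2 * h + t' = k' + (2 * h - δ) := by omega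
      have := step_eq hh hY hk' ht' hk ht (by omega) e2.symm e1.symm hrel'
      omega
  subst hδh
  have hall : ∀ m, m < 2 * δ → Y ((t + m : ℕ) : ZMod (2 * δ)) =
      Y' ((t' + m : ℕ) : ZMod (2 * δ)) := by
    intro m hm
    by_cases hmh : m < δ
    · exact wd_apply hmh e1
    · have h1 : ((t + δ : ℕ) : ZMod (2 * δ)) = (k : ZMod (2 * δ)) :=
        (cast_eq_iff ht hk hδ).2 hr
      have h2 : ((t' + δ : ℕ) : ZMod (2 * δ)) = (k' : ZMod (2 * δ)) :=
        (cast_eq_iff ht' hk' hδ).2 hrel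
      have h3 := wd_apply (show m - δ < δ by omega) e2
      have h4 : t + m = t + δ + (m - δ) := by omega
      have h5 : t' + m = t' + δ + (m - δ) := by omega
      rw [h4, h5, Nat.cast_add (t + δ), h1, Nat.cast_add (t' + δ), h2, ← Nat.cast_add,
        ← Nat.cast_add]
      exact h3
  have hext : Y ((t + 2 * δ : ℕ) : ZMod (2 * δ)) = Y' ((t' + 2 * δ : ℕ) : ZMod (2 * δ)) := by
    have h0 := hall 0 (by omega)
    rw [Nat.cast_add, ZMod.natCast_self, Nat.cast_add, ZMod.natCast_self]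
    simpa using h0
  have hsh : ∀ (Z : ZMod (2 * δ) → Fin q) (a : ℕ), S δ q s Z =
      ∑ m ∈ Finset.range (2 * δ), s (Z ((a + m : ℕ) : ZMod (2 * δ)))
        (Z ((a + m + 1 : ℕ) : ZMod (2 * δ))) := by
    intro Z a
    have := sum_shift (fun m => s (Z (m : ZMod (2 * δ))) (Z ((m + 1 : ℕ) : ZMod (2 * δ))))
      (2 * δ) a (fun m => by
        have h1 : ((2 * δ + m : ℕ) : ZMod (2 * δ)) = (m : ZMod (2 * δ)) := by
          rw [Nat.cast_add, ZMod.natCast_self, zero_add]
        have h2 : ((2 * δ + m + 1 : ℕ) : ZMod (2 * δ)) = ((m + 1 : ℕ) : ZMod (2 * δ)) := by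
          rw [add_assoc, Nat.cast_add, ZMod.natCast_self, zero_add]
        rw [h1, h2])
    rw [this]
    rfl
  rw [hsh Y t, hsh Y' t']
  refine Finset.sum_congr rfl fun m hm => ?_
  have hm' := Finset.mem_range.1 hm
  rw [hall m hm', add_assoc t m 1, add_assoc t' m 1]
  by_cases hlast : m + 1 < 2 * δ
  · rw [hall (m + 1) hlast]
  · have : m + 1 = 2 * δ := by omega
    rw [this, hext]

/-- Labels on two different threads. -/
lemma far {h q : ℕ} (hh : 1 ≤ h) {c M ℓ : ℕ} (hc : h * M ≤ c) {s : Fin q → Fin q → ℕ}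
    (hs : ∀ a b, s a b < M) {Y Y' : ZMod (2 * h) → Fin q}
    (hY : Function.Injective Y) (hY' : Function.Injective Y')
    (hS : S h q s Y = S h q s Y' → Y = Y') {t k t' k' p e u v u' v' i j : ℕ}
    (ht : t < 2 * h) (hk : k < 2 * h)
    (ht' : t' < 2 * h) (hk' : k' < 2 * h) (hne : t ≠ k)
    (e1 : wd h q Y t = wd h q Y' t') (e2 : wd h q Y k = wd h q Y' k')
    (hi : 2 * h * (ℓ + c) + S h q s Y = i) (hj : 2 * h * (ℓ + c) + S h q s Y' = j)
    (hp : p < ℓ) (he : e < ℓ)
    (hu : u = ∑ m ∈ Finset.range t, gap h q c ℓ s Y m + p)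
    (hv : v = ∑ m ∈ Finset.range k, gap h q c ℓ s Y m + e)
    (hu' : u' = ∑ m ∈ Finset.range t', gap h q c ℓ s Y' m + p)
    (hv' : v' = ∑ m ∈ Finset.range k', gap h q c ℓ s Y' m + e)
    (hui : u < i) (hvi : v < i) (huj : u' < j) (hvj : v' < j) :
    min (max u v - min u v) (i - (max u v - min u v)) =
      min (max u' v' - min u' v') (j - (max u' v' - min u' v')) := by
  obtain ⟨δ, hδ0, hδ, hrel⟩ : ∃ δ, 0 < δ ∧ δ < 2 * h ∧ (k = t + δ ∨ 2 * h + k = t + δ) := by
    by_cases hlt : t ≤ k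
    · exact ⟨k - t, by omega, by omega, Or.inl (by omega)⟩
    · exact ⟨2 * h + k - t, by omega, by omega, Or.inr (by omega)⟩
  rcases lt_trichotomy δ h with hlt | heq | hgt
  · exact near hh hc hs hY' ht hk ht' hk' hδ0 hlt e1 e2 hrel hi hj hp he hu hv hu' hv' hui
      hvi huj hvj
  · rw [heq] at hrel
    have hSS := opposite (s := s) hh hY hY' ht hk ht' hk' e1 e2 hrel
    have hYY := hS hSS
    subst hYY
    have h1 : t = t' := by
      have := hY (by simpa using wd_apply (m := 0) (by omega) e1)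
      have h2 := (cast_eq_iff (δ := 0) ht ht' (by omega)).1 (by simpa using this)
      omega
    have h2 : k = k' := by
      have := hY (by simpa using wd_apply (m := 0) (by omega) e2)
      have h2 := (cast_eq_iff (δ := 0) hk hk' (by omega)).1 (by simpa using this)
      omega
    subst h1 h2
    rw [hu, hv, hu', hv', ← hi, ← hj]
  · have hrel' : t = k + (2 * h - δ) ∨ 2 * h + t = k + (2 * h - δ) := by omega
    have := near hh hc hs hY' hk ht hk' ht' (by omega) (by omega) e2 e1 hrel' hi hj he hp hv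
      hu hv' hu' hvi hui hvj huj
    rw [max_comm u v, min_comm u v, max_comm u' v', min_comm u' v']
    exact this

lemma two_le {h ℓ c T i : ℕ} (hh : 1 ≤ h) (hi : 2 * h * (ℓ + c) + T = i) : 2 * ℓ ≤ i := by
  obtain ⟨h', rfl⟩ : ∃ h', h = h' + 1 := ⟨h - 1, by omega⟩
  nlinarith [Nat.zero_le (h' * (ℓ + c))]

/-- The labels of the main scheme. -/
theorem col_main {h q : ℕ} (hh : 1 ≤ h) {c M P n g₀ Q : ℕ} [Fact Q.Prime] (hc : h * M ≤ c)
    {s : Fin q → Fin q → ℕ} (hs : ∀ a b, s a b < M) (A : Set ℕ) (hA : ∀ i ∈ A, i ≤ n)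
    (Y : ℕ → ZMod (2 * h) → Fin q) (hY : ∀ i ∈ A, Function.Injective (Y i))
    (g : ℕ → ℕ) (hg : ∀ i ∈ A, g i ≤ g₀)
    (hlen : ∀ i ∈ A, 2 * h * (P * g i + c) + S h q s (Y i) = i)
    (hinj : ∀ i ∈ A, ∀ j ∈ A, S h q s (Y i) = S h q s (Y j) → Y i = Y j)
    (w : (Fin h → Fin q) → ZMod Q) (hw : Function.Injective w)
    (b₁ b₂ : ℕ → ZMod Q)
    (hb : ∀ x y, x ≤ g₀ → y ≤ g₀ → b₁ x = b₁ y → b₂ x = b₂ y → x = y) :
    Col A (q ^ h * (Q * (P * g₀)) + (n + 1) * (2 * h * (c + M))) := by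
  classical
  have hex : ∀ i : ℕ, ∀ u : Fin i, ∃ tp : ℕ × ℕ, i ∈ A → (tp.1 < 2 * h ∧
      tp.2 < gap h q c (P * g i) s (Y i) tp.1 ∧
      u.val = ∑ m ∈ Finset.range tp.1, gap h q c (P * g i) s (Y i) m + tp.2) := by
    intro i u
    by_cases hi : i ∈ A
    · have hu := u.isLt
      obtain ⟨t, p, h1, h2, h3⟩ := decomp (gap h q c (P * g i) s (Y i)) (2 * h) u.val (by
        rw [sum_gap, hlen i hi]; exact hu)
      exact ⟨(t, p), fun _ => ⟨h1, h2, h3⟩⟩
    · exact ⟨(0, 0), fun h => absurd h hi⟩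
  choose tp htp using hex
  have : NeZero Q := ⟨(Fact.out : Q.Prime).ne_zero⟩
  let φ : (i : ℕ) → Fin i → ((Fin h → Fin q) × ZMod Q × ℕ) ⊕ (ℕ × ℕ × ℕ) := fun i u =>
    if (tp i u).2 < P * g i then
      Sum.inl (wd h q (Y i) (tp i u).1,
        b₁ (g i) + w (wd h q (Y i) (tp i u).1) * b₂ (g i), (tp i u).2)
    else Sum.inr (i, (tp i u).1, (tp i u).2 - P * g i)
  refine ⟨_, φ, ((Finset.univ : Finset (Fin h → Fin q)) ×ˢ (Finset.univ : Finset (ZMod Q)) ×ˢ
    Finset.range (P * g₀)).disjSum (Finset.range (n + 1) ×ˢ Finset.range (2 * h) ×ˢ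
      Finset.range (c + M)), ?_, ?_, ?_⟩
  · intro i hi u
    obtain ⟨h1, h2, h3⟩ := htp i u hi
    have hg' : P * g i ≤ P * g₀ := Nat.mul_le_mul_left _ (hg i hi)
    have hn := hA i hi
    simp only [φ]
    split_ifs with hlt
    · rw [Finset.inl_mem_disjSum]
      simp only [Finset.mem_product, Finset.mem_univ, Finset.mem_range, true_and]
      omega
    · rw [Finset.inr_mem_disjSum]
      simp only [Finset.mem_product, Finset.mem_range]
      unfold gap at h2
      have := hs (Y i ((tp i u).1 : ZMod (2 * h))) (Y i (((tp i u).1 + 1 : ℕ) : ZMod (2 * h)))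
      omega
  · -- a label occurs only once in a cycle
    have huniq : ∀ i ∈ A, ∀ u v : Fin i, φ i u = φ i v → u = v := by
      intro i hi u v he
      obtain ⟨h1, h2, h3⟩ := htp i u hi
      obtain ⟨h1', h2', h3'⟩ := htp i v hi
      have hkey : (tp i u).1 = (tp i v).1 ∧ (tp i u).2 = (tp i v).2 := by
        simp only [φ] at he
        split_ifs at he with ha hb'
        · simp only [Sum.inl.injEq, Prod.mk.injEq] at he
          refine ⟨?_, he.2.2⟩
          have e0 := wd_apply (m := 0) (by omega) he.1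
          have e1 := hY i hi (by simpa using e0)
          have e2 := (cast_eq_iff (δ := 0) h1 h1' (by omega)).1 (by simpa using e1)
          omega
        · simp only [Sum.inr.injEq, Prod.mk.injEq] at he
          omega
      apply Fin.ext
      rw [h3, h3', hkey.1, hkey.2]
    intro i hi j hj u v u' v' e1 e2
    obtain ⟨a1, a2, a3⟩ := htp i u hi
    obtain ⟨b1, b2, b3⟩ := htp i v hi
    obtain ⟨c1, c2, c3⟩ := htp j u' hj
    obtain ⟨d1, d2, d3⟩ := htp j v' hj
    have hfill : i = j → cycDist i u v = cycDist j u' v' := by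
      rintro rfl
      rw [huniq i hi u u' e1, huniq i hi v v' e2]
    have e1' := e1
    have e2' := e2
    simp only [φ] at e1 e2
    by_cases k1 : (tp i u).2 < P * g i
    · by_cases k2 : (tp j u').2 < P * g j
      · by_cases k3 : (tp i v).2 < P * g i
        · by_cases k4 : (tp j v').2 < P * g j
          · simp only [k1, k2, k3, k4, if_true, Sum.inl.injEq, Prod.mk.injEq] at e1 e2
            obtain ⟨e11, e12, e13⟩ := e1
            obtain ⟨e21, e22, e23⟩ := e2
            have hui := u.isLt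
            have hvi := v.isLt
            have huj := u'.isLt
            have hvj := v'.isLt
            unfold cycDist
            by_cases hne : (tp i u).1 = (tp i v).1
            · -- the same thread
              have hne' : (tp j u').1 = (tp j v').1 := by
                have e0 : wd h q (Y j) (tp j u').1 = wd h q (Y j) (tp j v').1 := by
                  rw [← e11, ← e21, hne]
                have e0' := wd_apply (m := 0) (by omega) e0
                have e1' := hY j hj (by simpa using e0')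
                have e2' := (cast_eq_iff (δ := 0) c1 d1 (by omega)).1 (by simpa using e1')
                omega
              have hi2 : 2 * (P * g i) ≤ i := two_le hh (hlen i hi)
              have hj2 : 2 * (P * g j) ≤ j := two_le hh (hlen j hj)
              rw [hne] at a3
              rw [hne'] at c3
              omega
            · have hwne : wd h q (Y i) (tp i u).1 ≠ wd h q (Y i) (tp i v).1 := by
                intro e0
                have e0' := wd_apply (m := 0) (by omega) e0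
                have e1' := hY i hi (by simpa using e0')
                have e2' := (cast_eq_iff (δ := 0) a1 b1 (by omega)).1 (by simpa using e1')
                omega
              have hgg : g i = g j := by
                rw [← e11] at e12
                rw [← e21] at e22
                have hd : (w (wd h q (Y i) (tp i u).1) - w (wd h q (Y i) (tp i v).1)) *
                    (b₂ (g i) - b₂ (g j)) = 0 := by linear_combination e12 - e22
                rcases mul_eq_zero.1 hd with hz | hz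
                · exact absurd (hw (sub_eq_zero.1 hz)) hwne
                · have hb2 := sub_eq_zero.1 hz
                  rw [hb2] at e12
                  have hb1 := add_right_cancel e12
                  exact hb _ _ (hg i hi) (hg j hj) hb1 hb2
              have hi' := hlen i hi
              have hj' := hlen j hj
              rw [← hgg] at hj' c3 d3 k2 k4
              rw [← e13] at c3
              rw [← e23] at d3
              exact far hh hc hs (hY i hi) (hY j hj) (hinj i hi j hj) a1 b1 c1 d1 hne e11 e21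
                hi' hj' k1 k3 a3 b3 c3 d3 hui hvi huj hvj
          · simp [k3, k4] at e2
        · by_cases k4 : (tp j v').2 < P * g j
          · simp [k3, k4] at e2
          · simp only [k3, k4, if_false, Sum.inr.injEq, Prod.mk.injEq] at e2
            exact hfill e2.1
      · simp [k1, k2] at e1
    · by_cases k2 : (tp j u').2 < P * g j
      · simp [k1, k2] at e1
      · simp only [k1, k2, if_false, Sum.inr.injEq, Prod.mk.injEq] at e1
        exact hfill e1.1
  · rw [Finset.card_disjSum]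
    simp only [Finset.card_product, Finset.card_univ, Fintype.card_fun, Fintype.card_fin,
      ZMod.card, Finset.card_range]
    exact le_rfl

/-! ### Gap sums cover most residues -/


/-- A double counting form of the Cauchy–Schwarz inequality. -/
lemma sq_card_le {α β : Type} [Fintype α] [DecidableEq α] [DecidableEq β] (f : α → β) :
    (Fintype.card α) ^ 2 ≤ (Finset.univ.image f).card *
      (Finset.univ.filter (fun p : α × α => f p.1 = f p.2)).card := by
  have h1 : Fintype.card α = ∑ b ∈ Finset.univ.image f,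
      (Finset.univ.filter (fun a => f a = b)).card := by
    rw [← Finset.card_univ, Finset.card_eq_sum_card_image f]
  have h2 : (Finset.univ.filter (fun p : α × α => f p.1 = f p.2)).card =
      ∑ b ∈ Finset.univ.image f, ((Finset.univ.filter (fun a => f a = b)).card) ^ 2 := by
    rw [Finset.card_eq_sum_card_fiberwise (f := fun p : α × α => f p.1)
      (t := Finset.univ.image f) (fun p _ => Finset.mem_coe.2
        (Finset.mem_image_of_mem f (Finset.mem_univ p.1)))]
    refine Finset.sum_congr rfl fun b _ => ?_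
    rw [sq, ← Finset.card_product]
    congr 1
    ext ⟨x, y⟩
    simp only [Finset.mem_filter, Finset.mem_univ, true_and, Finset.mem_product]
    constructor
    · rintro ⟨h, h'⟩
      exact ⟨h', by rw [← h, h']⟩
    · rintro ⟨h, h'⟩
      exact ⟨by rw [h, h'], h⟩
  rw [h2]
  have h3 := sq_sum_le_card_mul_sum_sq (s := Finset.univ.image f)
    (f := fun b => ((Finset.univ.filter (fun a => f a = b)).card : ℤ))
  rw [h1]
  exact_mod_cast h3

/-- The gap sum of the cyclic word `Y`, modulo `M`. -/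
def Sm (r q M : ℕ) [NeZero r] (σ : Fin q × Fin q → ZMod M) (Y : ZMod r → Fin q) : ZMod M :=
  ∑ x : ZMod r, σ (Y x, Y (x + 1))

lemma Sm_add {r q M : ℕ} [NeZero r] (σ σ' : Fin q × Fin q → ZMod M) (Y : ZMod r → Fin q) :
    Sm r q M (σ + σ') Y = Sm r q M σ Y + Sm r q M σ' Y := by
  unfold Sm
  rw [← Finset.sum_add_distrib]
  rfl

lemma Sm_single_mem {r q M : ℕ} [NeZero r] (a : ZMod M) {Y : ZMod r → Fin q}
    (hY : Function.Injective Y) (x₀ : ZMod r) :
    Sm r q M (Pi.single (Y x₀, Y (x₀ + 1)) a) Y = a := by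
  classical
  unfold Sm
  rw [Finset.sum_eq_single x₀]
  · simp
  · intro x _ hx
    rw [Pi.single_eq_of_ne]
    intro he
    exact hx (hY (Prod.mk.injEq _ _ _ _ ▸ he).1)
  · intro h
    exact absurd (Finset.mem_univ _) h

lemma Sm_single_not_mem {r q M : ℕ} [NeZero r] (a : ZMod M) {Y : ZMod r → Fin q}
    (e : Fin q × Fin q) (he : ∀ x, (Y x, Y (x + 1)) ≠ e) :
    Sm r q M (Pi.single e a) Y = 0 := by
  classical
  unfold Sm
  refine Finset.sum_eq_zero fun x _ => ?_
  rw [Pi.single_eq_of_ne (he x)]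

lemma count_pair {r q M : ℕ} [NeZero r] [NeZero M] {Y Y' : ZMod r → Fin q}
    (hY : Function.Injective Y) (x₀ : ZMod r)
    (he : ∀ x, (Y' x, Y' (x + 1)) ≠ (Y x₀, Y (x₀ + 1))) :
    M * (Finset.univ.filter
      (fun σ : Fin q × Fin q → ZMod M => Sm r q M σ Y = Sm r q M σ Y')).card ≤
      Fintype.card (Fin q × Fin q → ZMod M) := by
  classical
  have h1 : (Finset.univ.filter
      (fun σ : Fin q × Fin q → ZMod M => Sm r q M σ Y = Sm r q M σ Y') ×ˢ
      (Finset.univ : Finset (ZMod M))).card ≤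
      (Finset.univ : Finset (Fin q × Fin q → ZMod M)).card := by
    refine Finset.card_le_card_of_injOn
      (fun p => p.1 + Pi.single (Y x₀, Y (x₀ + 1)) p.2) (fun _ _ => Finset.mem_coe.2
        (Finset.mem_univ _)) ?_
    rintro ⟨σ, a⟩ hσ ⟨σ', a'⟩ hσ' heq
    simp only [Finset.coe_product, Set.mem_prod, Finset.mem_coe, Finset.mem_filter,
      Finset.mem_univ, true_and, and_true] at hσ hσ' heq
    have e1 := congrArg (fun σ => Sm r q M σ Y - Sm r q M σ Y') heq
    simp only [Sm_add, Sm_single_mem _ hY, Sm_single_not_mem _ _ he] at e1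
    have ha : a = a' := by
      rw [hσ, hσ'] at e1
      simpa using e1
    subst ha
    have hs := add_right_cancel heq
    rw [hs]
  rw [Finset.card_product, Finset.card_univ, Finset.card_univ, ZMod.card] at h1
  rw [mul_comm]
  exact h1

/-- A cyclic word whose adjacent pairs all occur in `Y'` is a rotation of `Y'`. -/
lemma rotation {r q : ℕ} [NeZero r] {Y Y' : ZMod r → Fin q}
    (hY' : Function.Injective Y')
    (h : ∀ x, ∃ y, (Y' y, Y' (y + 1)) = (Y x, Y (x + 1))) :
    ∃ a : ZMod r, Y' = fun x => Y (x - a) := by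
  obtain ⟨a, ha⟩ := h 0
  have ha0 : Y' a = Y 0 := (Prod.mk.injEq _ _ _ _ ▸ ha).1
  have hind : ∀ t : ℕ, Y (t : ZMod r) = Y' (a + t) := by
    intro t
    induction t with
    | zero => simp [ha0]
    | succ t ih =>
      obtain ⟨y, hy⟩ := h t
      rw [Prod.mk.injEq] at hy
      have : y = a + t := hY' (by rw [hy.1, ih])
      rw [Nat.cast_succ, ← hy.2, this, add_assoc]
  refine ⟨a, funext fun x => ?_⟩
  have := hind (x - a).val
  rw [ZMod.natCast_zmod_val] at this
  rw [this, add_sub_cancel]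

/-- Injective cyclic words. -/
abbrev Wd (r q : ℕ) : Type := {Y : ZMod r → Fin q // Function.Injective Y}

lemma bad_count {r q : ℕ} [NeZero r] (Y : Wd r q) [DecidablePred fun Y' : Wd r q =>
    ∀ x, ∃ y, (Y'.1 y, Y'.1 (y + 1)) = (Y.1 x, Y.1 (x + 1))] :
    (Finset.univ.filter (fun Y' : Wd r q =>
      ∀ x, ∃ y, (Y'.1 y, Y'.1 (y + 1)) = (Y.1 x, Y.1 (x + 1)))).card ≤ r := by
  classical
  have h : ((Finset.univ.filter (fun Y' : Wd r q =>
      ∀ x, ∃ y, (Y'.1 y, Y'.1 (y + 1)) = (Y.1 x, Y.1 (x + 1)))).image Subtype.val) ⊆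
      (Finset.univ : Finset (ZMod r)).image (fun a => fun x => Y.1 (x - a)) := by
    intro Z hZ
    obtain ⟨Y', hY', rfl⟩ := Finset.mem_image.1 hZ
    obtain ⟨a, ha⟩ := rotation Y'.2 (Finset.mem_filter.1 hY').2
    exact Finset.mem_image.2 ⟨a, Finset.mem_univ _, ha.symm⟩
  have h1 := Finset.card_le_card h
  rw [Finset.card_image_of_injective _ Subtype.val_injective] at h1
  refine h1.trans (Finset.card_image_le.trans ?_)
  rw [Finset.card_univ, ZMod.card]

lemma exists_sigma (r q M : ℕ) [NeZero r] [NeZero M] :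
    ∃ σ : Fin q × Fin q → ZMod M,
      M * (Finset.univ.filter (fun p : Wd r q × Wd r q =>
        Sm r q M σ p.1.1 = Sm r q M σ p.2.1)).card ≤
      Fintype.card (Wd r q) ^ 2 + r * M * Fintype.card (Wd r q) := by
  classical
  set N := Fintype.card (Wd r q) with hN
  set Fn := Fintype.card (Fin q × Fin q → ZMod M) with hFn
  -- the bad pairs
  set bad : Wd r q → Wd r q → Prop := fun Y Y' =>
    ∀ x, ∃ y, (Y'.1 y, Y'.1 (y + 1)) = (Y.1 x, Y.1 (x + 1)) with hbad
  have hsum : ∑ σ : Fin q × Fin q → ZMod M,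
      M * (Finset.univ.filter (fun p : Wd r q × Wd r q =>
        Sm r q M σ p.1.1 = Sm r q M σ p.2.1)).card ≤
      ∑ _σ : Fin q × Fin q → ZMod M, (N ^ 2 + r * M * N) := by
    have e1 : ∑ σ : Fin q × Fin q → ZMod M,
        M * (Finset.univ.filter (fun p : Wd r q × Wd r q =>
          Sm r q M σ p.1.1 = Sm r q M σ p.2.1)).card =
        ∑ p : Wd r q × Wd r q, M * (Finset.univ.filter
          (fun σ : Fin q × Fin q → ZMod M => Sm r q M σ p.1.1 = Sm r q M σ p.2.1)).card := by
      simp only [Finset.card_filter, Finset.mul_sum]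
      rw [Finset.sum_comm]
    have e2 : ∀ p : Wd r q × Wd r q, M * (Finset.univ.filter
          (fun σ : Fin q × Fin q → ZMod M => Sm r q M σ p.1.1 = Sm r q M σ p.2.1)).card ≤
          Fn + if bad p.1 p.2 then M * Fn else 0 := by
      intro p
      by_cases hb : bad p.1 p.2
      · rw [if_pos hb]
        have : (Finset.univ.filter
          (fun σ : Fin q × Fin q → ZMod M => Sm r q M σ p.1.1 = Sm r q M σ p.2.1)).card ≤
            Fn := Finset.card_le_univ _
        have := Nat.mul_le_mul_left M this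
        omega
      · rw [if_neg hb, add_zero]
        have hb' : ∃ x₀, ∀ y, (p.2.1 y, p.2.1 (y + 1)) ≠ (p.1.1 x₀, p.1.1 (x₀ + 1)) := by
          by_contra hcon
          push Not at hcon
          exact hb hcon
        obtain ⟨x₀, hx₀⟩ := hb'
        exact count_pair p.1.2 x₀ hx₀
    rw [e1]
    refine (Finset.sum_le_sum fun p _ => e2 p).trans ?_
    rw [Finset.sum_add_distrib, Finset.sum_const, Finset.sum_const, Finset.card_univ,
      Finset.card_univ, Fintype.card_prod, ← hN, ← hFn, smul_eq_mul, smul_eq_mul,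
      Fintype.sum_prod_type]
    have e3 : ∑ x : Wd r q, ∑ y : Wd r q, (if bad x y then M * Fn else 0) ≤
        ∑ _x : Wd r q, r * (M * Fn) := by
      refine Finset.sum_le_sum fun x _ => ?_
      rw [← Finset.sum_filter, Finset.sum_const, smul_eq_mul]
      exact Nat.mul_le_mul_right _ (bad_count x)
    rw [Finset.sum_const, Finset.card_univ, ← hN, smul_eq_mul] at e3
    calc N * N * Fn + ∑ x : Wd r q, ∑ y : Wd r q, (if bad x y then M * Fn else 0)
        ≤ N * N * Fn + N * (r * (M * Fn)) := by omega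
      _ = Fn * (N ^ 2 + r * M * N) := by ring
  obtain ⟨σ, _, hσ⟩ := Finset.exists_le_of_sum_le (Finset.univ_nonempty) hsum
  exact ⟨σ, hσ⟩

/-- Most residues are gap sums. -/
lemma cover (r q M : ℕ) [NeZero r] [NeZero M] (hpos : 0 < Fintype.card (Wd r q)) :
    ∃ σ : Fin q × Fin q → ZMod M, ∃ U : Finset (ZMod M),
      (∀ τ : ZMod M, τ ∉ U → ∃ Y : Wd r q, Sm r q M σ Y.1 = τ) ∧
      U.card * Fintype.card (Wd r q) ≤ r * M ^ 2 := by
  classical
  obtain ⟨σ, hσ⟩ := exists_sigma r q M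
  set f : Wd r q → ZMod M := fun Y => Sm r q M σ Y.1 with hf
  refine ⟨σ, (Finset.univ.image f)ᶜ, ?_, ?_⟩
  · intro τ hτ
    simpa [hf] using hτ
  · have h1 := sq_card_le f
    have h2 : ((Finset.univ.image f)ᶜ).card + (Finset.univ.image f).card = M := by
      rw [Finset.card_compl_add_card, ZMod.card]
    set N := Fintype.card (Wd r q) with hN
    set c := (Finset.univ.image f).card with hc
    set u := ((Finset.univ.image f)ᶜ).card with hu
    set P := (Finset.univ.filter (fun p : Wd r q × Wd r q => f p.1 = f p.2)).card with hP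
    have h3 : M * N ^ 2 ≤ c * (N ^ 2 + r * M * N) := by
      calc M * N ^ 2 ≤ M * (c * P) := Nat.mul_le_mul_left _ h1
        _ = c * (M * P) := by ring
        _ ≤ c * (N ^ 2 + r * M * N) := Nat.mul_le_mul_left _ hσ
    have h4 : M * N ≤ c * (N + r * M) := by
      have : N * (M * N) ≤ N * (c * (N + r * M)) := by nlinarith
      exact Nat.le_of_mul_le_mul_left this hpos
    have h5 : M * (N + r * M) = u * (N + r * M) + c * (N + r * M) := by
      rw [← add_mul, h2]
    nlinarith [Nat.zero_le (u * (r * M))]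


/-! ### Putting the schemes together -/

lemma sum_range_eq_univ {r : ℕ} [NeZero r] {β : Type} [AddCommMonoid β] (f : ZMod r → β) :
    ∑ m ∈ Finset.range r, f (m : ZMod r) = ∑ x : ZMod r, f x := by
  refine Finset.sum_bij (fun m _ => (m : ZMod r)) (fun m _ => Finset.mem_univ _) ?_ ?_ ?_
  · intro a ha b hb hab
    rw [ZMod.natCast_eq_natCast_iff', Nat.mod_eq_of_lt (Finset.mem_range.1 ha),
      Nat.mod_eq_of_lt (Finset.mem_range.1 hb)] at hab
    exact hab
  · intro x _
    exact ⟨x.val, Finset.mem_range.2 (ZMod.val_lt x), ZMod.natCast_zmod_val x⟩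
  · intro m _
    rfl

lemma S_cast {h q M : ℕ} [NeZero (2 * h)] [NeZero M] (σ : Fin q × Fin q → ZMod M)
    (Y : ZMod (2 * h) → Fin q) :
    ((S h q (fun a b => (σ (a, b)).val) Y : ℕ) : ZMod M) = Sm (2 * h) q M σ Y := by
  unfold S Sm
  rw [Nat.cast_sum, ← sum_range_eq_univ (fun x => σ (Y x, Y (x + 1)))]
  refine Finset.sum_congr rfl fun m _ => ?_
  rw [ZMod.natCast_zmod_val, Nat.cast_add, Nat.cast_one]

lemma S_le {h q M : ℕ} {s : Fin q → Fin q → ℕ} (hs : ∀ a b, s a b < M)
    (Y : ZMod (2 * h) → Fin q) : S h q s Y ≤ 2 * h * M := by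
  unfold S
  refine (Finset.sum_le_card_nsmul _ _ M fun m _ => (hs _ _).le).trans ?_
  simp

lemma lam_le_nat (h q P n M : ℕ) (hh : 1 ≤ h) (hP : 1 ≤ P) (hM : M = 2 * h * P)
    (hpos : 0 < q.descFactorial (2 * h)) :
    ∃ u : ℕ, u * q.descFactorial (2 * h) ≤ 2 * h * M ^ 2 ∧
      lam n ≤ q ^ h * (2 * (q ^ h + Nat.sqrt (n / M) + 1) * (P * (n / M))) +
        (n + 1) * (2 * h * (h * M + M)) +
        2 * (Nat.sqrt (u * (n / M + 1)) + 1) * (n + 1) +
        (2 * h * (h * M) + 2 * h * M) * (2 * h * (h * M) + 2 * h * M) := by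
  classical
  have : NeZero (2 * h) := ⟨by omega⟩
  have hM0 : 0 < M := by rw [hM]; exact Nat.mul_pos (by omega) (by omega)
  have : NeZero M := ⟨hM0.ne'⟩
  have hcard : Fintype.card (Wd (2 * h) q) = q.descFactorial (2 * h) := by
    rw [Fintype.card_congr (Equiv.subtypeInjectiveEquivEmbedding (ZMod (2 * h)) (Fin q)),
      Fintype.card_embedding_eq, Fintype.card_fin, ZMod.card]
  obtain ⟨σ, U, hU, hUc⟩ := cover (2 * h) q M (by rw [hcard]; exact hpos)
  rw [hcard] at hUc
  refine ⟨U.card, hUc, ?_⟩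
  set s : Fin q → Fin q → ℕ := fun a b => (σ (a, b)).val with hsdef
  have hs : ∀ a b, s a b < M := fun a b => ZMod.val_lt _
  have hne : Nonempty (Wd (2 * h) q) := Fintype.card_pos_iff.1 (by rw [hcard]; exact hpos)
  obtain ⟨YY, hYY⟩ : ∃ YY : ZMod M → Wd (2 * h) q, ∀ τ, τ ∉ U → Sm (2 * h) q M σ (YY τ).1 = τ := by
    refine ⟨fun τ => if hτ : τ ∉ U then (hU τ hτ).choose else hne.some, fun τ hτ => ?_⟩
    simp only [dif_pos hτ]
    exact (hU τ hτ).choose_spec
  set c := h * M with hc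
  set res : ℕ → ZMod M := fun i => ((i - 2 * h * c : ℕ) : ZMod M) with hres
  set i₀ := 2 * h * c + 2 * h * M with hi₀
  -- the three sets
  set A : Set ℕ := {i | i ≤ n ∧ i₀ ≤ i ∧ res i ∉ U} with hA
  set B : Finset ℕ := (Finset.range (n + 1)).filter (fun i => i₀ ≤ i ∧ res i ∈ U) with hB
  have hcov : {i : ℕ | i ≤ n} ⊆ A ∪ (B : Set ℕ) ∪ {i | i < i₀} := by
    intro i hi
    have hi' : i ≤ n := hi
    by_cases h1 : i < i₀
    · exact Or.inr h1
    · by_cases h2 : res i ∈ U
      · left; right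
        simp only [hB, Finset.coe_filter, Finset.mem_range, Set.mem_ofPred_eq]
        exact ⟨by omega, by omega, h2⟩
      · left; left
        exact ⟨hi', by omega, h2⟩
  -- the parameters of the good cycles
  set Y : ℕ → ZMod (2 * h) → Fin q := fun i => (YY (res i)).1 with hY
  have hSY : ∀ i ∈ A, ((S h q s (Y i) : ℕ) : ZMod M) = res i := by
    intro i hi
    rw [hsdef, S_cast, hY]
    exact hYY _ hi.2.2
  have hSle : ∀ i, S h q s (Y i) ≤ 2 * h * M := fun i => S_le hs _
  set g : ℕ → ℕ := fun i => (i - 2 * h * c - S h q s (Y i)) / M with hg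
  have hlen : ∀ i ∈ A, 2 * h * (P * g i + c) + S h q s (Y i) = i := by
    intro i hi
    have h1 := hSY i hi
    have h2 := hSle i
    have h3 := hi.2.1
    have h4 : M ∣ (i - 2 * h * c) - S h q s (Y i) := by
      have := (ZMod.natCast_eq_natCast_iff _ _ _).1 h1
      exact (Nat.modEq_iff_dvd' (by omega)).1 this
    have h5 : M * g i = i - 2 * h * c - S h q s (Y i) := Nat.mul_div_cancel' h4
    have h6 : 2 * h * (P * g i + c) = M * g i + 2 * h * c := by rw [hM]; ring
    rw [h6, h5]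
    omega
  obtain ⟨Q, hQp, hQ1, hQ2⟩ := Nat.exists_prime_lt_and_le_two_mul
    (q ^ h + Nat.sqrt (n / M) + 1) (by omega)
  have : Fact Q.Prime := ⟨hQp⟩
  have : NeZero Q := ⟨hQp.ne_zero⟩
  obtain ⟨w⟩ : Nonempty ((Fin h → Fin q) ↪ ZMod Q) := by
    apply Function.Embedding.nonempty_of_card_le
    simp only [Fintype.card_fun, Fintype.card_fin, ZMod.card]
    omega
  have hQQ : n / M < Q * Q := by
    have := Nat.lt_succ_sqrt (n / M)
    have h2 : Nat.sqrt (n / M) + 1 ≤ Q := by omega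
    exact this.trans_le (Nat.mul_le_mul h2 h2)
  have hgood : Col A (q ^ h * (Q * (P * (n / M))) + (n + 1) * (2 * h * (c + M))) := by
    refine col_main hh (M := M) (le_refl _) hs A (fun i hi => hi.1) Y
      (fun i _ => (YY (res i)).2) g ?_ hlen ?_ w w.injective
      (fun x => ((x % Q : ℕ) : ZMod Q)) (fun x => ((x / Q : ℕ) : ZMod Q)) ?_
    · intro i hi
      refine Nat.div_le_div_right ?_
      have := hi.1
      omega
    · intro i hi j hj hij
      have : res i = res j := by rw [← hSY i hi, ← hSY j hj, hij]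
      simp only [hY, this]
    · intro x y hx hy h1 h2
      rw [ZMod.natCast_eq_natCast_iff', Nat.mod_mod, Nat.mod_mod] at h1
      rw [ZMod.natCast_eq_natCast_iff', Nat.mod_eq_of_lt (Nat.div_lt_of_lt_mul (by omega)),
        Nat.mod_eq_of_lt (Nat.div_lt_of_lt_mul (by omega))] at h2
      rw [← Nat.div_add_mod x Q, ← Nat.div_add_mod y Q, h1, h2]
  have hBcard : B.card ≤ U.card * (n / M + 1) := by
    rw [← Finset.card_range (n / M + 1), ← Finset.card_product]
    refine Finset.card_le_card_of_injOn (fun i => (res i, (i - 2 * h * c) / M)) ?_ ?_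
    · intro i hi
      have hi' := Finset.mem_filter.1 (Finset.mem_coe.1 hi)
      have h1 := Finset.mem_range.1 hi'.1
      refine Finset.mem_coe.2 (Finset.mem_product.2 ⟨hi'.2.2, Finset.mem_range.2 ?_⟩)
      exact Nat.lt_succ_of_le (Nat.div_le_div_right (by omega))
    · intro i hi j hj hij
      have hi' := (Finset.mem_filter.1 (Finset.mem_coe.1 hi)).2.1
      have hj' := (Finset.mem_filter.1 (Finset.mem_coe.1 hj)).2.1
      simp only [Prod.mk.injEq, hres] at hij
      obtain ⟨h1, h2⟩ := hij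
      rw [ZMod.natCast_eq_natCast_iff'] at h1
      have h3 : i - 2 * h * c = j - 2 * h * c := by
        rw [← Nat.div_add_mod (i - 2 * h * c) M, ← Nat.div_add_mod (j - 2 * h * c) M, h1, h2]
      omega
  have hbad := col_basic n (Nat.sqrt (U.card * (n / M + 1)) + 1) B
    (fun i hi => by
      have := Finset.mem_range.1 (Finset.mem_filter.1 hi).1
      omega)
    (hBcard.trans (Nat.lt_succ_sqrt _).le)
  have htot := ((hgood.union hbad).union (col_small i₀)).mono hcov le_rfl
  refine (lam_le htot).trans ?_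
  have hQle : q ^ h * (Q * (P * (n / M))) ≤
      q ^ h * (2 * (q ^ h + Nat.sqrt (n / M) + 1) * (P * (n / M))) :=
    Nat.mul_le_mul_left _ (Nat.mul_le_mul_right _ hQ2)
  omega

/-! ### The choice of the parameters -/

lemma desc_le (q k : ℕ) : q.descFactorial k ≤ q ^ k := Nat.descFactorial_le_pow q k

lemma desc_ge (h : ℕ) (hh : 1 ≤ h) :
    (8 * h ^ 2) ^ (2 * h) ≤ 2 * (8 * h ^ 2).descFactorial (2 * h) := by
  have h1 := Nat.pow_sub_le_descFactorial (8 * h ^ 2) (2 * h)
  have h2 : (8 * h ^ 2) ^ (2 * h) ≤ 2 * (8 * h ^ 2 + 1 - 2 * h) ^ (2 * h) := by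
    have hb : 2 * h ≤ 8 * h ^ 2 := by nlinarith
    have h3 : ((8 * h ^ 2 + 1 - 2 * h : ℕ) : ℝ) = 8 * (h : ℝ) ^ 2 + 1 - 2 * h := by
      rw [Nat.cast_sub (by omega)]; push_cast; ring
    have hh' : (1 : ℝ) ≤ h := by exact_mod_cast hh
    have h4 : (1 : ℝ) + (2 * h : ℕ) * (-(1 / (4 * h))) ≤ (1 + -(1 / (4 * (h : ℝ)))) ^ (2 * h) :=
      one_add_mul_le_pow (by
        have : 1 / (4 * (h : ℝ)) ≤ 1 := by
          rw [div_le_one (by positivity)]; linarith
        linarith) _
    have h5 : (1 : ℝ) + (2 * h : ℕ) * (-(1 / (4 * h))) = 1 / 2 := by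
      push_cast; field_simp; ring
    have h6 : (8 * (h : ℝ) ^ 2) * (1 + -(1 / (4 * (h : ℝ)))) ≤ 8 * (h : ℝ) ^ 2 + 1 - 2 * h := by
      have : (8 * (h : ℝ) ^ 2) * (1 + -(1 / (4 * (h : ℝ)))) = 8 * (h : ℝ) ^ 2 - 2 * h := by
        field_simp; ring
      rw [this]; linarith
    have h7 : ((8 * (h : ℝ) ^ 2) * (1 + -(1 / (4 * (h : ℝ))))) ^ (2 * h) ≤
        (8 * (h : ℝ) ^ 2 + 1 - 2 * h) ^ (2 * h) := by
      apply pow_le_pow_left₀ _ h6
      have : 1 / (4 * (h : ℝ)) ≤ 1 := by
        rw [div_le_one (by positivity)]; linarith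
      have : 0 ≤ 1 + -(1 / (4 * (h : ℝ))) := by linarith
      positivity
    rw [mul_pow] at h7
    have h8 : (0 : ℝ) ≤ (8 * (h : ℝ) ^ 2) ^ (2 * h) := by positivity
    have h9 : (8 * (h : ℝ) ^ 2) ^ (2 * h) * (1 / 2) ≤
        (8 * (h : ℝ) ^ 2 + 1 - 2 * h) ^ (2 * h) := by
      refine le_trans ?_ h7
      apply mul_le_mul_of_nonneg_left _ h8
      rw [← h5]; exact h4
    have h10 : (((8 * h ^ 2) ^ (2 * h) : ℕ) : ℝ) ≤
        ((2 * (8 * h ^ 2 + 1 - 2 * h) ^ (2 * h) : ℕ) : ℝ) := by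
      push_cast
      rw [h3]
      linarith
    exact_mod_cast h10
  omega

set_option maxHeartbeats 1000000 in
lemma real_bound (a h n M W y z b T1 T2 T3 T4 x sb : ℝ)
    (hb1 : 1 ≤ b) (hh : h = b ^ 2) (hx : x ^ 2 = n) (hx0 : 0 ≤ x) (hsb : sb ^ 2 = b)
    (hsb0 : 0 ≤ sb) (ha : 8 * h ^ 2 ≤ a) (hxa : a ^ 4 ≤ x) (hM0 : 0 ≤ M) (hMa : M ≤ a ^ 2)
    (hW0 : 0 ≤ W)
    (hW : 2 * h * W ≤ n) (hy : y ^ 2 * M ≤ n) (haM : a ^ 2 ≤ 8 * h * b * M)
    (hz : b * z ^ 2 ≤ n + M)
    (hT1 : T1 ≤ a * (2 * (a + y + 1) * W))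
    (hT2 : T2 ≤ (n + 1) * (2 * h * (h * M + M)))
    (hT3 : T3 ≤ 2 * (z + 1) * (n + 1))
    (hT4 : T4 ≤ (2 * h * (h * M) + 2 * h * M) * (2 * h * (h * M) + 2 * h * M)) :
    T1 + T2 + T3 + T4 ≤ 8 / sb * (n * x) := by
  have hsb1 : 1 ≤ sb := by nlinarith
  have hh1 : 1 ≤ h := by rw [hh]; nlinarith
  have hsbh : sb ≤ h := by
    have : sb ≤ b := by nlinarith
    nlinarith
  have ha1 : 8 ≤ a := by nlinarith
  have ha2 : 64 * h ^ 4 ≤ a ^ 2 := by
    have := pow_le_pow_left₀ (by positivity) ha 2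
    nlinarith
  have hn0 : 0 ≤ n := by rw [← hx]; positivity
  have hx1 : 1 ≤ x := by
    have : (1 : ℝ) ≤ a ^ 4 := one_le_pow₀ (by linarith)
    linarith
  have hn1 : 1 ≤ n := by nlinarith
  have hnx : 0 ≤ n * x := by positivity
  -- the main part of the first term
  have k1 : a * y * sb ≤ 2.83 * (h * x) := by
    have h1 : (a * y * sb) ^ 2 ≤ 8 * (h * x) ^ 2 := by
      calc (a * y * sb) ^ 2 = a ^ 2 * (y ^ 2 * b) := by rw [mul_pow, mul_pow, hsb]; ring
        _ ≤ 8 * h * b * M * (y ^ 2 * b) := mul_le_mul_of_nonneg_right haM (by positivity)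
        _ = 8 * h * b ^ 2 * (y ^ 2 * M) := by ring
        _ ≤ 8 * h * b ^ 2 * n := mul_le_mul_of_nonneg_left hy (by positivity)
        _ = 8 * (h * x) ^ 2 := by rw [mul_pow, hx, ← hh]; ring
    have h2 : (a * y * sb) ^ 2 ≤ (2.83 * (h * x)) ^ 2 := by
      rw [mul_pow (2.83 : ℝ)]
      exact h1.trans (mul_le_mul_of_nonneg_right (by norm_num) (by positivity))
    exact le_of_sq_le_sq h2 (by positivity)
  have k2 : sb * z ≤ x + a := by
    have h1 : (sb * z) ^ 2 ≤ (x + a) ^ 2 := by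
      rw [mul_pow, hsb]
      have h3 := mul_nonneg hx0 (show (0:ℝ) ≤ a by linarith)
      have h4 : (x + a) ^ 2 = x ^ 2 + a ^ 2 + 2 * (x * a) := by ring
      rw [h4, hx]
      linarith
    exact le_of_sq_le_sq h1 (by positivity)
  have e1 : sb * T1 ≤ 2.83 * (n * x) + 2 * h * a ^ 2 * n := by
    calc sb * T1 ≤ sb * (a * (2 * (a + y + 1) * W)) := mul_le_mul_of_nonneg_left hT1 hsb0
      _ = (a * y * sb) * (2 * W) + sb * (2 * a * (a + 1) * W) := by ring
      _ ≤ 2.83 * (h * x) * (2 * W) + h * (2 * a * (a + 1) * W) := by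
          apply add_le_add
          · exact mul_le_mul_of_nonneg_right k1 (by positivity)
          · exact mul_le_mul_of_nonneg_right hsbh (by positivity)
      _ = 2.83 * x * (2 * h * W) + a * (a + 1) * (2 * h * W) := by ring
      _ ≤ 2.83 * x * n + a * (a + 1) * n := by
          apply add_le_add
          · exact mul_le_mul_of_nonneg_left hW (by positivity)
          · exact mul_le_mul_of_nonneg_left hW (by positivity)
      _ ≤ 2.83 * (n * x) + 2 * h * a ^ 2 * n := by
          have : a * (a + 1) ≤ 2 * h * a ^ 2 := by nlinarith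
          have := mul_le_mul_of_nonneg_right this hn0
          linarith
  have e2 : sb * T2 ≤ 8 * h ^ 3 * a ^ 2 * n := by
    calc sb * T2 ≤ sb * ((n + 1) * (2 * h * (h * M + M))) := mul_le_mul_of_nonneg_left hT2 hsb0
      _ ≤ h * ((n + 1) * (2 * h * (h * M + M))) :=
          mul_le_mul_of_nonneg_right hsbh (by positivity)
      _ ≤ h * ((n + n) * (2 * h * (h * a ^ 2 + h * a ^ 2))) := by
          apply mul_le_mul_of_nonneg_left _ (by linarith)
          apply mul_le_mul (by linarith) _ (by positivity) (by positivity)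
          apply mul_le_mul_of_nonneg_left _ (by positivity)
          apply add_le_add
          · exact mul_le_mul_of_nonneg_left hMa (by positivity)
          · nlinarith [sq_nonneg a]
      _ = 8 * h ^ 3 * a ^ 2 * n := by ring
  have e3 : sb * T3 ≤ 4 * (n * x) + 4 * a * n + 4 * h * n := by
    calc sb * T3 ≤ sb * (2 * (z + 1) * (n + 1)) := mul_le_mul_of_nonneg_left hT3 hsb0
      _ = (sb * z) * (2 * (n + 1)) + sb * (2 * (n + 1)) := by ring
      _ ≤ (x + a) * (2 * (n + n)) + h * (2 * (n + n)) := by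
          apply add_le_add
          · apply mul_le_mul k2 (by linarith) (by positivity) (by positivity)
          · apply mul_le_mul hsbh (by linarith) (by positivity) (by positivity)
      _ = 4 * (n * x) + 4 * a * n + 4 * h * n := by ring
  have e4 : sb * T4 ≤ 16 * h ^ 5 * a ^ 4 := by
    calc sb * T4 ≤ sb * ((2 * h * (h * M) + 2 * h * M) * (2 * h * (h * M) + 2 * h * M)) :=
          mul_le_mul_of_nonneg_left hT4 hsb0
      _ ≤ h * ((4 * h ^ 2 * a ^ 2) * (4 * h ^ 2 * a ^ 2)) := by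
          have h1 : 2 * h * (h * M) + 2 * h * M ≤ 4 * h ^ 2 * a ^ 2 := by
            have h2 : 2 * h * (h * M) ≤ 2 * h * (h * a ^ 2) := by
              apply mul_le_mul_of_nonneg_left _ (by positivity)
              exact mul_le_mul_of_nonneg_left hMa (by positivity)
            have h3 : 2 * h * M ≤ 2 * h * (h * a ^ 2) := by
              apply mul_le_mul_of_nonneg_left _ (by positivity)
              nlinarith [sq_nonneg a]
            nlinarith
          apply mul_le_mul hsbh _ (by positivity) (by positivity)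
          exact mul_le_mul h1 h1 (by positivity) (by positivity)
      _ = 16 * h ^ 5 * a ^ 4 := by ring
  -- the small terms
  have hxbig : 64 * h ^ 4 * a ^ 2 ≤ x := by
    calc 64 * h ^ 4 * a ^ 2 ≤ a ^ 2 * a ^ 2 := mul_le_mul_of_nonneg_right ha2 (by positivity)
      _ = a ^ 4 := by ring
      _ ≤ x := hxa
  have s1 : (2 * h * a ^ 2 + 8 * h ^ 3 * a ^ 2 + 4 * a + 4 * h) * n ≤ 15 / 64 * (n * x) := by
    have h1 : 2 * h * a ^ 2 + 8 * h ^ 3 * a ^ 2 + 4 * a + 4 * h ≤ 15 * h ^ 4 * a ^ 2 := by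
      have p1 : h ≤ h ^ 4 := le_self_pow₀ hh1 (by norm_num)
      have p2 : h ^ 3 ≤ h ^ 4 := pow_le_pow_right₀ hh1 (by norm_num)
      have p3 : (1 : ℝ) ≤ h ^ 4 := one_le_pow₀ hh1
      have q1 : h * a ^ 2 ≤ h ^ 4 * a ^ 2 := mul_le_mul_of_nonneg_right p1 (by positivity)
      have q2 : h ^ 3 * a ^ 2 ≤ h ^ 4 * a ^ 2 := mul_le_mul_of_nonneg_right p2 (by positivity)
      have q3 : 4 * a ≤ h ^ 4 * a ^ 2 := by
        have : 4 * a ≤ 1 * a ^ 2 := by nlinarith
        exact this.trans (mul_le_mul_of_nonneg_right p3 (by positivity))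
      have q4 : 4 * h ≤ h ^ 4 * a ^ 2 := by
        have : 4 * h ≤ h * a ^ 2 := by nlinarith
        exact this.trans q1
      linarith
    have h2 := mul_le_mul_of_nonneg_right h1 hn0
    have h3 := mul_le_mul_of_nonneg_right hxbig hn0
    linarith
  have s2 : 16 * h ^ 5 * a ^ 4 ≤ 1 / 4 * (n * x) := by
    have h1 : 64 * h ^ 5 ≤ a ^ 4 := by
      calc 64 * h ^ 5 ≤ (64 * h ^ 4) * (64 * h ^ 4) := by
            have : h ^ 5 ≤ h ^ 8 := pow_le_pow_right₀ hh1 (by norm_num)
            nlinarith [pow_nonneg (show (0:ℝ) ≤ h by linarith) 8]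
        _ ≤ a ^ 2 * a ^ 2 := mul_le_mul ha2 ha2 (by positivity) (by positivity)
        _ = a ^ 4 := by ring
    have h2 : 64 * h ^ 5 * a ^ 4 ≤ n * x := by
      calc 64 * h ^ 5 * a ^ 4 ≤ a ^ 4 * a ^ 4 := mul_le_mul_of_nonneg_right h1 (by positivity)
        _ ≤ x * x := mul_le_mul hxa hxa (by positivity) hx0
        _ = n := by rw [← hx]; ring
        _ ≤ n * x := by nlinarith
    linarith
  have htot : sb * (T1 + T2 + T3 + T4) ≤ 8 * (n * x) := by
    nlinarith
  rw [div_mul_eq_mul_div, le_div_iff₀ (by linarith)]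
  linarith

theorem upper_b (b : ℕ) (hb : 1 ≤ b) (n : ℕ) (hn : (8 * b ^ 4) ^ (8 * b ^ 2) ≤ n) :
    (lam n : ℝ) ≤ 8 / Real.sqrt b * (n * Real.sqrt n) := by
  obtain ⟨h, hh⟩ : ∃ h, h = b ^ 2 := ⟨_, rfl⟩
  have hh1 : 1 ≤ h := by rw [hh]; exact Nat.one_le_pow _ _ hb
  have hbh : b ≤ h := by rw [hh]; nlinarith
  obtain ⟨N, hN⟩ : ∃ N, N = (8 * h ^ 2).descFactorial (2 * h) := ⟨_, rfl⟩
  obtain ⟨a, ha⟩ : ∃ a, a = (8 * h ^ 2) ^ h := ⟨_, rfl⟩
  have hF1 : a ^ 2 ≤ 2 * N := by
    have := desc_ge h hh1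
    rw [← hN] at this
    rw [ha, ← pow_mul, mul_comm h 2]
    exact this
  have hF2 : N ≤ a ^ 2 := by
    rw [hN, ha, ← pow_mul, mul_comm h 2]
    exact desc_le _ _
  have haq : 8 * h ^ 2 ≤ a := by
    rw [ha]
    exact Nat.le_self_pow (by omega) _
  have hNb : 4 * h ^ 2 * b ≤ N := by
    have h1 : (8 * h ^ 2) ^ 2 ≤ a ^ 2 := Nat.pow_le_pow_left haq 2
    have h2 : 4 * h ^ 2 * b ≤ 4 * h ^ 2 * h := Nat.mul_le_mul_left _ hbh
    have h3 : h ^ 3 ≤ h ^ 4 := Nat.pow_le_pow_right (by omega) (by norm_num)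
    have h4 : 0 < h ^ 3 := by positivity
    nlinarith
  obtain ⟨P, hP⟩ : ∃ P, P = N / (4 * h ^ 2 * b) := ⟨_, rfl⟩
  have hden : 0 < 4 * h ^ 2 * b := by positivity
  have hP1 : 1 ≤ P := by
    rw [hP]
    exact (Nat.one_le_div_iff hden).2 hNb
  have hPN : 4 * h ^ 2 * b * P ≤ N := by
    rw [hP]
    exact Nat.mul_div_le _ _
  have hNP : N < 4 * h ^ 2 * b * (P + 1) := by
    rw [hP]
    exact Nat.lt_mul_div_succ _ hden
  obtain ⟨M, hM⟩ : ∃ M, M = 2 * h * P := ⟨_, rfl⟩
  have hN0 : 0 < N := lt_of_lt_of_le hden hNb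
  obtain ⟨u, hu, hlam⟩ := lam_le_nat h (8 * h ^ 2) P n M hh1 hP1 hM (by rw [← hN]; exact hN0)
  rw [← hN] at hu
  rw [← ha] at hlam
  have hMN : 2 * h * b * M ≤ N := by
    have : 2 * h * b * M = 4 * h ^ 2 * b * P := by rw [hM]; ring
    rw [this]; exact hPN
  have hM1 : 1 ≤ M := by
    rw [hM]
    exact Nat.mul_pos (by omega) (by omega)
  have hMa : M ≤ a ^ 2 := by
    refine le_trans ?_ (hMN.trans hF2)
    exact Nat.le_mul_of_pos_left _ (by positivity)
  have hub : u * b ≤ M := by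
    have h1 : N * (u * b) ≤ N * M := by
      calc N * (u * b) = u * N * b := by ring
        _ ≤ 2 * h * M ^ 2 * b := Nat.mul_le_mul_right _ hu
        _ = 2 * h * b * M * M := by ring
        _ ≤ N * M := Nat.mul_le_mul_right _ hMN
    exact Nat.le_of_mul_le_mul_left h1 hN0
  obtain ⟨G, hG⟩ : ∃ G, G = n / M := ⟨_, rfl⟩
  rw [← hG] at hlam
  have hMG : M * G ≤ n := by rw [hG]; exact Nat.mul_div_le _ _
  obtain ⟨y, hy⟩ : ∃ y, y = Nat.sqrt G := ⟨_, rfl⟩
  obtain ⟨z, hz⟩ : ∃ z, z = Nat.sqrt (u * (G + 1)) := ⟨_, rfl⟩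
  rw [← hy, ← hz] at hlam
  have hy2 : y ^ 2 ≤ G := by rw [hy]; exact Nat.sqrt_le' _
  have hz2 : z ^ 2 ≤ u * (G + 1) := by rw [hz]; exact Nat.sqrt_le' _
  have hyM : y ^ 2 * M ≤ n := by
    calc y ^ 2 * M ≤ G * M := Nat.mul_le_mul_right _ hy2
      _ = M * G := mul_comm _ _
      _ ≤ n := hMG
  have hzb : b * z ^ 2 ≤ n + M := by
    calc b * z ^ 2 ≤ b * (u * (G + 1)) := Nat.mul_le_mul_left _ hz2
      _ = u * b * (G + 1) := by ring
      _ ≤ M * (G + 1) := Nat.mul_le_mul_right _ hub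
      _ = M * G + M := by ring
      _ ≤ n + M := by omega
  have hWn : 2 * h * (P * G) ≤ n := by
    have : 2 * h * (P * G) = M * G := by rw [hM]; ring
    rw [this]; exact hMG
  have haM' : a ^ 2 ≤ 8 * h * b * M := by
    have h1 : 4 * h ^ 2 * b * (P + 1) ≤ 4 * h * b * M := by
      have : 4 * h * b * M = 4 * h ^ 2 * b * (2 * P) := by rw [hM]; ring
      rw [this]
      exact Nat.mul_le_mul_left _ (by omega)
    calc a ^ 2 ≤ 2 * N := hF1
      _ ≤ 2 * (4 * h * b * M) := by omega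
      _ = 8 * h * b * M := by ring
  have hna : a ^ 8 ≤ n := by
    have : a ^ 8 = (8 * b ^ 4) ^ (8 * b ^ 2) := by
      rw [ha, hh, ← pow_mul, ← pow_mul]
      congr 1
      ring
    rw [this]; exact hn
  have hxa : (a : ℝ) ^ 4 ≤ Real.sqrt n := by
    apply Real.le_sqrt_of_sq_le
    rw [← pow_mul]
    exact_mod_cast hna
  have key := real_bound (a : ℝ) h n M ((P * G : ℕ) : ℝ) y z b
    ((a * (2 * (a + y + 1) * (P * G)) : ℕ) : ℝ)
    (((n + 1) * (2 * h * (h * M + M)) : ℕ) : ℝ)
    ((2 * (z + 1) * (n + 1) : ℕ) : ℝ)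
    (((2 * h * (h * M) + 2 * h * M) * (2 * h * (h * M) + 2 * h * M) : ℕ) : ℝ)
    (Real.sqrt n) (Real.sqrt b) (by exact_mod_cast hb) (by exact_mod_cast hh)
    (Real.sq_sqrt (by positivity)) (Real.sqrt_nonneg _) (Real.sq_sqrt (by positivity))
    (Real.sqrt_nonneg _) (by exact_mod_cast haq) hxa (by positivity)
    (by exact_mod_cast hMa) (by positivity) (by exact_mod_cast hWn) (by exact_mod_cast hyM)
    (by exact_mod_cast haM') (by exact_mod_cast hzb) (by push_cast; exact le_rfl)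
    (by push_cast; exact le_rfl) (by push_cast; exact le_rfl) (by push_cast; exact le_rfl)
  refine le_trans ?_ key
  exact_mod_cast hlam

lemma lam_le_sq (n : ℕ) : lam n ≤ (n + 1) * (n + 1) :=
  lam_le ((col_small (n + 1)).mono (fun _ hi => Nat.lt_succ_of_le hi) le_rfl)

lemma rpow_three_half (n : ℕ) : (n : ℝ) ^ (3 / 2 : ℝ) = n * Real.sqrt n := by
  rcases Nat.eq_zero_or_pos n with rfl | hn
  · rw [Nat.cast_zero, Real.zero_rpow (by norm_num), zero_mul]
  · have hn' : (0 : ℝ) < n := by exact_mod_cast hn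
    rw [Real.sqrt_eq_rpow, show (3 / 2 : ℝ) = 1 + 1 / 2 by norm_num, Real.rpow_add hn',
      Real.rpow_one]

lemma exists_b (n : ℕ) (hn : 8 ^ 8 ≤ n) : ∃ b : ℕ, 1 ≤ b ∧ (8 * b ^ 4) ^ (8 * b ^ 2) ≤ n ∧
    n < (8 * (b + 1) ^ 4) ^ (8 * (b + 1) ^ 2) := by
  classical
  have hex : ∃ b : ℕ, n < (8 * (b + 1) ^ 4) ^ (8 * (b + 1) ^ 2) := by
    refine ⟨n, ?_⟩
    calc n < n + 1 := Nat.lt_succ_self n
      _ ≤ (n + 1) ^ 4 := Nat.le_self_pow (by norm_num) _
      _ ≤ 8 * (n + 1) ^ 4 := by omega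
      _ ≤ (8 * (n + 1) ^ 4) ^ (8 * (n + 1) ^ 2) := Nat.le_self_pow (by positivity) _
  refine ⟨Nat.find hex, ?_, ?_, Nat.find_spec hex⟩
  · by_contra hcon
    have h0 : Nat.find hex = 0 := by omega
    have := Nat.find_spec hex
    rw [h0] at this
    norm_num at this hn
    omega
  · by_contra hcon
    have h1 : 1 ≤ Nat.find hex := by
      by_contra hcon'
      have h0 : Nat.find hex = 0 := by omega
      have := Nat.find_spec hex
      rw [h0] at this
      norm_num at this hn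
      omega
    have := Nat.find_min hex (m := Nat.find hex - 1) (by omega)
    apply this
    rw [Nat.sub_add_cancel h1]
    omega

/-- **Main result.** `λ(n) = O(n^(3/2) · (log log n / log n)^(1/4))`; in particular
`λ(n) = o(n^(3/2))`. -/
theorem result :
    (∃ C : ℝ, ∀ n : ℕ, 16 ≤ n → (lam n : ℝ) ≤
      C * (n : ℝ) ^ (3 / 2 : ℝ) * (Real.log (Real.log n) / Real.log n) ^ (1 / 4 : ℝ)) ∧
    (∀ ε : ℝ, 0 < ε → ∃ N : ℕ, ∀ n : ℕ, N ≤ n → (lam n : ℝ) ≤ ε * (n : ℝ) ^ (3 / 2 : ℝ)) := by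
  constructor
  · refine ⟨17 * ((8 ^ 8 + 1) * (8 ^ 8 + 1)), fun n hn => ?_⟩
    rw [rpow_three_half]
    have hn' : (16 : ℝ) ≤ n := by exact_mod_cast hn
    have hl2 : 0.6931471803 < Real.log 2 := Real.log_two_gt_d9
    have hl2' : Real.log 2 < 0.6931471808 := Real.log_two_lt_d9
    have hlog16 : 4 * Real.log 2 ≤ Real.log n := by
      have : (4 : ℝ) * Real.log 2 = Real.log 16 := by
        rw [show (16 : ℝ) = 2 ^ 4 by norm_num, Real.log_pow]; norm_num
      rw [this]
      exact Real.log_le_log (by norm_num) hn'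
    have hlog : Real.exp 1 ≤ Real.log n := by
      have := Real.exp_one_lt_d9
      linarith
    have hlog0 : 0 < Real.log n := lt_of_lt_of_le (Real.exp_pos 1) hlog
    have hLL : 1 ≤ Real.log (Real.log n) := by
      rw [Real.le_log_iff_exp_le hlog0]; exact hlog
    have hq0 : 0 < Real.log (Real.log n) / Real.log n := by positivity
    have hnn : (1 : ℝ) ≤ n * Real.sqrt n := by
      have : (1 : ℝ) ≤ Real.sqrt n := Real.one_le_sqrt.2 (by linarith)
      nlinarith
    by_cases hbig : 8 ^ 8 ≤ n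
    · obtain ⟨b, hb1, hb2, hb3⟩ := exists_b n hbig
      have hb1' : (1 : ℝ) ≤ b := by exact_mod_cast hb1
      have hub := upper_b b hb1 n hb2
      have hsb0 : 0 < Real.sqrt b := Real.sqrt_pos.2 (by linarith)
      -- `b ^ 2 ≤ log n`
      have hlb0 : 0 ≤ Real.log b := Real.log_nonneg hb1'
      have hlog8 : Real.log 8 = 3 * Real.log 2 := by
        rw [show (8 : ℝ) = 2 ^ 3 by norm_num, Real.log_pow]; norm_num
      have h1 : (b : ℝ) ^ 2 ≤ Real.log n := by
        have h2 : Real.log (((8 * b ^ 4) ^ (8 * b ^ 2) : ℕ) : ℝ) ≤ Real.log n :=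
          Real.log_le_log (by positivity) (by exact_mod_cast hb2)
        push_cast at h2
        rw [Real.log_pow, Real.log_mul (by norm_num) (by positivity), Real.log_pow] at h2
        push_cast at h2
        have h3 : (b : ℝ) ^ 2 ≤ 8 * (b : ℝ) ^ 2 * (Real.log 8 + 4 * Real.log b) := by
          have : 1 ≤ 8 * (Real.log 8 + 4 * Real.log b) := by linarith
          nlinarith [sq_nonneg (b : ℝ)]
        linarith
      have h2 : 2 * Real.log b ≤ Real.log (Real.log n) := by
        have := Real.log_le_log (by positivity) h1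
        rw [Real.log_pow] at this
        exact_mod_cast this
      have h3 : Real.log n ≤ 224 * (b : ℝ) ^ 2 * Real.log (Real.log n) := by
        have h4 : Real.log n ≤ Real.log (((8 * (b + 1) ^ 4) ^ (8 * (b + 1) ^ 2) : ℕ) : ℝ) :=
          Real.log_le_log (by positivity) (by exact_mod_cast hb3.le)
        push_cast at h4
        rw [Real.log_pow, Real.log_mul (by norm_num) (by positivity), Real.log_pow] at h4
        push_cast at h4
        have h5 : Real.log ((b : ℝ) + 1) ≤ Real.log 2 + Real.log b := by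
          rw [← Real.log_mul (by norm_num) (by positivity)]
          exact Real.log_le_log (by positivity) (by linarith)
        have h6 : ((b : ℝ) + 1) ^ 2 ≤ 4 * (b : ℝ) ^ 2 := by nlinarith
        have h7 : Real.log 8 + 4 * Real.log ((b : ℝ) + 1) ≤ 7 * Real.log (Real.log n) := by
          linarith
        have h8 : 0 ≤ Real.log 8 + 4 * Real.log ((b : ℝ) + 1) := by
          have : 0 ≤ Real.log ((b : ℝ) + 1) := Real.log_nonneg (by linarith)
          linarith
        calc Real.log n ≤ 8 * ((b : ℝ) + 1) ^ 2 *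
              (Real.log 8 + 4 * Real.log ((b : ℝ) + 1)) := h4
          _ ≤ 8 * (4 * (b : ℝ) ^ 2) * (7 * Real.log (Real.log n)) := by
              apply mul_le_mul _ h7 h8 (by positivity)
              linarith
          _ = 224 * (b : ℝ) ^ 2 * Real.log (Real.log n) := by ring
      have h4 : 1 / (4 * Real.sqrt b) ≤
          (Real.log (Real.log n) / Real.log n) ^ (1 / 4 : ℝ) := by
        have h5 : (1 / (4 * Real.sqrt b)) ^ (4 : ℕ) ≤ Real.log (Real.log n) / Real.log n := by
          have h6 : (4 * Real.sqrt b) ^ 4 = 256 * (b : ℝ) ^ 2 := by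
            have : (Real.sqrt b) ^ 4 = (b : ℝ) ^ 2 := by
              calc (Real.sqrt b) ^ 4 = ((Real.sqrt b) ^ 2) ^ 2 := by ring
                _ = (b : ℝ) ^ 2 := by rw [Real.sq_sqrt (by positivity)]
            rw [mul_pow, this]; norm_num
          rw [div_pow, one_pow, h6, div_le_div_iff₀ (by positivity) hlog0]
          nlinarith [sq_nonneg (b : ℝ)]
        calc 1 / (4 * Real.sqrt b) = ((1 / (4 * Real.sqrt b)) ^ (4 : ℕ)) ^ (1 / 4 : ℝ) := by
              rw [← Real.rpow_natCast, ← Real.rpow_mul (by positivity)]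
              norm_num
          _ ≤ _ := Real.rpow_le_rpow (by positivity) h5 (by norm_num)
      have h5 : 8 / Real.sqrt b = 32 * (1 / (4 * Real.sqrt b)) := by
        field_simp; norm_num
      calc (lam n : ℝ) ≤ 8 / Real.sqrt b * (n * Real.sqrt n) := hub
        _ = 32 * (n * Real.sqrt n) * (1 / (4 * Real.sqrt b)) := by rw [h5]; ring
        _ ≤ 17 * ((8 ^ 8 + 1) * (8 ^ 8 + 1)) * (n * Real.sqrt n) *
            (Real.log (Real.log n) / Real.log n) ^ (1 / 4 : ℝ) := by
            apply mul_le_mul _ h4 (by positivity) (by positivity)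
            apply mul_le_mul_of_nonneg_right _ (by positivity)
            norm_num
    · have hsmall : n ≤ 8 ^ 8 := by omega
      have hsmall' : (n : ℝ) ≤ 8 ^ 8 := by exact_mod_cast hsmall
      have h1 : Real.log n ≤ 17 := by
        have h2 : Real.log n ≤ Real.log (8 ^ 8) := Real.log_le_log (by linarith) hsmall'
        rw [show (8 : ℝ) ^ 8 = 2 ^ 24 by norm_num, Real.log_pow] at h2
        push_cast at h2
        linarith
      have h2 : (1 : ℝ) / 17 ≤ Real.log (Real.log n) / Real.log n := by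
        rw [div_le_div_iff₀ (by norm_num) hlog0]
        nlinarith
      have h3 : (1 : ℝ) / 17 ≤ (Real.log (Real.log n) / Real.log n) ^ (1 / 4 : ℝ) := by
        calc (1 : ℝ) / 17 = ((1 : ℝ) / 17) ^ (1 : ℝ) := (Real.rpow_one _).symm
          _ ≤ ((1 : ℝ) / 17) ^ (1 / 4 : ℝ) :=
              Real.rpow_le_rpow_of_exponent_ge (by norm_num) (by norm_num) (by norm_num)
          _ ≤ _ := Real.rpow_le_rpow (by norm_num) h2 (by norm_num)
      have h4 : (lam n : ℝ) ≤ (8 ^ 8 + 1) * (8 ^ 8 + 1) := by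
        have h5 : lam n ≤ (8 ^ 8 + 1) * (8 ^ 8 + 1) :=
          (lam_le_sq n).trans (Nat.mul_le_mul (by omega) (by omega))
        exact_mod_cast h5
      calc (lam n : ℝ) ≤ (8 ^ 8 + 1) * (8 ^ 8 + 1) := h4
        _ = 17 * ((8 ^ 8 + 1) * (8 ^ 8 + 1)) * 1 * (1 / 17) := by ring
        _ ≤ _ := by
            apply mul_le_mul _ h3 (by positivity) (by positivity)
            exact mul_le_mul_of_nonneg_left hnn (by positivity)
  · intro ε hε
    obtain ⟨b, hb⟩ := exists_nat_ge (max 1 ((8 / ε) ^ 2))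
    have hb1 : (1 : ℝ) ≤ b := (le_max_left _ _).trans hb
    have hb2 : (8 / ε) ^ 2 ≤ b := (le_max_right _ _).trans hb
    refine ⟨(8 * b ^ 4) ^ (8 * b ^ 2), fun n hn => ?_⟩
    rw [rpow_three_half]
    refine (upper_b b (by exact_mod_cast hb1) n hn).trans ?_
    apply mul_le_mul_of_nonneg_right _ (by positivity)
    have hs : 8 / ε ≤ Real.sqrt b := Real.le_sqrt_of_sq_le hb2
    rw [div_le_iff₀ (Real.sqrt_pos.2 (by linarith))]
    rw [div_le_iff₀ hε] at hs
    linarith

end Pool.Agent.Results.MP_30c5a0_lc.CycleLabelSmall
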