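import Mathlib

set_option autoImplicit false

namespace Pool.Agent.Results.MP_30c5a0_lc.CycleLabelUpper

/-- The distance between the vertices `u` and `v` of the cycle `C_i`, whose vertices are
`0, 1, …, i - 1` in cyclic order: the length of the shorter of the two paths joining them. -/
def cycDist (i : ℕ) (u v : Fin i) : ℕ :=
  min (max u.val v.val - min u.val v.val) (i - (max u.val v.val - min u.val v.val))

/-- `φ` is a distance labeling of `C_3, …, C_n`: some function `d'` of two labels gives the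
distance of any two vertices of the same cycle. -/
def IsDistanceLabeling (n : ℕ) {L : Type} (φ : (i : ℕ) → Fin i → L) : Prop :=
  ∃ d' : L → L → ℤ, ∀ i : ℕ, 3 ≤ i → i ≤ n → ∀ u v : Fin i,
    d' (φ i u) (φ i v) = (cycDist i u v : ℤ)

/-- The set of labels that `φ` uses on `C_3, …, C_n`. -/
def usedLabels (n : ℕ) {L : Type} (φ : (i : ℕ) → Fin i → L) : Set L :=
  {x | ∃ i : ℕ, 3 ≤ i ∧ i ≤ n ∧ ∃ u : Fin i, φ i u = x}

/-- `lam n` is the least number of labels used by a distance labeling of `C_3, …, C_n`. -/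
noncomputable def lam (n : ℕ) : ℕ :=
  sInf {m : ℕ | ∃ (L : Type) (φ : (i : ℕ) → Fin i → L),
    IsDistanceLabeling n φ ∧ (usedLabels n φ).ncard = m}

/-- Sanity check: every labeling uses finitely many labels on `C_3, …, C_n`, so that the
`ncard` in the definition of `lam` is the true number of labels. -/
lemma usedLabels_finite (n : ℕ) {L : Type} (φ : (i : ℕ) → Fin i → L) :
    (usedLabels n φ).Finite := by
  have h : usedLabels n φ ⊆ ⋃ i ∈ Finset.range (n + 1), Set.range (φ i) := by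
    rintro x ⟨i, _, hi, u, rfl⟩
    exact Set.mem_biUnion (Finset.mem_coe.2 (Finset.mem_range.2 (by omega))) ⟨u, rfl⟩
  exact Set.Finite.subset (Set.Finite.biUnion (Finset.finite_toSet _)
    (fun i _ => Set.finite_range _)) h

/-! ### The pairs of rays -/

def lo : ℕ → ℕ
  | 0 => 0
  | 1 => 0
  | 2 => 0
  | 3 => 1
  | 4 => 1
  | _ => 2

def hi : ℕ → ℕ
  | 0 => 1
  | 1 => 3
  | 2 => 2
  | 3 => 3
  | 4 => 2
  | _ => 3

lemma lo_lt_hi {e : ℕ} (he : e < 6) : lo e < hi e := by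
  interval_cases e <;> decide

lemma hi_lt {e : ℕ} (he : e < 6) : hi e < 4 := by
  interval_cases e <;> decide

lemma lo_lt {e : ℕ} (he : e < 6) : lo e < 3 := by
  interval_cases e <;> decide

lemma hi_odd {e : ℕ} (he : e < 6) (h : e % 2 = 1) : hi e = 3 := by
  interval_cases e <;> simp_all [hi]

lemma hi_even {e : ℕ} (he : e < 6) (h : e % 2 = 0) : hi e < 3 := by
  interval_cases e <;> simp_all [hi]

lemma pair_inj {e f : ℕ} (he : e < 6) (hf : f < 6) (h1 : lo e = lo f) (h2 : hi e = hi f) :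
    e = f := by
  interval_cases e <;> interval_cases f <;> simp_all [lo, hi]

/-! ### Triangular numbers -/

def T : ℕ → ℕ
  | 0 => 0
  | t + 1 => T t + t

lemma T_succ (t : ℕ) : T (t + 1) = T t + t := rfl

lemma T_mono {s t : ℕ} (h : s ≤ t) : T s ≤ T t := by
  induction h with
  | refl => exact le_rfl
  | step _ ih => rw [T_succ]; omega

lemma two_T (t : ℕ) : 2 * T t + t = t * t := by
  induction t with
  | zero => rfl
  | succ t ih => rw [T_succ]; nlinarith

lemma exists_tri (k : ℕ) : ∃ p : ℕ × ℕ, p.1 < p.2 ∧ k = T p.2 + p.1 := by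
  induction k with
  | zero => exact ⟨(0, 1), by norm_num, by simp [T]⟩
  | succ k ih =>
    obtain ⟨⟨a, t⟩, h1, h2⟩ := ih
    simp only at h1 h2
    by_cases h : a + 1 < t
    · exact ⟨(a + 1, t), h, by simp only; omega⟩
    · refine ⟨(0, t + 1), by simp, ?_⟩
      simp only [T_succ]
      omega

lemma sum_T (m : ℕ) : 6 * ∑ c ∈ Finset.range (m + 1), T c + m = m * m * m := by
  induction m with
  | zero => simp [T]
  | succ m ih =>
    rw [Finset.sum_range_succ, mul_add]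
    have h := two_T (m + 1)
    nlinarith

/-! ### The labels of one cycle -/

/-- The label of the vertex `u` of the cycle with parameters `a t g e`, of length `6 g + e`. -/
def lab (a t g e u : ℕ) : ℕ × ℕ × ℕ × ℕ :=
  if u < (3 * g + 1) / 2 then (0, a, lo e, (3 * g + 1) / 2 - 1 - u)
  else if u < (3 * g + 1) / 2 + e / 2 then (1, a, e, u - (3 * g + 1) / 2)
  else if u < 2 * ((3 * g + 1) / 2) + e / 2 then
    (0, a, hi e, u - (3 * g + 1) / 2 - e / 2)
  else if u < 2 * ((3 * g + 1) / 2) + e / 2 + e % 2 then (2, a, t, 0)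
  else if u < 2 * ((3 * g + 1) / 2) + e / 2 + e % 2 + 3 * g / 2 then
    (0, t, hi e, 3 * g / 2 - 1 - (u - (2 * ((3 * g + 1) / 2) + e / 2 + e % 2)))
  else if u < 2 * ((3 * g + 1) / 2) + e / 2 + e % 2 + 3 * g / 2 + e / 2 then
    (1, t, e, e / 2 - 1 - (u - (2 * ((3 * g + 1) / 2) + e / 2 + e % 2 + 3 * g / 2)))
  else (0, t, lo e, u - (2 * ((3 * g + 1) / 2) + e / 2 + e % 2 + 3 * g / 2 + e / 2))

/-- The vertex `u` of the cycle with parameters `a t g e` carries the label `(κ, c, β, i)`. -/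
def Zone (a t g e κ c β i u : ℕ) : Prop :=
  (κ = 0 ∧ c = a ∧ β = lo e ∧ u + 1 + i = (3 * g + 1) / 2) ∨
  (κ = 1 ∧ c = a ∧ β = e ∧ i < e / 2 ∧ u = (3 * g + 1) / 2 + i) ∨
  (κ = 0 ∧ c = a ∧ β = hi e ∧ i < (3 * g + 1) / 2 ∧ u = (3 * g + 1) / 2 + e / 2 + i) ∨
  (κ = 2 ∧ c = a ∧ β = t ∧ i = 0 ∧ e % 2 = 1 ∧ u = 2 * ((3 * g + 1) / 2) + e / 2) ∨
  (κ = 0 ∧ c = t ∧ β = hi e ∧ i < 3 * g / 2 ∧
    u + 1 + i = 2 * ((3 * g + 1) / 2) + e / 2 + e % 2 + 3 * g / 2) ∨
  (κ = 1 ∧ c = t ∧ β = e ∧ i < e / 2 ∧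
    u + 1 + i = 2 * ((3 * g + 1) / 2) + e / 2 + e % 2 + 3 * g / 2 + e / 2) ∨
  (κ = 0 ∧ c = t ∧ β = lo e ∧ i < 3 * g / 2 ∧
    u = 2 * ((3 * g + 1) / 2) + e / 2 + e % 2 + 3 * g / 2 + e / 2 + i)

lemma lab_zone {a t g e u κ c β i : ℕ} (hu : u < 6 * g + e)
    (h : lab a t g e u = (κ, c, β, i)) : Zone a t g e κ c β i u := by
  unfold lab at h
  unfold Zone
  split_ifs at h with h1 h2 h3 h4 h5 h6 <;>
    simp only [Prod.mk.injEq] at h <;> obtain ⟨rfl, rfl, rfl, rfl⟩ := h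
  · left; refine ⟨rfl, rfl, rfl, ?_⟩; omega
  · right; left; refine ⟨rfl, rfl, rfl, ?_, ?_⟩ <;> omega
  · right; right; left; refine ⟨rfl, rfl, rfl, ?_, ?_⟩ <;> omega
  · right; right; right; left; refine ⟨rfl, rfl, rfl, rfl, ?_, ?_⟩ <;> omega
  · right; right; right; right; left; refine ⟨rfl, rfl, rfl, ?_, ?_⟩ <;> omega
  · right; right; right; right; right; left; refine ⟨rfl, rfl, rfl, ?_, ?_⟩ <;> omega
  · right; right; right; right; right; right; refine ⟨rfl, rfl, rfl, ?_, ?_⟩ <;> omega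

/-- The coordinate of a label of one star. -/
def Coord (e κ β i : ℕ) (q : ℤ) : Prop :=
  (κ = 1 ∧ β = e ∧ i < e / 2 ∧ q = i) ∨ (κ = 0 ∧ β = lo e ∧ q = -i - 1) ∨
  (κ = 0 ∧ β = hi e ∧ q = (e / 2 : ℕ) + i)

def cd (i u v : ℕ) : ℕ := min (max u v - min u v) (i - (max u v - min u v))

lemma cd_comm (i u v : ℕ) : cd i u v = cd i v u := by
  unfold cd; omega

lemma zone_coord {a t g e κ c β i u : ℕ} (hκ : κ ≤ 1) (h : Zone a t g e κ c β i u) :
    ∃ q : ℤ, Coord e κ β i q ∧ -(((3 * g + 1) / 2 : ℕ) : ℤ) ≤ q ∧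
      q ≤ (((3 * g + 1) / 2 : ℕ) : ℤ) + (e / 2 : ℕ) - 1 ∧
      ((c = a ∧ (u : ℤ) = ((3 * g + 1) / 2 : ℕ) + q) ∨
       (c = t ∧ (u : ℤ) = 2 * ((3 * g + 1) / 2 : ℕ) + (e / 2 : ℕ) + (e % 2 : ℕ) +
          (3 * g / 2 : ℕ) + (e / 2 : ℕ) - 1 - q)) := by
  unfold Zone at h
  rcases h with h | h | h | h | h | h | h
  · obtain ⟨rfl, rfl, rfl, h⟩ := h
    refine ⟨-i - 1, Or.inr (Or.inl ⟨rfl, rfl, rfl⟩), ?_, ?_, Or.inl ⟨rfl, ?_⟩⟩ <;> omega
  · obtain ⟨rfl, rfl, rfl, h, h'⟩ := h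
    refine ⟨i, Or.inl ⟨rfl, rfl, h, rfl⟩, ?_, ?_, Or.inl ⟨rfl, ?_⟩⟩ <;> omega
  · obtain ⟨rfl, rfl, rfl, h, h'⟩ := h
    refine ⟨(e / 2 : ℕ) + i, Or.inr (Or.inr ⟨rfl, rfl, rfl⟩), ?_, ?_, Or.inl ⟨rfl, ?_⟩⟩ <;>
      omega
  · omega
  · obtain ⟨rfl, rfl, rfl, h, h'⟩ := h
    refine ⟨(e / 2 : ℕ) + i, Or.inr (Or.inr ⟨rfl, rfl, rfl⟩), ?_, ?_, Or.inr ⟨rfl, ?_⟩⟩ <;>
      omega
  · obtain ⟨rfl, rfl, rfl, h, h'⟩ := h
    refine ⟨i, Or.inl ⟨rfl, rfl, h, rfl⟩, ?_, ?_, Or.inr ⟨rfl, ?_⟩⟩ <;> omega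
  · obtain ⟨rfl, rfl, rfl, h, h'⟩ := h
    refine ⟨-i - 1, Or.inr (Or.inl ⟨rfl, rfl, rfl⟩), ?_, ?_, Or.inr ⟨rfl, ?_⟩⟩ <;> omega

/-- Two labels of one star: the distance is the difference of the coordinates. -/
lemma same_star {a t g e κ c β i u κ' β' i' u' : ℕ} (hat : a < t)
    (hκ : κ ≤ 1) (hκ' : κ' ≤ 1)
    (h : Zone a t g e κ c β i u) (h' : Zone a t g e κ' c β' i' u') :
    ∃ q q' : ℤ, Coord e κ β i q ∧ Coord e κ' β' i' q' ∧
      ((cd (6 * g + e) u u' : ℕ) : ℤ) = |q - q'| := by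
  obtain ⟨q, hq, h1, h2, h3⟩ := zone_coord hκ h
  obtain ⟨q', hq', h1', h2', h3'⟩ := zone_coord hκ' h'
  refine ⟨q, q', hq, hq', ?_⟩
  have hd : (u : ℤ) - u' = q - q' ∨ (u : ℤ) - u' = q' - q := by
    rcases h3 with ⟨rfl, h3⟩ | ⟨rfl, h3⟩ <;> rcases h3' with ⟨h4, h3'⟩ | ⟨h4, h3'⟩ <;> omega
  unfold cd
  rcases hd with hd | hd <;> rcases le_total q q' with hqq | hqq
  · rw [abs_of_nonpos (by omega)]; omega
  · rw [abs_of_nonneg (by omega)]; omega
  · rw [abs_of_nonpos (by omega)]; omega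
  · rw [abs_of_nonneg (by omega)]; omega

/-- The difference of coordinates depends on the labels only. -/
lemma coord_diff {e f κ β i κ' β' i' : ℕ} {q q' r r' : ℤ} (he : e < 6) (hf : f < 6)
    (h1 : Coord e κ β i q) (h2 : Coord e κ' β' i' q') (h3 : Coord f κ β i r)
    (h4 : Coord f κ' β' i' r') : |q - q'| = |r - r'| := by
  have hle := lo_lt_hi he
  have hlf := lo_lt_hi hf
  have key : e = f ∨ (κ = 0 ∧ κ' = 0 ∧ β = β') := by
    unfold Coord at h1 h2 h3 h4
    by_cases hk : κ = 0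
    · by_cases hk' : κ' = 0
      · by_cases hb : β = β'
        · exact Or.inr ⟨hk, hk', hb⟩
        · left
          apply pair_inj he hf <;> omega
      · left; omega
    · left; omega
  rcases key with rfl | ⟨rfl, rfl, rfl⟩
  · unfold Coord at h1 h2 h3 h4
    have e1 : q = r := by omega
    have e2 : q' = r' := by omega
    rw [e1, e2]
  · unfold Coord at h1 h2 h3 h4
    have e1 : q - q' = (i : ℤ) - i' ∨ q - q' = (i' : ℤ) - i := by omega
    have e2 : r - r' = (i : ℤ) - i' ∨ r - r' = (i' : ℤ) - i := by omega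
    have a1 : |q - q'| = |(i : ℤ) - i'| := by
      rcases e1 with e1 | e1 <;> rw [e1]
      exact abs_sub_comm _ _
    have a2 : |r - r'| = |(i : ℤ) - i'| := by
      rcases e2 with e2 | e2 <;> rw [e2]
      exact abs_sub_comm _ _
    rw [a1, a2]

/-- A label occurs at most once in a cycle. -/
lemma zone_unique {a t g e κ c β i u u' : ℕ} (hat : a < t) (he : e < 6)
    (h : Zone a t g e κ c β i u) (h' : Zone a t g e κ c β i u') : u = u' := by
  have hle := lo_lt_hi he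
  unfold Zone at h h'
  rcases h with h | h | h | h | h | h | h <;> rcases h' with h' | h' | h' | h' | h' | h' | h' <;>
    omega

/-- Labels of two different stars with equal ray. -/
lemma diff_star {a t g e β i j u v : ℕ} (hat : a < t) (he : e < 6)
    (h : Zone a t g e 0 a β i u) (h' : Zone a t g e 0 t β j v) :
    cd (6 * g + e) u v + i + j + 1 = 3 * g + (if β = 3 then 1 else 0) := by
  have hle := lo_lt_hi he
  have hl := lo_lt he
  have hh : (e % 2 = 1 ∧ hi e = 3) ∨ (e % 2 = 0 ∧ hi e < 3) := by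
    rcases Nat.mod_two_eq_zero_or_one e with h0 | h1
    · exact Or.inr ⟨h0, hi_even he h0⟩
    · exact Or.inl ⟨h1, hi_odd he h1⟩
  unfold Zone at h h'
  unfold cd
  have hb : β = lo e ∨ β = hi e := by omega
  rcases hb with rfl | rfl
  · rw [if_neg (by omega)]
    have hu : u + 1 + i = (3 * g + 1) / 2 := by omega
    have hv : j < 3 * g / 2 ∧
      v = 2 * ((3 * g + 1) / 2) + e / 2 + e % 2 + 3 * g / 2 + e / 2 + j := by omega
    clear h h'
    omega
  · have hu : i < (3 * g + 1) / 2 ∧ u = (3 * g + 1) / 2 + e / 2 + i := by omega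
    have hv : j < 3 * g / 2 ∧
      v + 1 + j = 2 * ((3 * g + 1) / 2) + e / 2 + e % 2 + 3 * g / 2 := by omega
    clear h h'
    rcases hh with ⟨h0, h1⟩ | ⟨h0, h1⟩
    · rw [if_pos h1]; omega
    · rw [if_neg (by omega)]; omega

/-- The middle label against a label on ray `3`. -/
lemma jn_ray {a t g e c j u v : ℕ} (he : e < 6)
    (h : Zone a t g e 2 a t 0 u) (h' : Zone a t g e 0 c 3 j v) :
    (c = a ∧ cd (6 * g + e) u v + j = (3 * g + 1) / 2) ∨
      (c = t ∧ cd (6 * g + e) u v + j = 3 * g / 2) := by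
  have hle := lo_lt_hi he
  have hl := lo_lt he
  unfold Zone at h h'
  unfold cd
  have hu : e % 2 = 1 ∧ u = 2 * ((3 * g + 1) / 2) + e / 2 := by omega
  clear h
  have h3 := hi_odd he hu.1
  have hv : (c = a ∧ j < (3 * g + 1) / 2 ∧ v = (3 * g + 1) / 2 + e / 2 + j) ∨
      (c = t ∧ j < 3 * g / 2 ∧
      v + 1 + j = 2 * ((3 * g + 1) / 2) + e / 2 + e % 2 + 3 * g / 2) := by omega
  clear h'
  rcases hv with ⟨h1, h2, h4⟩ | ⟨h1, h2, h4⟩
  · left; refine ⟨h1, ?_⟩; omega
  · right; refine ⟨h1, ?_⟩; omega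

lemma zone_star {a t g e κ c β i u : ℕ} (h : Zone a t g e κ c β i u) :
    (κ = 0 ∧ (c = a ∨ c = t) ∧ (β = lo e ∨ β = hi e)) ∨ (κ = 1 ∧ (c = a ∨ c = t) ∧ β = e) ∨
      (κ = 2 ∧ c = a ∧ β = t ∧ i = 0 ∧ e % 2 = 1 ∧ u = 2 * ((3 * g + 1) / 2) + e / 2) := by
  unfold Zone at h
  omega

/-- The distance of two labels is the same in all cycles that contain both. -/
lemma main_cons {a t g e a' t' g' e' κ c β i κ₂ c₂ β₂ i₂ u v u' v' G : ℕ}
    (hat : a < t) (hat' : a' < t') (he : e < 6) (he' : e' < 6)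
    (hG : g + (T t + a) = G) (hG' : g' + (T t' + a') = G)
    (hX : Zone a t g e κ c β i u) (hY : Zone a t g e κ₂ c₂ β₂ i₂ v)
    (hX' : Zone a' t' g' e' κ c β i u') (hY' : Zone a' t' g' e' κ₂ c₂ β₂ i₂ v') :
    cd (6 * g + e) u v = cd (6 * g' + e') u' v' := by
  have sX := zone_star hX
  have sY := zone_star hY
  have sX' := zone_star hX'
  have sY' := zone_star hY'
  by_cases hs : κ ≤ 1 ∧ κ₂ ≤ 1 ∧ c = c₂
  · obtain ⟨h1, h2, rfl⟩ := hs
    obtain ⟨q, q', hq, hq', hc⟩ := same_star hat h1 h2 hX hY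
    obtain ⟨r, r', hr, hr', hc'⟩ := same_star hat' h1 h2 hX' hY'
    have := coord_diff he he' hq hq' hr hr'
    rw [this, ← hc'] at hc
    exact_mod_cast hc
  · have h1 : a = a' ∧ t = t' := by omega
    obtain ⟨rfl, rfl⟩ := h1
    have hg : g = g' := by omega
    subst hg
    by_cases hee : e = e'
    · subst hee
      rw [zone_unique hat he hX hX', zone_unique hat he hY hY']
    · have hle := lo_lt_hi he
      have hle' := lo_lt_hi he'
      have hinj : lo e = lo e' → hi e = hi e' → False := fun h h' => hee (pair_inj he he' h h')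
      rcases sX with sX | sX | sX
      · rcases sY with sY | sY | sY
        · -- both thread labels
          have hcc : c ≠ c₂ := fun h => hs ⟨by omega, by omega, h⟩
          have hβ : β = β₂ := by
            by_contra hne
            apply hinj <;> omega
          obtain ⟨rfl, _⟩ := sX
          obtain ⟨rfl, _⟩ := sY
          subst hβ
          have h5 : (c = a ∧ c₂ = t) ∨ (c = t ∧ c₂ = a) := by omega
          rcases h5 with ⟨rfl, rfl⟩ | ⟨rfl, rfl⟩
          · have e1 := diff_star hat he hX hY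
            have e2 := diff_star hat he' hX' hY'
            omega
          · have e1 := diff_star hat he hY hX
            have e2 := diff_star hat he' hY' hX'
            rw [cd_comm _ u v, cd_comm _ u' v']
            omega
        · omega
        · obtain ⟨rfl, rfl, rfl, rfl, ho, hv⟩ := sY
          have ho' : e' % 2 = 1 := by omega
          have h3 := hi_odd he ho
          have h3' := hi_odd he' ho'
          have hβ : β = 3 := by
            by_contra hne
            apply hinj <;> omega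
          obtain ⟨rfl, hc, _⟩ := sX
          subst hβ
          have e1 := jn_ray he hY hX
          have e2 := jn_ray he' hY' hX'
          rw [cd_comm _ u v, cd_comm _ u' v']
          omega
      · omega
      · obtain ⟨rfl, rfl, rfl, rfl, ho, hv⟩ := sX
        have ho' : e' % 2 = 1 := by omega
        have h3 := hi_odd he ho
        have h3' := hi_odd he' ho'
        rcases sY with sY | sY | sY
        · have hβ : β₂ = 3 := by
            by_contra hne
            apply hinj <;> omega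
          obtain ⟨rfl, hc, _⟩ := sY
          subst hβ
          have e1 := jn_ray he hX hY
          have e2 := jn_ray he' hX' hY'
          omega
        · omega
        · have e1 : u = v := by omega
          have e2 : u' = v' := by omega
          subst e1; subst e2
          unfold cd; omega

/-! ### The labeling -/

noncomputable def triA (k : ℕ) : ℕ := (exists_tri k).choose.1
noncomputable def triT (k : ℕ) : ℕ := (exists_tri k).choose.2

lemma tri_lt (k : ℕ) : triA k < triT k := (exists_tri k).choose_spec.1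
lemma tri_eq (k : ℕ) : k = T (triT k) + triA k := (exists_tri k).choose_spec.2

/-- The labeling: the cycle of length `i = 6 g + e` gets the parameters of `k = G - g`. -/
noncomputable def phi (G i : ℕ) (u : Fin i) : ℕ × ℕ × ℕ × ℕ :=
  lab (triA (G - i / 6)) (triT (G - i / 6)) (i / 6) (i % 6) u.val

lemma phi_zone {G i : ℕ} (u : Fin i) {κ c β j : ℕ} (h : phi G i u = (κ, c, β, j)) :
    Zone (triA (G - i / 6)) (triT (G - i / 6)) (i / 6) (i % 6) κ c β j u.val := by
  apply lab_zone _ h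
  have := u.isLt
  omega

lemma cycDist_eq (i : ℕ) (u v : Fin i) : cycDist i u v = cd (6 * (i / 6) + i % 6) u.val v.val := by
  unfold cycDist cd
  rw [Nat.div_add_mod]

lemma phi_cons {n i j : ℕ} (hi : i ≤ n) (hj : j ≤ n) (u v : Fin i) (u' v' : Fin j)
    (h1 : phi (n / 6) i u = phi (n / 6) j u') (h2 : phi (n / 6) i v = phi (n / 6) j v') :
    cycDist i u v = cycDist j u' v' := by
  rw [cycDist_eq, cycDist_eq]
  obtain ⟨⟨κ, c, β, l⟩, hx⟩ : ∃ y, phi (n / 6) i u = y := ⟨_, rfl⟩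
  obtain ⟨⟨κ₂, c₂, β₂, l₂⟩, hy⟩ : ∃ y, phi (n / 6) i v = y := ⟨_, rfl⟩
  have hi6 : i / 6 ≤ n / 6 := Nat.div_le_div_right hi
  have hj6 : j / 6 ≤ n / 6 := Nat.div_le_div_right hj
  refine main_cons (G := n / 6) (tri_lt _) (tri_lt _) (Nat.mod_lt _ (by norm_num))
    (Nat.mod_lt _ (by norm_num)) ?_ ?_ (phi_zone u hx) (phi_zone v hy)
    (phi_zone u' (h1.symm.trans hx)) (phi_zone v' (h2.symm.trans hy))
  · rw [← tri_eq]; omega
  · rw [← tri_eq]; omega

lemma isDistanceLabeling_of_cons {n : ℕ} {L : Type} (φ : (i : ℕ) → Fin i → L)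
    (h : ∀ i j : ℕ, i ≤ n → j ≤ n → ∀ (u v : Fin i) (u' v' : Fin j),
      φ i u = φ j u' → φ i v = φ j v' → cycDist i u v = cycDist j u' v') :
    IsDistanceLabeling n φ := by
  classical
  refine ⟨fun x y => if hp : ∃ p : (Σ i : ℕ, Fin i × Fin i), p.1 ≤ n ∧ φ p.1 p.2.1 = x ∧
    φ p.1 p.2.2 = y then (cycDist hp.choose.1 hp.choose.2.1 hp.choose.2.2 : ℤ) else 0, ?_⟩
  intro i _ hi u v
  have hp : ∃ p : (Σ i : ℕ, Fin i × Fin i), p.1 ≤ n ∧ φ p.1 p.2.1 = φ i u ∧
    φ p.1 p.2.2 = φ i v := ⟨⟨i, u, v⟩, hi, rfl, rfl⟩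
  simp only
  rw [dif_pos hp]
  have hs := hp.choose_spec
  exact_mod_cast h _ _ hs.1 hi _ _ _ _ hs.2.1 hs.2.2

/-! ### Counting the labels -/

def threads (G m : ℕ) : Finset (ℕ × ℕ × ℕ × ℕ) :=
  (Finset.range (m + 1)).biUnion fun c =>
    (Finset.range 4 ×ˢ Finset.range ((3 * (G - T c) + 1) / 2)).image
      fun p => (0, c, p.1, p.2)

def fillers (m : ℕ) : Finset (ℕ × ℕ × ℕ × ℕ) :=
  (Finset.range (m + 1) ×ˢ Finset.range 6 ×ˢ Finset.range 2).image
    fun p => (1, p.1, p.2.1, p.2.2)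

def joints (m : ℕ) : Finset (ℕ × ℕ × ℕ × ℕ) :=
  (Finset.range (m + 1) ×ˢ Finset.range (m + 1)).image fun p => (2, p.1, p.2, 0)

lemma card_threads (G m : ℕ) (hm : T m ≤ G) :
    (threads G m).card + m * m * m ≤ 6 * (m + 1) * G + m + 2 * (m + 1) := by
  have h1 : (threads G m).card ≤ ∑ c ∈ Finset.range (m + 1), 4 * ((3 * (G - T c) + 1) / 2) := by
    refine Finset.card_biUnion_le.trans (Finset.sum_le_sum fun c _ => ?_)
    refine Finset.card_image_le.trans ?_
    simp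
  have h2 : ∑ c ∈ Finset.range (m + 1), 4 * ((3 * (G - T c) + 1) / 2) +
      6 * ∑ c ∈ Finset.range (m + 1), T c ≤ ∑ c ∈ Finset.range (m + 1), (6 * G + 2) := by
    rw [Finset.mul_sum, ← Finset.sum_add_distrib]
    refine Finset.sum_le_sum fun c hc => ?_
    have : T c ≤ G := (T_mono (by simpa [Nat.lt_succ_iff] using hc)).trans hm
    omega
  have h3 := sum_T m
  rw [Finset.sum_const, Finset.card_range, smul_eq_mul] at h2
  nlinarith

lemma card_fillers (m : ℕ) : (fillers m).card ≤ 12 * (m + 1) := by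
  refine Finset.card_image_le.trans ?_
  simp only [Finset.card_product, Finset.card_range]
  omega

lemma card_joints (m : ℕ) : (joints m).card ≤ (m + 1) * (m + 1) := by
  refine Finset.card_image_le.trans ?_
  simp

lemma phi_mem {n i m : ℕ} (hi : i ≤ n) (hm : n / 6 < T (m + 1)) (u : Fin i) :
    phi (n / 6) i u ∈ threads (n / 6) m ∪ fillers m ∪ joints m := by
  obtain ⟨⟨κ, c, β, l⟩, hx⟩ : ∃ y, phi (n / 6) i u = y := ⟨_, rfl⟩
  rw [hx]
  have hz := phi_zone u hx
  have hlt := tri_lt (n / 6 - i / 6)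
  have heq := tri_eq (n / 6 - i / 6)
  have hi6 : i / 6 ≤ n / 6 := Nat.div_le_div_right hi
  have he : i % 6 < 6 := Nat.mod_lt _ (by norm_num)
  set a := triA (n / 6 - i / 6)
  set t := triT (n / 6 - i / 6)
  have htm : t ≤ m := by
    by_contra hcon
    have := T_mono (show m + 1 ≤ t by omega)
    omega
  have hTa : T a ≤ T t := T_mono hlt.le
  have h4 := hi_lt he
  have h3 := lo_lt he
  have hct : c = a ∨ c = t → T c ≤ T t ∧ c ≤ m := by
    rintro (rfl | rfl)
    · exact ⟨hTa, by omega⟩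
    · exact ⟨le_rfl, htm⟩
  unfold Zone at hz
  rw [Finset.mem_union, Finset.mem_union]
  have hcase : (κ = 0 ∧ (c = a ∨ c = t) ∧ β < 4 ∧ l < (3 * (i / 6) + 1) / 2) ∨
      (κ = 1 ∧ (c = a ∨ c = t) ∧ β < 6 ∧ l < 2) ∨ (κ = 2 ∧ c = a ∧ β = t ∧ l = 0) := by
    omega
  rcases hcase with ⟨rfl, hc, hb, hl⟩ | ⟨rfl, hc, hb, hl⟩ | ⟨rfl, rfl, rfl, rfl⟩
  · left; left
    obtain ⟨h5, h6⟩ := hct hc
    simp only [threads, Finset.mem_biUnion, Finset.mem_image, Finset.mem_product,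
      Finset.mem_range]
    exact ⟨c, by omega, (β, l), ⟨hb, by simp only; omega⟩, rfl⟩
  · left; right
    obtain ⟨h5, h6⟩ := hct hc
    simp only [fillers, Finset.mem_image, Finset.mem_product, Finset.mem_range]
    exact ⟨(c, β, l), ⟨by simp only; omega, hb, hl⟩, rfl⟩
  · right
    simp only [joints, Finset.mem_image, Finset.mem_product, Finset.mem_range]
    exact ⟨(a, t), ⟨by simp only; omega, by simp only; omega⟩, rfl⟩

lemma lam_le_nat (n : ℕ) : ∃ m : ℕ, T m ≤ n / 6 ∧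
    lam n + m * m * m ≤ 6 * (m + 1) * (n / 6) + m + 2 * (m + 1) + 12 * (m + 1) +
      (m + 1) * (m + 1) := by
  obtain ⟨⟨a, m⟩, ham, hG⟩ := exists_tri (n / 6)
  simp only at ham hG
  refine ⟨m, by omega, ?_⟩
  have hm1 : n / 6 < T (m + 1) := by rw [T_succ]; omega
  have hsub : usedLabels n (phi (n / 6)) ⊆
      ((threads (n / 6) m ∪ fillers m ∪ joints m : Finset (ℕ × ℕ × ℕ × ℕ)) :
        Set (ℕ × ℕ × ℕ × ℕ)) := by
    rintro x ⟨i, _, hi, u, rfl⟩
    exact Finset.mem_coe.2 (phi_mem hi hm1 u)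
  have hlam : lam n ≤ (usedLabels n (phi (n / 6))).ncard := by
    apply Nat.sInf_le
    exact ⟨_, phi (n / 6), isDistanceLabeling_of_cons _
      (fun i j hi hj u v u' v' h1 h2 => phi_cons hi hj u v u' v' h1 h2), rfl⟩
  have hcard : (usedLabels n (phi (n / 6))).ncard ≤
      (threads (n / 6) m ∪ fillers m ∪ joints m).card := by
    rw [← Set.ncard_coe_finset]
    exact Set.ncard_le_ncard hsub (Finset.finite_toSet _)
  have h1 := Finset.card_union_le (threads (n / 6) m ∪ fillers m) (joints m)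
  have h2 := Finset.card_union_le (threads (n / 6) m) (fillers m)
  have h3 := card_threads (n / 6) m (by omega)
  have h4 := card_fillers m
  have h5 := card_joints m
  omega

/-! ### The bound over the reals -/

lemma lam_zero : lam 0 = 0 := by
  have h : lam 0 ≤ 0 := by
    apply Nat.sInf_le
    refine ⟨Unit, fun _ _ => (), ⟨fun _ _ => 0, fun i h1 h2 => by omega⟩, ?_⟩
    have : usedLabels 0 (fun (i : ℕ) (_ : Fin i) => ()) = ∅ := by
      ext x
      simp only [usedLabels, Set.mem_ofPred_eq, Set.mem_empty_iff_false, iff_false]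
      rintro ⟨i, h1, h2, _⟩
      omega
    rw [this, Set.ncard_empty]
  omega

lemma two_div_eq : (2 : ℝ) / (3 * Real.sqrt 3) * (Real.sqrt 3) ^ 3 = 2 := by
  have h3 : Real.sqrt 3 ^ 2 = 3 := Real.sq_sqrt (by norm_num)
  have hpos : 0 < Real.sqrt 3 := Real.sqrt_pos.2 (by norm_num)
  rw [div_mul_eq_mul_div, div_eq_iff (by positivity)]
  nlinarith [h3]

lemma main_term (n G m : ℝ) (hn : 0 ≤ n) (hG : 0 ≤ G) (hm : 0 ≤ m) (h : 6 * G ≤ n) :
    6 * G * m - m ^ 3 ≤ 2 / (3 * Real.sqrt 3) * (n * Real.sqrt n) := by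
  set y := Real.sqrt (2 * G) with hy
  set z := Real.sqrt (n / 3) with hz
  have hy0 : 0 ≤ y := Real.sqrt_nonneg _
  have hz0 : 0 ≤ z := Real.sqrt_nonneg _
  have hy2 : y ^ 2 = 2 * G := Real.sq_sqrt (by linarith)
  have hz2 : z ^ 2 = n / 3 := Real.sq_sqrt (by linarith)
  have hyz : y ≤ z := Real.sqrt_le_sqrt (by linarith)
  have h1 : 6 * G * m - m ^ 3 ≤ 2 * y ^ 3 := by
    have : 6 * G = 3 * y ^ 2 := by linarith
    rw [this]
    nlinarith [mul_nonneg (sq_nonneg (y - m)) (show 0 ≤ 2 * y + m by linarith)]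
  have h2 : 2 * y ^ 3 ≤ 2 * z ^ 3 := by
    have := pow_le_pow_left₀ hy0 hyz 3
    linarith
  have h3 : Real.sqrt n = Real.sqrt 3 * z := by
    rw [hz, ← Real.sqrt_mul (by norm_num)]
    congr 1
    ring
  have h4 : n = (Real.sqrt 3) ^ 2 * z ^ 2 := by
    rw [Real.sq_sqrt (by norm_num), hz2]; ring
  have h5 : n * Real.sqrt n = (Real.sqrt 3) ^ 3 * z ^ 3 := by
    rw [h3]
    nth_rewrite 1 [h4]
    ring
  rw [h5, ← mul_assoc, two_div_eq]
  linarith

theorem upper (n : ℕ) :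
    (lam n : ℝ) ≤ 2 / (3 * Real.sqrt 3) * (n * Real.sqrt n) + 38 * n := by
  rcases Nat.eq_zero_or_pos n with rfl | hn
  · rw [lam_zero]; simp
  obtain ⟨m, hT, hb⟩ := lam_le_nat n
  have hTm := two_T m
  set G := n / 6 with hGdef
  have hG6 : 6 * G ≤ n := Nat.mul_div_le n 6
  have hmG : m ≤ G + 1 := by
    by_contra hcon
    have h2 : 2 ≤ m := by omega
    nlinarith
  have hb' : (lam n : ℝ) + m * m * m ≤ 6 * (m + 1) * G + m + 2 * (m + 1) + 12 * (m + 1) +
      (m + 1) * (m + 1) := by exact_mod_cast hb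
  have hTm' : (m : ℝ) * m ≤ 2 * G + m := by
    have : m * m ≤ 2 * G + m := by omega
    exact_mod_cast this
  have hmG' : (m : ℝ) ≤ G + 1 := by exact_mod_cast hmG
  have hG6' : 6 * (G : ℝ) ≤ n := by exact_mod_cast hG6
  have hn' : (1 : ℝ) ≤ n := by exact_mod_cast hn
  have hmt := main_term n G m (by positivity) (by positivity) (by positivity) hG6'
  have : (m : ℝ) * m * m = m ^ 3 := by ring
  nlinarith

lemma const_lt : (2 : ℝ) / (3 * Real.sqrt 3) < 1 / Real.sqrt 6 := by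
  have h3 : 0 < Real.sqrt 3 := Real.sqrt_pos.2 (by norm_num)
  have h6 : 0 < Real.sqrt 6 := Real.sqrt_pos.2 (by norm_num)
  rw [div_lt_div_iff₀ (by positivity) h6]
  have h : (2 * Real.sqrt 6) < 3 * Real.sqrt 3 := by
    apply lt_of_pow_lt_pow_left₀ 2 (by positivity)
    rw [mul_pow, mul_pow, Real.sq_sqrt (by norm_num), Real.sq_sqrt (by norm_num)]
    norm_num
  linarith

/-- **Main result.** `lam n ≤ 2 / (3 √3) · n √n + O(n)`, and so the conjecture
`lam n = n √n / √6 + O(n)` is false. -/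
theorem result :
    (∃ C : ℝ, ∀ n : ℕ,
      (lam n : ℝ) ≤ 2 / (3 * Real.sqrt 3) * (n * Real.sqrt n) + C * n) ∧
    ¬ ∃ C : ℝ, ∀ n : ℕ, 3 ≤ n → |(lam n : ℝ) - n * Real.sqrt n / Real.sqrt 6| ≤ C * n := by
  refine ⟨⟨38, upper⟩, ?_⟩
  rintro ⟨C, hC⟩
  set δ : ℝ := 1 / Real.sqrt 6 - 2 / (3 * Real.sqrt 3) with hδ
  have hδ0 : 0 < δ := sub_pos.2 const_lt
  obtain ⟨m, hm⟩ := exists_nat_gt (max 2 ((C + 38) / δ))
  have hm2 : (2 : ℝ) < m := lt_of_le_of_lt (le_max_left _ _) hm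
  have hmC : (C + 38) / δ < m := lt_of_le_of_lt (le_max_right _ _) hm
  have hm2' : 2 < m := by exact_mod_cast hm2
  have hs : Real.sqrt ((m * m : ℕ) : ℝ) = m := by
    rw [Nat.cast_mul, Real.sqrt_mul_self (by positivity)]
  have h1 := hC (m * m) (by nlinarith)
  have h2 := upper (m * m)
  rw [hs] at h1 h2
  have h3 := neg_le_of_abs_le h1
  have hmm : (0 : ℝ) < ((m * m : ℕ) : ℝ) := by
    have : 0 < m * m := by positivity
    exact_mod_cast this
  set N : ℝ := ((m * m : ℕ) : ℝ) with hN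
  have h4 : N * m / Real.sqrt 6 = 1 / Real.sqrt 6 * (N * m) := by ring
  rw [h4] at h3
  have h5 : δ * (N * m) ≤ (C + 38) * N := by
    rw [hδ, sub_mul]
    linarith
  have h6 : δ * m ≤ C + 38 := by
    have : (δ * m) * N ≤ (C + 38) * N := by linarith
    exact le_of_mul_le_mul_right this hmm
  rw [div_lt_iff₀ hδ0] at hmC
  linarith

end Pool.Agent.Results.MP_30c5a0_lc.CycleLabelUpper
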