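import Mathlib

set_option autoImplicit false

namespace Pool.Agent.Results.MP_30c5a0_lc.SubThreeHalves

/-- circular distance -/
def cd (i x y : ℕ) : ℕ := min (max x y - min x y) (i - (max x y - min x y))

lemma cd_comm (i x y : ℕ) : cd i x y = cd i y x := by
  unfold cd; rw [max_comm, min_comm x y]

lemma cd_of_forward {i x y f : ℕ} (hf : 2 * f ≤ i) (hx : x < i) (hy : y < i)
    (h : x + f = y ∨ x + f = y + i) : cd i x y = f := by
  unfold cd
  rcases h with h | h
  · omega
  · omega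

section words

variable (k A B : ℕ)

/-- the `t`-th base-`B` digit of `v / A` -/
def X (v t : ℕ) : ℕ := (v / A / B ^ t) % B

/-- the periodic word of letters attached to `v` -/
def W (v t : ℕ) : ℕ := if t % (2 * k) = 0 then B + v % A else X A B v (t % (2 * k) - 1)

def d1 (v : ℕ) : ℕ := v % A + A * (v / A % B ^ k)

def d2 (v : ℕ) : ℕ := A * (B ^ k * (v / A / B ^ k))

def ins (v t : ℕ) : ℕ :=
  if t % (2 * k) = 0 then d1 k A B v else if t % (2 * k) = k then d2 k A B v else 0

def P (q v t : ℕ) : ℕ := ∑ τ ∈ Finset.range t, (q + ins k A B v τ)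

lemma d1_add_d2 (v : ℕ) : d1 k A B v + d2 k A B v = v := by
  unfold d1 d2
  have h1 := Nat.mod_add_div (v / A) (B ^ k)
  have h2 := Nat.mod_add_div v A
  calc v % A + A * (v / A % B ^ k) + A * (B ^ k * (v / A / B ^ k))
      = v % A + A * (v / A % B ^ k + B ^ k * (v / A / B ^ k)) := by ring
    _ = v := by rw [h1, h2]

lemma ins_add (v t : ℕ) : ins k A B v (t + 2 * k) = ins k A B v t := by
  unfold ins; rw [Nat.add_mod_right]

lemma sum_ins_zero (hk : 2 ≤ k) (v : ℕ) :
    ∑ τ ∈ Finset.range (2 * k), ins k A B v τ = v := by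
  have h : ∀ τ ∈ Finset.range (2 * k), ins k A B v τ
      = (if τ = 0 then d1 k A B v else 0) + (if τ = k then d2 k A B v else 0) := by
    intro τ hτ
    rw [Finset.mem_range] at hτ
    unfold ins
    rw [Nat.mod_eq_of_lt hτ]
    by_cases h0 : τ = 0
    · subst h0
      have : ¬ (0 = k) := by omega
      simp [this]
    · by_cases h1 : τ = k
      · rw [if_neg h0, if_pos h1, if_neg h0, Nat.zero_add]
      · rw [if_neg h0, if_neg h1, if_neg h0]
  rw [Finset.sum_congr rfl h, Finset.sum_add_distrib, Finset.sum_ite_eq', Finset.sum_ite_eq']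
  rw [if_pos (Finset.mem_range.2 (by omega)), if_pos (Finset.mem_range.2 (by omega))]
  exact d1_add_d2 k A B v

lemma sum_ins (hk : 2 ≤ k) (v s : ℕ) :
    ∑ τ ∈ Finset.range (2 * k), ins k A B v (s + τ) = v := by
  induction s with
  | zero => simpa using sum_ins_zero k A B hk v
  | succ s ih =>
    have e1 := Finset.sum_range_succ (fun τ => ins k A B v (s + τ)) (2 * k)
    have e2 := Finset.sum_range_succ' (fun τ => ins k A B v (s + τ)) (2 * k)
    rw [ins_add] at e1
    simp only [Nat.add_zero] at e2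
    have e3 : ∑ τ ∈ Finset.range (2 * k), ins k A B v (s + 1 + τ)
        = ∑ τ ∈ Finset.range (2 * k), ins k A B v (s + (τ + 1)) := by
      apply Finset.sum_congr rfl
      intro τ _
      congr 1
      omega
    rw [e3]
    omega

lemma P_add (q v s d : ℕ) :
    P k A B q v (s + d) = P k A B q v s + ∑ x ∈ Finset.range d, (q + ins k A B v (s + x)) := by
  unfold P
  rw [Finset.sum_range_add]

lemma P_period (hk : 2 ≤ k) (q v s : ℕ) :
    P k A B q v (s + 2 * k) = P k A B q v s + (2 * k * q + v) := by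
  rw [P_add, Finset.sum_add_distrib, sum_ins k A B hk]
  simp

lemma P_total (hk : 2 ≤ k) (q v : ℕ) : P k A B q v (2 * k) = 2 * k * q + v := by
  have := P_period k A B hk q v 0
  simpa [P] using this

lemma P_decomp (q v m x : ℕ) (hx : x < P k A B q v m) :
    ∃ t < m, ∃ r < q + ins k A B v t, x = P k A B q v t + r := by
  induction m with
  | zero => simp [P] at hx
  | succ m ih =>
    by_cases h : x < P k A B q v m
    · obtain ⟨t, ht, r, hr, e⟩ := ih h
      exact ⟨t, by omega, r, hr, e⟩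
    · have e : P k A B q v (m + 1) = P k A B q v m + (q + ins k A B v m) := by
        unfold P; rw [Finset.sum_range_succ]
      rw [e] at hx
      exact ⟨m, by omega, x - P k A B q v m, by omega, by omega⟩

lemma ins_le (v t : ℕ) : ins k A B v t ≤ v := by
  have := d1_add_d2 k A B v
  unfold ins
  split_ifs <;> omega

lemma W_add (v t : ℕ) : W k A B v (t + 2 * k) = W k A B v t := by
  unfold W; rw [Nat.add_mod_right]

lemma W_congr (v s t : ℕ) (h : s % (2 * k) = t % (2 * k)) : W k A B v s = W k A B v t := by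
  unfold W; rw [h]

lemma ins_congr (v s t : ℕ) (h : s % (2 * k) = t % (2 * k)) : ins k A B v s = ins k A B v t := by
  unfold ins; rw [h]

variable (hA : 0 < A) (hB : 0 < B)

include hB in
lemma X_lt (v t : ℕ) : X A B v t < B := Nat.mod_lt _ hB

include hA hB in
lemma W_lt (v t : ℕ) : W k A B v t < A + B := by
  unfold W
  split_ifs
  · have := Nat.mod_lt v hA; omega
  · have := X_lt A B hB v (t % (2 * k) - 1); omega

include hB in
lemma le_W_iff (v t : ℕ) : B ≤ W k A B v t ↔ t % (2 * k) = 0 := by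
  unfold W
  constructor
  · intro h
    by_contra hne
    rw [if_neg hne] at h
    have := X_lt A B hB v (t % (2 * k) - 1)
    omega
  · intro h
    rw [if_pos h]; omega

/-- good words: all `B`-letters distinct -/
def Good (v : ℕ) : Prop := ∀ t t', t < 2 * k - 1 → t' < 2 * k - 1 → X A B v t = X A B v t' → t = t'

include hB in
lemma W_inj (hk : 2 ≤ k) (v : ℕ) (hg : Good k A B v) (s t : ℕ) (h : W k A B v s = W k A B v t) :
    s % (2 * k) = t % (2 * k) := by
  have h1 := le_W_iff k A B hB v s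
  have h2 := le_W_iff k A B hB v t
  rw [h] at h1
  have h3 : s % (2 * k) = 0 ↔ t % (2 * k) = 0 := h1.symm.trans h2
  by_cases hs : s % (2 * k) = 0
  · rw [hs, h3.1 hs]
  · have ht : ¬ t % (2 * k) = 0 := fun h' => hs (h3.2 h')
    unfold W at h
    rw [if_neg hs, if_neg ht] at h
    have l1 : s % (2 * k) < 2 * k := Nat.mod_lt _ (by omega)
    have l2 : t % (2 * k) < 2 * k := Nat.mod_lt _ (by omega)
    have := hg _ _ (by omega) (by omega) h
    omega

lemma digits_eq (b x y m : ℕ) (h : ∀ t < m, (x / b ^ t) % b = (y / b ^ t) % b) :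
    x % b ^ m = y % b ^ m := by
  induction m with
  | zero => simp [Nat.mod_one]
  | succ m ih =>
    rw [Nat.mod_pow_succ, Nat.mod_pow_succ, ih (fun t ht => h t (by omega)), h m (by omega)]


lemma mod_pow_of_digits (v v' : ℕ) (h : ∀ j < k, X A B v j = X A B v' j) :
    v / A % B ^ k = v' / A % B ^ k := digits_eq B _ _ k h

/-- the key lemma for close sectors -/
lemma close_key (hk : 2 ≤ k) (hA : 0 < A) (hB : 0 < B) (v v' s t s' t' d : ℕ)
    (hv : v < A * B ^ (2 * k - 1)) (hv' : v' < A * B ^ (2 * k - 1))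
    (hg' : Good k A B v')
    (hdk : d < k) (ht : t % (2 * k) = (s + d) % (2 * k))
    (hs : ∀ x < k, W k A B v (s + x) = W k A B v' (s' + x))
    (htt : ∀ x < k, W k A B v (t + x) = W k A B v' (t' + x)) :
    t' % (2 * k) = (s' + d) % (2 * k) ∧
      ∀ x < d, ins k A B v (s + x) = ins k A B v' (s' + x) := by
  have hmod : ∀ x, (t + x) % (2 * k) = (s + d + x) % (2 * k) := by
    intro x; rw [Nat.add_mod, ht, ← Nat.add_mod]
  have e0 : W k A B v' t' = W k A B v' (s' + d) := by
    have h1 := htt 0 (by omega)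
    have h2 := hs d hdk
    simp only [Nat.add_zero] at h1
    rw [← h1, ← h2]
    exact W_congr k A B v _ _ (by simpa using hmod 0)
  have et : t' % (2 * k) = (s' + d) % (2 * k) := W_inj k A B hB hk v' hg' _ _ e0
  have hmod' : ∀ x, (t' + x) % (2 * k) = (s' + d + x) % (2 * k) := by
    intro x; rw [Nat.add_mod, et, ← Nat.add_mod]
  have hu : ∀ x < k + d, W k A B v (s + x) = W k A B v' (s' + x) := by
    intro x hx
    by_cases hxk : x < k
    · exact hs x hxk
    · have h1 := htt (x - d) (by omega)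
      have h2 : W k A B v (t + (x - d)) = W k A B v (s + x) :=
        W_congr k A B v _ _ (by rw [hmod]; congr 1; omega)
      have h3 : W k A B v' (t' + (x - d)) = W k A B v' (s' + x) :=
        W_congr k A B v' _ _ (by rw [hmod']; congr 1; omega)
      rw [← h2, ← h3, h1]
  have hzero : ∀ x < k + d, ((s + x) % (2 * k) = 0 ↔ (s' + x) % (2 * k) = 0) := by
    intro x hx
    rw [← le_W_iff k A B hB v, ← le_W_iff k A B hB v', hu x hx]
  have hA1 : ∀ x < k + d, (s + x) % (2 * k) = 0 → v % A = v' % A := by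
    intro x hx h0
    have h1 := hu x hx
    have h0' := (hzero x hx).1 h0
    unfold W at h1
    rw [if_pos h0, if_pos h0'] at h1
    omega
  have hdig : ∀ x j, x + 1 + j < k + d → j + 1 < 2 * k → (s + x) % (2 * k) = 0 →
      X A B v j = X A B v' j := by
    intro x j hxj hj h0
    have h0' := (hzero x (by omega)).1 h0
    have h1 := hu (x + 1 + j) hxj
    have m1 : (s + (x + 1 + j)) % (2 * k) = j + 1 := by
      have : s + (x + 1 + j) = (s + x) + (j + 1) := by ring
      rw [this, Nat.add_mod, h0, Nat.zero_add, Nat.mod_mod, Nat.mod_eq_of_lt (by omega)]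
    have m2 : (s' + (x + 1 + j)) % (2 * k) = j + 1 := by
      have : s' + (x + 1 + j) = (s' + x) + (j + 1) := by ring
      rw [this, Nat.add_mod, h0', Nat.zero_add, Nat.mod_mod, Nat.mod_eq_of_lt (by omega)]
    unfold W at h1
    rw [if_neg (by omega), if_neg (by omega), m1, m2] at h1
    simpa using h1
  refine ⟨et, ?_⟩
  intro x hx
  have hz := hzero x (by omega)
  -- position of residue k
  have hkk : ∀ a, (a % (2 * k) = k ↔ (a + k) % (2 * k) = 0) := by
    intro a
    have hlt : a % (2 * k) < 2 * k := Nat.mod_lt _ (by omega)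
    have e := Nat.add_mod a k (2 * k)
    rw [Nat.mod_eq_of_lt (show k < 2 * k by omega)] at e
    rw [e]
    constructor
    · intro h; rw [h]
      have : k + k = 2 * k := by ring
      rw [this, Nat.mod_self]
    · intro h
      by_contra hne
      rcases Nat.lt_or_gt_of_ne hne with h1 | h1
      · rw [Nat.mod_eq_of_lt (by omega)] at h; omega
      · rw [Nat.mod_eq_sub_mod (by omega), Nat.mod_eq_of_lt (by omega)] at h; omega
  have hz2 : (s + x) % (2 * k) = k ↔ (s' + x) % (2 * k) = k := by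
    rw [hkk, hkk]
    have := hzero (x + k) (by omega)
    rw [← Nat.add_assoc, ← Nat.add_assoc] at this
    exact this
  by_cases h0 : (s + x) % (2 * k) = 0
  · have h0' := hz.1 h0
    unfold ins
    rw [if_pos h0, if_pos h0']
    unfold d1
    rw [hA1 x (by omega) h0, mod_pow_of_digits k A B v v'
      (fun j hj => hdig x j (by omega) (by omega) h0)]
  · have h0' : ¬ (s' + x) % (2 * k) = 0 := fun h => h0 (hz.2 h)
    by_cases h1 : (s + x) % (2 * k) = k
    · have h1' := hz2.1 h1
      unfold ins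
      rw [if_neg h0, if_neg h0', if_pos h1, if_pos h1']
      unfold d2
      -- digits k .. 2k-2
      have hq : ∀ w, w < A * B ^ (2 * k - 1) → w / A / B ^ k < B ^ (k - 1) := by
        intro w hw
        rw [Nat.div_lt_iff_lt_mul (by positivity)]
        have e : B ^ (k - 1) * B ^ k = B ^ (2 * k - 1) := by
          rw [← pow_add]; congr 1; omega
        rw [e, Nat.div_lt_iff_lt_mul hA, Nat.mul_comm]
        exact hw
      have e1 : v / A / B ^ k % B ^ (k - 1) = v' / A / B ^ k % B ^ (k - 1) := by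
        apply digits_eq
        intro j hj
        -- digit j of v/A/B^k is digit k+j of v/A
        have h2 := hu (x + 1 + j) (by omega)
        have hx1 : (s + (x + 1 + j)) % (2 * k) = k + j + 1 := by
          have : s + (x + 1 + j) = (s + x) + (j + 1) := by ring
          rw [this, Nat.add_mod, h1, Nat.mod_eq_of_lt (show j + 1 < 2 * k by omega),
            Nat.mod_eq_of_lt (by omega)]
          ring
        have hx2 : (s' + (x + 1 + j)) % (2 * k) = k + j + 1 := by
          have : s' + (x + 1 + j) = (s' + x) + (j + 1) := by ring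
          rw [this, Nat.add_mod, h1', Nat.mod_eq_of_lt (show j + 1 < 2 * k by omega),
            Nat.mod_eq_of_lt (by omega)]
          ring
        unfold W at h2
        rw [if_neg (by omega), if_neg (by omega), hx1, hx2] at h2
        simp only [Nat.add_sub_cancel] at h2
        unfold X at h2
        rw [Nat.div_div_eq_div_mul (v / A), Nat.div_div_eq_div_mul (v' / A), ← pow_add]
        exact h2
      rw [Nat.mod_eq_of_lt (hq v hv), Nat.mod_eq_of_lt (hq v' hv')] at e1
      rw [e1]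
    · have h1' : ¬ (s' + x) % (2 * k) = k := fun h => h1 (hz2.2 h)
      unfold ins
      rw [if_neg h0, if_neg h0', if_neg h1, if_neg h1']

lemma addmod_inj {m s a b : ℕ} (ha : a < m) (hb : b < m) (h : (s + a) % m = (s + b) % m) :
    a = b := by
  have h1 : a ≡ b [MOD m] := Nat.ModEq.add_left_cancel' s h
  exact Nat.ModEq.eq_of_lt_of_lt h1 ha hb

lemma exists_shift {m s t : ℕ} (hs : s < m) (ht : t < m) : ∃ x < m, (s + x) % m = t := by
  by_cases h : s ≤ t
  · exact ⟨t - s, by omega, by rw [show s + (t - s) = t by omega]; exact Nat.mod_eq_of_lt ht⟩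
  · refine ⟨t + m - s, by omega, ?_⟩
    rw [show s + (t + m - s) = t + m by omega, Nat.add_mod_right, Nat.mod_eq_of_lt ht]

/-- antipodal sectors determine everything -/
lemma antipodal_key (hk : 2 ≤ k) (hA : 0 < A) (hB : 0 < B) (v v' s t s' t' : ℕ)
    (hv : v < A * B ^ (2 * k - 1)) (hv' : v' < A * B ^ (2 * k - 1))
    (hg : Good k A B v) (hg' : Good k A B v')
    (hsl : s < 2 * k) (htl : t < 2 * k) (hsl' : s' < 2 * k) (htl' : t' < 2 * k)
    (ht : t % (2 * k) = (s + k) % (2 * k))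
    (hs : ∀ x < k, W k A B v (s + x) = W k A B v' (s' + x))
    (htt : ∀ x < k, W k A B v (t + x) = W k A B v' (t' + x)) :
    v = v' ∧ s = s' ∧ t = t' := by
  have hmod : ∀ x, (t + x) % (2 * k) = (s + k + x) % (2 * k) := by
    intro x; rw [Nat.add_mod, ht, ← Nat.add_mod]
  have htt' : ∀ x < k, W k A B v (s + k + x) = W k A B v' (t' + x) := by
    intro x hx
    rw [← htt x hx]
    exact (W_congr k A B v _ _ (hmod x)).symm
  obtain ⟨d', hd', hdd⟩ := exists_shift hsl' htl'
  have hmt : (t' : ℕ) % (2 * k) = (s' + d') % (2 * k) := by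
    rw [hdd, Nat.mod_eq_of_lt htl']
  have edk : d' = k := by
    rcases Nat.lt_trichotomy d' k with h | h | h
    · exfalso
      have h1 : W k A B v (s + d') = W k A B v (s + k) := by
        rw [hs d' h]
        have h2 := htt' 0 (by omega)
        simp only [Nat.add_zero] at h2
        rw [h2]
        exact (W_congr k A B v' _ _ hmt).symm
      have h3 := W_inj k A B hB hk v hg _ _ h1
      have := addmod_inj hd' (by omega) h3
      omega
    · exact h
    · exfalso
      have h1 := htt' (2 * k - d') (by omega)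
      have h2 : (t' + (2 * k - d')) % (2 * k) = s' % (2 * k) := by
        rw [Nat.add_mod, hmt, ← Nat.add_mod]
        rw [show s' + d' + (2 * k - d') = s' + 2 * k by omega, Nat.add_mod_right]
      rw [W_congr k A B v' _ _ h2] at h1
      have h3 := hs 0 (by omega)
      simp only [Nat.add_zero] at h3
      rw [← h3] at h1
      have h4 := W_inj k A B hB hk v hg _ _ h1
      have h5 : (s + (k + (2 * k - d'))) % (2 * k) = (s + 0) % (2 * k) := by
        rw [← Nat.add_assoc]; simpa using h4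
      have := addmod_inj (by omega) (by omega) h5
      omega
  subst edk
  have hmod' : ∀ x, (t' + x) % (2 * d') = (s' + d' + x) % (2 * d') := by
    intro x; rw [Nat.add_mod, hmt, ← Nat.add_mod]
  have hall : ∀ x < 2 * d', W d' A B v (s + x) = W d' A B v' (s' + x) := by
    intro x hx
    by_cases hxk : x < d'
    · exact hs x hxk
    · have h1 := htt' (x - d') (by omega)
      rw [show s + d' + (x - d') = s + x by omega] at h1
      rw [h1]
      exact W_congr d' A B v' _ _ (by rw [hmod']; congr 1; omega)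
  obtain ⟨x0, hx0, hx0'⟩ := exists_shift hsl (show 0 < 2 * d' by omega)
  have h0' : (s' + x0) % (2 * d') = 0 := by
    rw [← le_W_iff d' A B hB v', ← hall x0 hx0, le_W_iff d' A B hB v]
    exact hx0'
  have hss : s = s' := by
    apply addmod_inj hsl hsl' (s := x0)
    rw [Nat.add_comm x0 s, Nat.add_comm x0 s', hx0', h0']
  subst hss
  have hWW : ∀ y < 2 * d', W d' A B v y = W d' A B v' y := by
    intro y hy
    obtain ⟨x, hx, hxy⟩ := exists_shift hsl hy
    have e : (s + x) % (2 * d') = y % (2 * d') := by rw [hxy, Nat.mod_eq_of_lt hy]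
    rw [← W_congr d' A B v _ _ e, ← W_congr d' A B v' _ _ e]
    exact hall x hx
  have hmodA : v % A = v' % A := by
    have h1 := hWW 0 (by omega)
    unfold W at h1
    simp only [Nat.zero_mod, if_true] at h1
    omega
  have hX : ∀ j < 2 * d' - 1, X A B v j = X A B v' j := by
    intro j hj
    have h1 := hWW (j + 1) (by omega)
    unfold W at h1
    rw [Nat.mod_eq_of_lt (show j + 1 < 2 * d' by omega)] at h1
    simpa using h1
  have hdiv : v / A = v' / A := by
    have e := digits_eq B (v / A) (v' / A) (2 * d' - 1) hX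
    have hq : ∀ w, w < A * B ^ (2 * d' - 1) → w / A < B ^ (2 * d' - 1) := by
      intro w hw
      rw [Nat.div_lt_iff_lt_mul hA, Nat.mul_comm]; exact hw
    rwa [Nat.mod_eq_of_lt (hq v hv), Nat.mod_eq_of_lt (hq v' hv')] at e
  refine ⟨?_, rfl, ?_⟩
  · rw [← Nat.mod_add_div v A, ← Nat.mod_add_div v' A, hmodA, hdiv]
  · have e1 := ht
    rw [Nat.mod_eq_of_lt htl] at e1
    have e2 := hmt
    rw [Nat.mod_eq_of_lt htl'] at e2
    rw [e1, e2]


lemma sum_ins_le (hk : 2 ≤ k) (v s d : ℕ) (hd : d ≤ 2 * k) :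
    ∑ x ∈ Finset.range d, ins k A B v (s + x) ≤ v := by
  calc ∑ x ∈ Finset.range d, ins k A B v (s + x)
      ≤ ∑ x ∈ Finset.range (2 * k), ins k A B v (s + x) :=
        Finset.sum_le_sum_of_subset (Finset.range_subset_range.2 hd)
    _ = v := sum_ins k A B hk v s

lemma forward_dist (hk : 2 ≤ k) (V q v s t d r1 r2 : ℕ) (hv : v < V)
    (hd1 : 1 ≤ d) (hdk : d < k) (hsl : s < 2 * k) (htl : t < 2 * k)
    (ht : t % (2 * k) = (s + d) % (2 * k)) (hr1 : r1 + V < q) (hr2 : r2 + V < q)
    (hx : P k A B q v s + r1 < 2 * k * q + v) (hy : P k A B q v t + r2 < 2 * k * q + v) :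
    cd (2 * k * q + v) (P k A B q v s + r1) (P k A B q v t + r2)
      = (∑ x ∈ Finset.range d, (q + ins k A B v (s + x))) + r2 - r1 := by
  have hsum : ∑ x ∈ Finset.range d, (q + ins k A B v (s + x))
      = d * q + ∑ x ∈ Finset.range d, ins k A B v (s + x) := by
    rw [Finset.sum_add_distrib]; simp
  have hle := sum_ins_le k A B hk v s d (by omega)
  have hP := P_add k A B q v s d
  have hdq : q ≤ d * q := Nat.le_mul_of_pos_left q (by omega)
  have hdq2 : (d + 1) * q ≤ k * q := Nat.mul_le_mul_right q (by omega)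
  have hdq3 : (d + 1) * q = d * q + q := by ring
  have hkq : 2 * k * q = 2 * (k * q) := by ring
  apply cd_of_forward
  · omega
  · exact hx
  · exact hy
  · rw [hsum] at hP ⊢
    by_cases hc : s + d < 2 * k
    · have : t = s + d := by
        rwa [Nat.mod_eq_of_lt htl, Nat.mod_eq_of_lt hc] at ht
      left
      rw [this, hP]
      omega
    · have h2 : s + d = t + 2 * k := by
        rw [Nat.mod_eq_of_lt htl, Nat.mod_eq_sub_mod (by omega), Nat.mod_eq_of_lt (by omega)] at ht
        omega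
      right
      rw [h2, P_period k A B hk] at hP
      omega

/-- two labelled vertices in different sectors of two cycles of the same block -/
lemma pair_key (hk : 2 ≤ k) (hA : 0 < A) (hB : 0 < B) (q v v' s t s' t' r1 r2 : ℕ)
    (hv : v < A * B ^ (2 * k - 1)) (hv' : v' < A * B ^ (2 * k - 1))
    (hg : Good k A B v) (hg' : Good k A B v')
    (hsl : s < 2 * k) (htl : t < 2 * k) (hsl' : s' < 2 * k) (htl' : t' < 2 * k) (hne : s ≠ t)
    (hs : ∀ x < k, W k A B v (s + x) = W k A B v' (s' + x))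
    (htt : ∀ x < k, W k A B v (t + x) = W k A B v' (t' + x))
    (hr1 : r1 + A * B ^ (2 * k - 1) < q) (hr2 : r2 + A * B ^ (2 * k - 1) < q)
    (hx : P k A B q v s + r1 < 2 * k * q + v) (hy : P k A B q v t + r2 < 2 * k * q + v)
    (hx' : P k A B q v' s' + r1 < 2 * k * q + v') (hy' : P k A B q v' t' + r2 < 2 * k * q + v') :
    cd (2 * k * q + v) (P k A B q v s + r1) (P k A B q v t + r2)
      = cd (2 * k * q + v') (P k A B q v' s' + r1) (P k A B q v' t' + r2) := by
  obtain ⟨d, hd, hdd⟩ := exists_shift hsl htl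
  have hmt : t % (2 * k) = (s + d) % (2 * k) := by rw [hdd, Nat.mod_eq_of_lt htl]
  have hd0 : d ≠ 0 := by
    rintro rfl
    rw [Nat.add_zero, Nat.mod_eq_of_lt hsl] at hdd
    exact hne hdd
  rcases Nat.lt_trichotomy d k with h | h | h
  · obtain ⟨e1, e2⟩ := close_key k A B hk hA hB v v' s t s' t' d hv hv' hg' h hmt hs htt
    rw [forward_dist k A B hk (A * B ^ (2 * k - 1)) q v s t d r1 r2 hv (by omega) h hsl htl hmt
      hr1 hr2 hx hy,
      forward_dist k A B hk (A * B ^ (2 * k - 1)) q v' s' t' d r1 r2 hv' (by omega) h hsl' htl' e1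
      hr1 hr2 hx' hy']
    congr 2
    apply Finset.sum_congr rfl
    intro x hx
    rw [e2 x (Finset.mem_range.1 hx)]
  · subst h
    obtain ⟨e1, e2, e3⟩ := antipodal_key d A B hk hA hB v v' s t s' t' hv hv' hg hg' hsl htl hsl'
      htl' hmt hs htt
    subst e1; subst e2; subst e3; rfl
  · have hst : s % (2 * k) = (t + (2 * k - d)) % (2 * k) := by
      rw [Nat.add_mod, hmt, ← Nat.add_mod, show s + d + (2 * k - d) = s + 2 * k by omega,
        Nat.add_mod_right]
    obtain ⟨e1, e2⟩ := close_key k A B hk hA hB v v' t s t' s' (2 * k - d) hv hv' hg'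
      (by omega) hst htt hs
    rw [cd_comm, cd_comm (2 * k * q + v')]
    rw [forward_dist k A B hk (A * B ^ (2 * k - 1)) q v t s (2 * k - d) r2 r1 hv (by omega)
      (by omega) htl hsl hst hr2 hr1 hy hx,
      forward_dist k A B hk (A * B ^ (2 * k - 1)) q v' t' s' (2 * k - d) r2 r1 hv' (by omega)
      (by omega) htl' hsl' e1 hr2 hr1 hy' hx']
    congr 2
    apply Finset.sum_congr rfl
    intro x hx
    rw [e2 x (Finset.mem_range.1 hx)]

end words


/-- all parameters of the construction -/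
structure Par where
  n : ℕ
  k : ℕ
  A : ℕ
  B : ℕ
  p : ℕ
  m : ℕ
  Q : ℕ
  hk : 2 ≤ k
  hA : 0 < A
  hB : 0 < B
  hp : Nat.Prime p
  hdvd : 2 * k ∣ A * B ^ (2 * k - 1)
  e : (Fin k → Fin (A + B)) → ZMod p
  he : Function.Injective e
  blk : ℕ → ZMod p × ZMod p
  hblk : ∀ β β', β < Q → β' < Q → blk β = blk β' → β = β'
  hQ : n < Q * (A * B ^ (2 * k - 1))
  c : ℕ → ℕ
  hm : 0 < m
  hc : ∀ i i', i ≤ n → i' ≤ n → ¬ Good k A B (i % (A * B ^ (2 * k - 1))) →
    ¬ Good k A B (i' % (A * B ^ (2 * k - 1))) → c i = c i' → i = i'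
  hcm : ∀ i, i ≤ n → ¬ Good k A B (i % (A * B ^ (2 * k - 1))) → c i < m * m

namespace Par

variable (a : Par)

def V : ℕ := a.A * a.B ^ (2 * a.k - 1)

lemma V_pos : 0 < a.V := Nat.mul_pos a.hA (pow_pos a.hB _)

def q (i : ℕ) : ℕ := (i / a.V) * (a.V / (2 * a.k))

def v (i : ℕ) : ℕ := i % a.V

lemma v_lt (i : ℕ) : a.v i < a.A * a.B ^ (2 * a.k - 1) := Nat.mod_lt _ a.V_pos

lemma i_eq (i : ℕ) : i = 2 * a.k * a.q i + a.v i := by
  unfold q v
  have h1 : 2 * a.k * (a.V / (2 * a.k)) = a.V := Nat.mul_div_cancel' a.hdvd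
  have h2 := Nat.div_add_mod i a.V
  calc i = a.V * (i / a.V) + i % a.V := h2.symm
    _ = 2 * a.k * (a.V / (2 * a.k)) * (i / a.V) + i % a.V := by rw [h1]
    _ = _ := by ring

def typ (v t : ℕ) : Fin a.k → Fin (a.A + a.B) :=
  fun x => ⟨W a.k a.A a.B v (t + x), W_lt a.k a.A a.B a.hA a.hB v _⟩

lemma typ_eq {v t v' t' : ℕ} (h : a.typ v t = a.typ v' t') :
    ∀ x < a.k, W a.k a.A a.B v (t + x) = W a.k a.A a.B v' (t' + x) := by
  intro x hx
  have := congrFun h ⟨x, hx⟩
  simpa [typ] using this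

lemma sec_exists (i x : ℕ) (hx : x < i) :
    ∃ tr : ℕ × ℕ, tr.1 < 2 * a.k ∧ tr.2 < a.q i + ins a.k a.A a.B (a.v i) tr.1 ∧
      x = P a.k a.A a.B (a.q i) (a.v i) tr.1 + tr.2 := by
  have h := P_decomp a.k a.A a.B (a.q i) (a.v i) (2 * a.k) x
    (by rw [P_total a.k a.A a.B a.hk, ← a.i_eq i]; exact hx)
  obtain ⟨t, ht, r, hr, e⟩ := h
  exact ⟨(t, r), ht, hr, e⟩

open Classical in
noncomputable def sec (i x : ℕ) : ℕ × ℕ :=
  if hx : x < i then Classical.choose (a.sec_exists i x hx) else (0, 0)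

lemma sec_spec (i x : ℕ) (hx : x < i) :
    (a.sec i x).1 < 2 * a.k ∧ (a.sec i x).2 < a.q i + ins a.k a.A a.B (a.v i) (a.sec i x).1 ∧
      x = P a.k a.A a.B (a.q i) (a.v i) (a.sec i x).1 + (a.sec i x).2 := by
  unfold sec
  rw [dif_pos hx]
  exact Classical.choose_spec (a.sec_exists i x hx)

abbrev Lbl : Type := (ZMod a.p × (Fin a.k → Fin (a.A + a.B)) × ℕ) ⊕ (ℕ × ℕ × ℕ) ⊕ (Bool × ℕ × ℕ)

open Classical in
noncomputable def lab (i x : ℕ) : a.Lbl :=
  if Good a.k a.A a.B (a.v i) then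
    if (a.sec i x).2 + a.V < a.q i then
      Sum.inl ((a.blk (i / a.V)).1 * a.e (a.typ (a.v i) (a.sec i x).1) + (a.blk (i / a.V)).2,
        a.typ (a.v i) (a.sec i x).1, (a.sec i x).2)
    else Sum.inr (Sum.inl (i, (a.sec i x).1, (a.sec i x).2 - (a.q i - a.V)))
  else if x < (i + 1) / 2 then Sum.inr (Sum.inr (false, a.c i / a.m, x))
  else Sum.inr (Sum.inr (true, a.c i % a.m, x - (i + 1) / 2))

lemma typ_inj (v : ℕ) (hg : Good a.k a.A a.B v) {s t : ℕ} (hs : s < 2 * a.k) (ht : t < 2 * a.k)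
    (h : a.typ v s = a.typ v t) : s = t := by
  have h1 := a.typ_eq h 0 (by have := a.hk; omega)
  simp only [Nat.add_zero] at h1
  have h2 := W_inj a.k a.A a.B a.hB a.hk v hg _ _ h1
  rwa [Nat.mod_eq_of_lt hs, Nat.mod_eq_of_lt ht] at h2

/-- equal labels of two vertices of the same cycle -/
lemma lab_inj (i x x' : ℕ) (hx : x < i) (hx' : x' < i) (h : a.lab i x = a.lab i x') : x = x' := by
  unfold lab at h
  by_cases hg : Good a.k a.A a.B (a.v i)
  · rw [if_pos hg, if_pos hg] at h
    obtain ⟨h1, h2, h3⟩ := a.sec_spec i x hx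
    obtain ⟨h1', h2', h3'⟩ := a.sec_spec i x' hx'
    by_cases hr : (a.sec i x).2 + a.V < a.q i
    · by_cases hr' : (a.sec i x').2 + a.V < a.q i
      · rw [if_pos hr, if_pos hr'] at h
        simp only [Sum.inl.injEq, Prod.mk.injEq] at h
        obtain ⟨_, ht, hrr⟩ := h
        have := a.typ_inj (a.v i) hg h1 h1' ht
        rw [h3, h3', this, hrr]
      · rw [if_pos hr, if_neg hr'] at h
        simp at h
    · by_cases hr' : (a.sec i x').2 + a.V < a.q i
      · rw [if_neg hr, if_pos hr'] at h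
        simp at h
      · rw [if_neg hr, if_neg hr'] at h
        simp only [Sum.inr.injEq, Sum.inl.injEq, Prod.mk.injEq, true_and] at h
        obtain ⟨ht, hrr⟩ := h
        have e : (a.sec i x).2 = (a.sec i x').2 := by omega
        rw [h3, h3', ht, e]
  · rw [if_neg hg, if_neg hg] at h
    by_cases hr : x < (i + 1) / 2
    · by_cases hr' : x' < (i + 1) / 2
      · rw [if_pos hr, if_pos hr'] at h
        simp only [Sum.inr.injEq, Prod.mk.injEq, true_and] at h
        exact h
      · rw [if_pos hr, if_neg hr'] at h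
        simp at h
    · by_cases hr' : x' < (i + 1) / 2
      · rw [if_neg hr, if_pos hr'] at h
        simp at h
      · rw [if_neg hr, if_neg hr'] at h
        simp only [Sum.inr.injEq, Prod.mk.injEq, true_and] at h
        omega

/-- equal labels in two different good cycles are line labels -/
lemma lab_good (i i' x x' : ℕ) (hg : Good a.k a.A a.B (a.v i)) (hg' : Good a.k a.A a.B (a.v i'))
    (hne : i ≠ i') (hx : x < i) (hx' : x' < i') (h : a.lab i x = a.lab i' x') :
    ∃ t t' r, t < 2 * a.k ∧ t' < 2 * a.k ∧ r + a.V < a.q i ∧ r + a.V < a.q i' ∧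
      x = P a.k a.A a.B (a.q i) (a.v i) t + r ∧ x' = P a.k a.A a.B (a.q i') (a.v i') t' + r ∧
      a.typ (a.v i) t = a.typ (a.v i') t' ∧
      (a.blk (i / a.V)).1 * a.e (a.typ (a.v i) t) + (a.blk (i / a.V)).2
        = (a.blk (i' / a.V)).1 * a.e (a.typ (a.v i) t) + (a.blk (i' / a.V)).2 := by
  unfold lab at h
  rw [if_pos hg, if_pos hg'] at h
  obtain ⟨h1, h2, h3⟩ := a.sec_spec i x hx
  obtain ⟨h1', h2', h3'⟩ := a.sec_spec i' x' hx'
  by_cases hr : (a.sec i x).2 + a.V < a.q i
  · by_cases hr' : (a.sec i' x').2 + a.V < a.q i'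
    · rw [if_pos hr, if_pos hr'] at h
      simp only [Sum.inl.injEq, Prod.mk.injEq] at h
      obtain ⟨hb, ht, hrr⟩ := h
      refine ⟨(a.sec i x).1, (a.sec i' x').1, (a.sec i x).2, h1, h1', hr, by rw [hrr]; exact hr',
        h3, by rw [hrr]; exact h3', ht, ?_⟩
      rw [hb, ht]
    · rw [if_pos hr, if_neg hr'] at h
      simp at h
  · by_cases hr' : (a.sec i' x').2 + a.V < a.q i'
    · rw [if_neg hr, if_pos hr'] at h
      simp at h
    · rw [if_neg hr, if_neg hr'] at h
      simp only [Sum.inr.injEq, Sum.inl.injEq, Prod.mk.injEq] at h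
      exact absurd h.1 hne

theorem consistent (i i' x y x' y' : ℕ) (hi : i ≤ a.n) (hi' : i' ≤ a.n) (hx : x < i) (hy : y < i)
    (hx' : x' < i') (hy' : y' < i') (h1 : a.lab i x = a.lab i' x') (h2 : a.lab i y = a.lab i' y') :
    cd i x y = cd i' x' y' := by
  by_cases hne : i = i'
  · subst hne
    rw [a.lab_inj i x x' hx hx' h1, a.lab_inj i y y' hy hy' h2]
  by_cases hg : Good a.k a.A a.B (a.v i)
  · by_cases hg' : Good a.k a.A a.B (a.v i')
    · obtain ⟨t, t', r, ht, ht', hr, hr', ex, ex', hty, hb⟩ :=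
        a.lab_good i i' x x' hg hg' hne hx hx' h1
      obtain ⟨s, s', u, hs, hs', hu, hu', ey, ey', hsy, hb2⟩ :=
        a.lab_good i i' y y' hg hg' hne hy hy' h2
      have hi1 := a.i_eq i
      have hi2 := a.i_eq i'
      have hk := a.hk
      have hq1 : 2 * a.q i ≤ 2 * a.k * a.q i := by nlinarith
      have hq2 : 2 * a.q i' ≤ 2 * a.k * a.q i' := by nlinarith
      by_cases hst : t = s
      · subst hst
        have e' : t' = s' := by
          apply a.typ_inj (a.v i') hg' ht' hs'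
          rw [← hty, hsy]
        subst e'
        unfold cd
        omega
      · have htne : a.typ (a.v i) t ≠ a.typ (a.v i) s := fun h => hst (a.typ_inj _ hg ht hs h)
        have hene : a.e (a.typ (a.v i) t) - a.e (a.typ (a.v i) s) ≠ 0 := by
          rw [sub_ne_zero]; exact fun h => htne (a.he h)
        have := Fact.mk a.hp
        have hprod : ((a.blk (i / a.V)).1 - (a.blk (i' / a.V)).1) *
            (a.e (a.typ (a.v i) t) - a.e (a.typ (a.v i) s)) = 0 := by
          linear_combination hb - hb2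
        have hb1 : (a.blk (i / a.V)).1 = (a.blk (i' / a.V)).1 := by
          rcases mul_eq_zero.1 hprod with h | h
          · exact sub_eq_zero.1 h
          · exact absurd h hene
        have hb3 : (a.blk (i / a.V)).2 = (a.blk (i' / a.V)).2 := by
          rw [hb1] at hb
          exact add_left_cancel hb
        have hlt : ∀ j, j ≤ a.n → j / a.V < a.Q := by
          intro j hj
          rw [Nat.div_lt_iff_lt_mul a.V_pos]
          exact lt_of_le_of_lt hj a.hQ
        have hβ : i / a.V = i' / a.V := a.hblk _ _ (hlt i hi) (hlt i' hi') (Prod.ext hb1 hb3)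
        have hqq : a.q i = a.q i' := by unfold q; rw [hβ]
        rw [← hqq] at hr' hu' ex' ey' hi2
        rw [hi1, hi2, ex, ex', ey, ey']
        rw [ex] at hx
        rw [ex'] at hx'
        rw [ey] at hy
        rw [ey'] at hy'
        exact pair_key a.k a.A a.B a.hk a.hA a.hB (a.q i) (a.v i) (a.v i') t s t' s' r u
          (a.v_lt i) (a.v_lt i') hg hg' ht hs ht' hs' hst (a.typ_eq hty) (a.typ_eq hsy)
          hr hu (by omega) (by omega) (by omega) (by omega)
    · exfalso
      unfold lab at h1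
      rw [if_pos hg, if_neg hg'] at h1
      split_ifs at h1
      all_goals simp at h1
  · by_cases hg' : Good a.k a.A a.B (a.v i')
    · exfalso
      unfold lab at h1
      rw [if_neg hg, if_pos hg'] at h1
      split_ifs at h1
      all_goals simp at h1
    · have hcne : a.c i ≠ a.c i' := fun h => hne (a.hc i i' hi hi' hg hg' h)
      unfold lab at h1 h2
      rw [if_neg hg, if_neg hg'] at h1 h2
      have hdm : a.c i / a.m = a.c i' / a.m → a.c i % a.m = a.c i' % a.m → False := by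
        intro e1 e2
        apply hcne
        rw [← Nat.div_add_mod (a.c i) a.m, ← Nat.div_add_mod (a.c i') a.m, e1, e2]
      by_cases c1 : x < (i + 1) / 2 <;> by_cases c2 : x' < (i' + 1) / 2 <;>
      by_cases c3 : y < (i + 1) / 2 <;> by_cases c4 : y' < (i' + 1) / 2
      all_goals first
        | rw [if_pos c1] at h1 | rw [if_neg c1] at h1
      all_goals first
        | rw [if_pos c2] at h1 | rw [if_neg c2] at h1
      all_goals first
        | rw [if_pos c3] at h2 | rw [if_neg c3] at h2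
      all_goals first
        | rw [if_pos c4] at h2 | rw [if_neg c4] at h2
      all_goals simp only [Sum.inr.injEq, Prod.mk.injEq, true_and, Bool.false_eq_true, Bool.true_eq_false, false_and] at h1 h2
      · unfold cd; omega
      · exact (hdm h1.1 h2.1).elim
      · exact (hdm h2.1 h1.1).elim
      · unfold cd; omega


open Classical in
noncomputable def labFin [NeZero a.p] : Finset a.Lbl :=
  (((Finset.univ : Finset (ZMod a.p)) ×ˢ ((Finset.univ : Finset (Fin a.k → Fin (a.A + a.B))) ×ˢ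
    Finset.range (a.n / (2 * a.k))))).disjSum
  ((Finset.range (a.n + 1) ×ˢ (Finset.range (2 * a.k) ×ˢ Finset.range (2 * a.V))).disjSum
  ((Finset.univ : Finset Bool) ×ˢ (Finset.range a.m ×ˢ Finset.range (a.n + 1))))

lemma labFin_card [NeZero a.p] : a.labFin.card =
    a.p * ((a.A + a.B) ^ a.k * (a.n / (2 * a.k))) + ((a.n + 1) * (2 * a.k * (2 * a.V)) +
      2 * (a.m * (a.n + 1))) := by
  unfold labFin
  rw [Finset.card_disjSum, Finset.card_disjSum]
  simp [Finset.card_product, ZMod.card]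

lemma lab_mem [NeZero a.p] (i x : ℕ) (hi : i ≤ a.n) (hx : x < i) : a.lab i x ∈ a.labFin := by
  have hi1 := a.i_eq i
  have hk := a.hk
  obtain ⟨h1, h2, h3⟩ := a.sec_spec i x hx
  have hins := ins_le a.k a.A a.B (a.v i) (a.sec i x).1
  have hv : a.v i < a.V := a.v_lt i
  have hm := a.hm
  unfold lab labFin
  split_ifs with hg hr hh
  · rw [Finset.inl_mem_disjSum]
    simp only [Finset.mem_product, Finset.mem_univ, true_and, Finset.mem_range]
    have : a.q i ≤ a.n / (2 * a.k) := by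
      rw [Nat.le_div_iff_mul_le (by omega)]
      calc a.q i * (2 * a.k) = 2 * a.k * a.q i := by ring
        _ ≤ a.n := by omega
    omega
  · rw [Finset.inr_mem_disjSum, Finset.inl_mem_disjSum]
    simp only [Finset.mem_product, Finset.mem_range]
    refine ⟨by omega, h1, ?_⟩
    omega
  · rw [Finset.inr_mem_disjSum, Finset.inr_mem_disjSum]
    simp only [Finset.mem_product, Finset.mem_univ, true_and, Finset.mem_range]
    refine ⟨?_, by omega⟩
    exact Nat.div_lt_of_lt_mul (a.hcm i hi hg)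
  · rw [Finset.inr_mem_disjSum, Finset.inr_mem_disjSum]
    simp only [Finset.mem_product, Finset.mem_univ, true_and, Finset.mem_range]
    exact ⟨Nat.mod_lt _ hm, by omega⟩

end Par

/-! ### the graph distance in a cycle -/

lemma adj_iff {i : ℕ} (hi : 3 ≤ i) (x z : Fin i) :
    (SimpleGraph.cycleGraph i).Adj x z ↔ ((z : ℕ) = x + 1 ∨ (x : ℕ) = z + 1 ∨
      ((x : ℕ) = 0 ∧ (z : ℕ) + 1 = i) ∨ ((z : ℕ) = 0 ∧ (x : ℕ) + 1 = i)) := by
  rw [SimpleGraph.cycleGraph_adj', Fin.sub_def, Fin.sub_def]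
  have hx := x.isLt
  have hz := z.isLt
  have key : ∀ a b : ℕ, a < i → b < i → ((i - b + a) % i = 1 ↔ (a = b + 1 ∨ (a = 0 ∧ b + 1 = i))) := by
    intro a b ha hb
    by_cases h : b ≤ a
    · rw [show i - b + a = (a - b) + i by omega, Nat.add_mod_right, Nat.mod_eq_of_lt (by omega)]
      omega
    · rw [Nat.mod_eq_of_lt (by omega)]
      omega
  simp only
  rw [key _ _ hx hz, key _ _ hz hx]
  omega

lemma cd_step {i : ℕ} (hi : 3 ≤ i) {x z : Fin i} (y : Fin i)
    (h : (SimpleGraph.cycleGraph i).Adj x z) : cd i x y ≤ cd i z y + 1 := by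
  rw [adj_iff hi] at h
  have hx := x.isLt
  have hy := y.isLt
  have hz := z.isLt
  unfold cd
  omega

lemma cd_le_walk {i : ℕ} (hi : 3 ≤ i) {x y : Fin i} (w : (SimpleGraph.cycleGraph i).Walk x y) :
    cd i x y ≤ w.length := by
  induction w with
  | nil => simp [cd]
  | @cons u' v' w' h w ih =>
    have := cd_step hi w' h
    rw [SimpleGraph.Walk.length_cons]
    exact this.trans (by omega)

lemma exists_walk {i : ℕ} (hi : 3 ≤ i) (m : ℕ) : ∀ x y : Fin i, cd i x y = m →
    ∃ w : (SimpleGraph.cycleGraph i).Walk x y, w.length = m := by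
  induction m with
  | zero =>
    intro x y h
    have hx := x.isLt
    have hy := y.isLt
    have e : x = y := by
      apply Fin.ext
      unfold cd at h
      omega
    subst e
    exact ⟨SimpleGraph.Walk.nil, rfl⟩
  | succ m ih =>
    intro x y h
    have hx := x.isLt
    have hy := y.isLt
    have hz : ∃ z : Fin i, (SimpleGraph.cycleGraph i).Adj x z ∧ cd i z y = m := by
      simp only [adj_iff hi]
      by_cases c : ((x : ℕ) < y ∧ 2 * ((y : ℕ) - x) ≤ i) ∨ ((y : ℕ) < x ∧ i ≤ 2 * ((x : ℕ) - y))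
      · -- step forward
        by_cases c2 : (x : ℕ) + 1 < i
        · refine ⟨⟨x + 1, c2⟩, by simp, ?_⟩
          unfold cd at h ⊢
          simp only
          omega
        · refine ⟨⟨0, by omega⟩, by simp; omega, ?_⟩
          unfold cd at h ⊢
          simp only
          omega
      · by_cases c2 : 0 < (x : ℕ)
        · refine ⟨⟨x - 1, by omega⟩, by simp; omega, ?_⟩
          unfold cd at h ⊢
          simp only
          omega
        · refine ⟨⟨i - 1, by omega⟩, by simp; omega, ?_⟩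
          unfold cd at h ⊢
          simp only
          omega
    obtain ⟨z, hz1, hz2⟩ := hz
    obtain ⟨w, hw⟩ := ih z y hz2
    exact ⟨SimpleGraph.Walk.cons hz1 w, by rw [SimpleGraph.Walk.length_cons, hw]⟩

lemma dist_eq_cd {i : ℕ} (hi : 3 ≤ i) (x y : Fin i) :
    (SimpleGraph.cycleGraph i).dist x y = cd i x y := by
  obtain ⟨w, hw⟩ := exists_walk hi _ x y rfl
  apply le_antisymm
  · rw [← hw]; exact SimpleGraph.dist_le w
  · obtain ⟨w', hw'⟩ := (SimpleGraph.Walk.reachable w).exists_walk_length_eq_dist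
    rw [← hw']
    exact cd_le_walk hi w'


/-- `φ i` labels the vertices of `C_i`; it is a distance labeling of `C_3, …, C_n` if the distance
of two vertices of one cycle is a function of their two labels. -/
def IsDistanceLabeling (n : ℕ) {L : Type} (φ : (i : ℕ) → Fin i → L) : Prop :=
  ∃ d' : L → L → ℤ, ∀ i : ℕ, 3 ≤ i → i ≤ n → ∀ x y : Fin i,
    d' (φ i x) (φ i y) = ((SimpleGraph.cycleGraph i).dist x y : ℤ)

/-- the labels used on `C_3, …, C_n` -/
def labelSet (n : ℕ) {L : Type} (φ : (i : ℕ) → Fin i → L) : Set L :=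
  {l | ∃ i : ℕ, 3 ≤ i ∧ i ≤ n ∧ ∃ x : Fin i, φ i x = l}

/-- the minimum number of labels of a distance labeling of `C_3, …, C_n` -/
noncomputable def lam (n : ℕ) : ℕ :=
  sInf {m : ℕ | ∃ (L : Type) (φ : (i : ℕ) → Fin i → L), IsDistanceLabeling n φ ∧
    (labelSet n φ).ncard = m}

lemma lam_le_par (a : Par) : lam a.n ≤
    a.p * ((a.A + a.B) ^ a.k * (a.n / (2 * a.k))) + ((a.n + 1) * (2 * a.k * (2 * a.V)) +
      2 * (a.m * (a.n + 1))) := by
  classical
  have : NeZero a.p := ⟨a.hp.ne_zero⟩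
  rw [← a.labFin_card]
  let φ : (i : ℕ) → Fin i → a.Lbl := fun i x => a.lab i x
  have hlab : IsDistanceLabeling a.n φ := by
    refine ⟨fun l m => if h : ∃ (i : ℕ) (x y : Fin i), 3 ≤ i ∧ i ≤ a.n ∧ φ i x = l ∧ φ i y = m then
      (cd h.choose h.choose_spec.choose h.choose_spec.choose_spec.choose : ℤ) else 0, ?_⟩
    intro i hi hin x y
    have h : ∃ (i' : ℕ) (x' y' : Fin i'), 3 ≤ i' ∧ i' ≤ a.n ∧ φ i' x' = φ i x ∧ φ i' y' = φ i y :=
      ⟨i, x, y, hi, hin, rfl, rfl⟩
    simp only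
    rw [dif_pos h, dist_eq_cd hi]
    obtain ⟨h1, h2, h3, h4⟩ := h.choose_spec.choose_spec.choose_spec
    congr 1
    exact a.consistent _ _ _ _ _ _ h2 hin (Fin.isLt _) (Fin.isLt _) (Fin.isLt _) (Fin.isLt _) h3 h4
  have hsub : labelSet a.n φ ⊆ (a.labFin : Set a.Lbl) := by
    rintro l ⟨i, hi, hin, x, rfl⟩
    exact a.lab_mem i x hin x.isLt
  calc lam a.n ≤ (labelSet a.n φ).ncard := Nat.sInf_le ⟨a.Lbl, φ, hlab, rfl⟩
    _ ≤ (a.labFin : Set a.Lbl).ncard := Set.ncard_le_ncard hsub (Finset.finite_toSet _)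
    _ = a.labFin.card := Set.ncard_coe_finset _

/-! ### counting the bad words -/

lemma desc_bound (B N : ℕ) : B * (B ^ N - B.descFactorial N) ≤ N ^ 2 * B ^ N := by
  induction N with
  | zero => simp
  | succ N ih =>
    have hle : B.descFactorial N ≤ B ^ N := Nat.descFactorial_le_pow B N
    rw [Nat.descFactorial_succ, pow_succ B N]
    have h1 : B ^ N * B - (B - N) * B.descFactorial N ≤
        B * (B ^ N - B.descFactorial N) + N * B ^ N := by
      have e2 : B * B.descFactorial N ≤ (B - N) * B.descFactorial N + N * B ^ N := by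
        calc B * B.descFactorial N ≤ ((B - N) + N) * B.descFactorial N :=
              Nat.mul_le_mul_right _ (by omega)
          _ = (B - N) * B.descFactorial N + N * B.descFactorial N := by ring
          _ ≤ _ := by gcongr
      have e3 : B * (B ^ N - B.descFactorial N) = B ^ N * B - B * B.descFactorial N := by
        rw [Nat.mul_sub]; ring_nf
      rw [e3]
      have e4 : B * B.descFactorial N ≤ B ^ N * B := by
        rw [Nat.mul_comm]; gcongr
      omega
    calc B * (B ^ N * B - (B - N) * B.descFactorial N)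
        ≤ B * (B * (B ^ N - B.descFactorial N) + N * B ^ N) := by gcongr
      _ ≤ B * (N ^ 2 * B ^ N + N * B ^ N) := by gcongr
      _ ≤ (N + 1) ^ 2 * (B ^ N * B) := by
        have : N ^ 2 + N ≤ (N + 1) ^ 2 := by nlinarith
        calc B * (N ^ 2 * B ^ N + N * B ^ N) = (N ^ 2 + N) * (B ^ N * B) := by ring
          _ ≤ _ := by gcongr

lemma card_bad (k A B : ℕ) (hA : 0 < A) (hB : 0 < B) :
    B * Nat.card {v : Fin (A * B ^ (2 * k - 1)) // ¬ Good k A B (v : ℕ)} ≤
      (2 * k - 1) ^ 2 * (A * B ^ (2 * k - 1)) := by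
  classical
  set N := 2 * k - 1 with hN
  -- injection into Fin A × non-injective functions
  let f : {v : Fin (A * B ^ N) // ¬ Good k A B (v : ℕ)} →
      Fin A × {g : Fin N → Fin B // ¬ Function.Injective g} := fun v =>
    (⟨(v.1 : ℕ) % A, Nat.mod_lt _ hA⟩,
      ⟨fun t => ⟨X A B v.1 t, X_lt A B hB _ _⟩, by
        intro hinj
        apply v.2
        intro t t' ht ht' h
        have := @hinj ⟨t, ht⟩ ⟨t', ht'⟩ (Fin.ext h)
        simpa using this⟩)
  have hf : Function.Injective f := by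
    rintro ⟨v, hv⟩ ⟨v', hv'⟩ h
    simp only [f, Prod.mk.injEq, Subtype.mk.injEq, Fin.mk.injEq] at h
    obtain ⟨h1, h2⟩ := h
    have hX : ∀ j < N, X A B v j = X A B v' j := by
      intro j hj
      have := congrFun h2 ⟨j, hj⟩
      simpa using this
    have e := digits_eq B ((v : ℕ) / A) ((v' : ℕ) / A) N hX
    have hq : ∀ w, w < A * B ^ N → w / A < B ^ N := by
      intro w hw
      rw [Nat.div_lt_iff_lt_mul hA, Nat.mul_comm]; exact hw
    rw [Nat.mod_eq_of_lt (hq v v.isLt), Nat.mod_eq_of_lt (hq v' v'.isLt)] at e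
    have : (v : ℕ) = v' := by
      rw [← Nat.mod_add_div (v : ℕ) A, ← Nat.mod_add_div (v' : ℕ) A, h1, e]
    exact Subtype.ext (Fin.ext this)
  have hcard : Nat.card {g : Fin N → Fin B // ¬ Function.Injective g} = B ^ N - B.descFactorial N := by
    rw [Nat.card_eq_fintype_card, Fintype.card_subtype_compl]
    rw [Fintype.card_congr (Equiv.subtypeInjectiveEquivEmbedding (Fin N) (Fin B)),
      Fintype.card_embedding_eq]
    simp
  have h1 : Nat.card {v : Fin (A * B ^ N) // ¬ Good k A B (v : ℕ)} ≤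
      A * (B ^ N - B.descFactorial N) := by
    calc _ ≤ Nat.card (Fin A × {g : Fin N → Fin B // ¬ Function.Injective g}) :=
          Nat.card_le_card_of_injective f hf
      _ = _ := by rw [Nat.card_prod, hcard]; simp
  calc B * Nat.card {v : Fin (A * B ^ N) // ¬ Good k A B (v : ℕ)}
      ≤ B * (A * (B ^ N - B.descFactorial N)) := by gcongr
    _ = A * (B * (B ^ N - B.descFactorial N)) := by ring
    _ ≤ A * (N ^ 2 * B ^ N) := Nat.mul_le_mul_left A (desc_bound B N)
    _ = N ^ 2 * (A * B ^ N) := by ring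


theorem lam_le_nat (k A B n : ℕ) (hk : 2 ≤ k) (hA : 0 < A) (hB : 0 < B)
    (hdvd : 2 * k ∣ A * B ^ (2 * k - 1)) :
    lam n ≤ 2 * (Nat.sqrt (n / (A * B ^ (2 * k - 1)) + 1) + 1 + (A + B) ^ k) *
        ((A + B) ^ k * (n / (2 * k))) +
      ((n + 1) * (2 * k * (2 * (A * B ^ (2 * k - 1)))) +
        2 * ((Nat.sqrt ((n / (A * B ^ (2 * k - 1)) + 1) *
          Nat.card {v : Fin (A * B ^ (2 * k - 1)) // ¬ Good k A B (v : ℕ)}) + 1) * (n + 1))) := by
  classical
  set V := A * B ^ (2 * k - 1) with hV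
  have hVpos : 0 < V := Nat.mul_pos hA (pow_pos hB _)
  set Q := n / V + 1 with hQ
  set S := (A + B) ^ k with hS
  have hSpos : 0 < S := pow_pos (by omega) _
  set b0 := Nat.card {v : Fin V // ¬ Good k A B (v : ℕ)} with hb0
  obtain ⟨p, hp, hp1, hp2⟩ := Nat.exists_prime_lt_and_le_two_mul (Nat.sqrt Q + 1 + S) (by omega)
  have : NeZero p := ⟨hp.ne_zero⟩
  obtain ⟨e⟩ : Nonempty ((Fin k → Fin (A + B)) ↪ ZMod p) := by
    apply Function.Embedding.nonempty_of_card_le
    rw [ZMod.card]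
    simp only [Fintype.card_fun, Fintype.card_fin]
    omega
  obtain ⟨bl⟩ : Nonempty (Fin Q ↪ ZMod p × ZMod p) := by
    apply Function.Embedding.nonempty_of_card_le
    rw [Fintype.card_prod, ZMod.card, Fintype.card_fin]
    have h1 := Nat.lt_succ_sqrt Q
    have h2 : Nat.succ (Nat.sqrt Q) ≤ p := by omega
    exact (Nat.mul_le_mul h2 h2).trans' h1.le
  let rk : {v : Fin V // ¬ Good k A B (v : ℕ)} ≃ Fin b0 := Finite.equivFin _
  let m := Nat.sqrt (Q * b0) + 1
  let c : ℕ → ℕ := fun i => if h : ¬ Good k A B (i % V) then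
    (i / V) * b0 + rk ⟨⟨i % V, Nat.mod_lt _ hVpos⟩, h⟩ else 0
  have hlt : ∀ j, j ≤ n → j / V < Q := by
    intro j hj
    have := Nat.div_le_div_right (c := V) hj
    omega
  let a : Par :=
    { n := n, k := k, A := A, B := B, p := p, m := m, Q := Q, hk := hk, hA := hA, hB := hB,
      hp := hp, hdvd := hdvd, e := e, he := e.injective,
      blk := fun β => if h : β < Q then bl ⟨β, h⟩ else (0, 0),
      hblk := by
        intro β β' hβ hβ' h
        rw [dif_pos hβ, dif_pos hβ'] at h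
        have := bl.injective h
        simpa using this
      hQ := by
        rw [← hV, Nat.mul_comm]
        exact Nat.lt_mul_div_succ n hVpos
      c := c
      hm := Nat.succ_pos _
      hc := by
        intro i i' hi hi' hg hg' h
        simp only [c] at h
        rw [dif_pos hg, dif_pos hg'] at h
        set r1 := rk ⟨⟨i % V, Nat.mod_lt _ hVpos⟩, hg⟩ with hr1
        set r2 := rk ⟨⟨i' % V, Nat.mod_lt _ hVpos⟩, hg'⟩ with hr2
        have l1 := r1.isLt
        have l2 := r2.isLt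
        have hb : 0 < b0 := by omega
        have e1 : i / V = i' / V := by
          have h1 : (i / V * b0 + r1) / b0 = i / V := by
            rw [Nat.mul_comm, Nat.mul_add_div hb, Nat.div_eq_of_lt l1, Nat.add_zero]
          have h2 : (i' / V * b0 + r2) / b0 = i' / V := by
            rw [Nat.mul_comm, Nat.mul_add_div hb, Nat.div_eq_of_lt l2, Nat.add_zero]
          rw [← h1, ← h2, h]
        have e2 : r1 = r2 := by
          rw [e1] at h
          exact Fin.ext (by omega)
        have e3 := rk.injective (hr1.symm.trans (e2.trans hr2))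
        have e4 : i % V = i' % V := by simpa using e3
        rw [← Nat.div_add_mod i V, ← Nat.div_add_mod i' V, e1, e4]
      hcm := by
        intro i hi hg
        simp only [c]
        rw [dif_pos hg]
        set r1 := rk ⟨⟨i % V, Nat.mod_lt _ hVpos⟩, hg⟩ with hr1
        have l1 := r1.isLt
        have l3 := hlt i hi
        have h1 := Nat.lt_succ_sqrt (Q * b0)
        calc i / V * b0 + r1 < i / V * b0 + b0 := by omega
          _ = (i / V + 1) * b0 := by ring
          _ ≤ Q * b0 := Nat.mul_le_mul_right _ (by omega)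
          _ < m * m := h1 }
  have h := lam_le_par a
  refine h.trans ?_
  show p * (S * (n / (2 * k))) + ((n + 1) * (2 * k * (2 * V)) + 2 * (m * (n + 1))) ≤ _
  gcongr


/-! ### asymptotics -/

lemma pow_bern (k : ℕ) (hk : 1 ≤ k) : (2 * (k : ℝ) + 1) ^ k ≤ 2 * (2 * (k : ℝ)) ^ k := by
  have hk' : (1 : ℝ) ≤ k := by exact_mod_cast hk
  have h := one_add_mul_le_pow (a := -(1 / (2 * (k : ℝ) + 1))) (by
    have : 1 / (2 * (k : ℝ) + 1) ≤ 1 := by rw [div_le_one (by linarith)]; linarith
    linarith) k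
  have e : 1 + -(1 / (2 * (k : ℝ) + 1)) = 2 * k / (2 * k + 1) := by field_simp; ring
  rw [e, div_pow] at h
  have h2 : (1 : ℝ) / 2 ≤ 1 + k * -(1 / (2 * (k : ℝ) + 1)) := by
    rw [mul_neg, ← sub_eq_add_neg, mul_one_div]
    have : (k : ℝ) / (2 * k + 1) ≤ 1 / 2 := by
      rw [div_le_div_iff₀ (by linarith) (by norm_num)]; linarith
    linarith
  have h3 : (1 : ℝ) / 2 ≤ (2 * k) ^ k / (2 * k + 1) ^ k := h2.trans h
  rw [le_div_iff₀ (by positivity)] at h3
  linarith

theorem main_bound (k : ℕ) (hk : 2 ≤ k) : ∃ C : ℝ, ∀ n : ℕ, 1 ≤ n →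
    (lam n : ℝ) ≤ 6 / √(k : ℝ) * (n * √(n : ℝ)) + C * n := by
  classical
  set A : ℕ := k ^ 2 with hA
  set B : ℕ := 2 * k ^ 3 with hB
  have hApos : 0 < A := by positivity
  have hBpos : 0 < B := by positivity
  have hdvd : 2 * k ∣ A * B ^ (2 * k - 1) := by
    have h1 : 2 * k ∣ B := ⟨k ^ 2, by rw [hB]; ring⟩
    have h2 : B ∣ B ^ (2 * k - 1) := dvd_pow_self B (by omega)
    exact (h1.trans h2).mul_left A
  set V : ℕ := A * B ^ (2 * k - 1) with hV
  have hVpos : 0 < V := Nat.mul_pos hApos (pow_pos hBpos _)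
  set b0 := Nat.card {v : Fin V // ¬ Good k A B (v : ℕ)} with hb0
  have hbad := card_bad k A B hApos hBpos
  rw [← hV, ← hb0] at hbad
  set S : ℕ := (A + B) ^ k with hS
  have hkr : (2 : ℝ) ≤ k := by exact_mod_cast hk
  have hVr : (0 : ℝ) < V := by exact_mod_cast hVpos
  -- V * 2k = B^(2k)
  have hVB : (V : ℝ) * (2 * k) = ((B : ℝ) ^ k) ^ 2 := by
    have : V * (2 * k) = (B ^ k) ^ 2 := by
      rw [hV, ← pow_mul, show k * 2 = (2 * k - 1) + 1 by omega, pow_succ]
      rw [show A * B ^ (2 * k - 1) * (2 * k) = B ^ (2 * k - 1) * (A * (2 * k)) by ring]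
      congr 1
      rw [hA, hB]; ring
    exact_mod_cast this
  have hsqV : √(V : ℝ) * √(2 * k : ℝ) = (B : ℝ) ^ k := by
    rw [← Real.sqrt_mul hVr.le, hVB, Real.sqrt_sq (by positivity)]
  have hSB : (S : ℝ) ≤ 2 * (B : ℝ) ^ k := by
    have h1 := pow_bern k (by omega)
    have e1 : (S : ℝ) = ((k : ℝ) ^ 2) ^ k * (2 * (k : ℝ) + 1) ^ k := by
      rw [hS, hA, hB, ← mul_pow]; push_cast; ring
    have e2 : (B : ℝ) ^ k = ((k : ℝ) ^ 2) ^ k * (2 * (k : ℝ)) ^ k := by
      rw [hB, ← mul_pow]; push_cast; ring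
    rw [e1, e2]
    calc ((k : ℝ) ^ 2) ^ k * (2 * (k : ℝ) + 1) ^ k
        ≤ ((k : ℝ) ^ 2) ^ k * (2 * (2 * (k : ℝ)) ^ k) := by gcongr
      _ = _ := by ring
  have hsk : 0 < √(k : ℝ) := Real.sqrt_pos.2 (by linarith)
  have hskk : √(k : ℝ) * √(k : ℝ) = k := Real.mul_self_sqrt (by linarith)
  have hs2 : √(2 * k : ℝ) = √2 * √(k : ℝ) := Real.sqrt_mul (by norm_num) _
  have hsV : 0 < √(V : ℝ) := Real.sqrt_pos.2 hVr
  have hc1 : (S : ℝ) / (k * √(V : ℝ)) ≤ 2 * √2 / √(k : ℝ) := by
    rw [div_le_div_iff₀ (by positivity) hsk]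
    calc (S : ℝ) * √(k : ℝ) ≤ 2 * (B : ℝ) ^ k * √(k : ℝ) := by gcongr
      _ = 2 * √2 * ((√(k : ℝ) * √(k : ℝ)) * √(V : ℝ)) := by rw [← hsqV, hs2]; ring
      _ = 2 * √2 * (k * √(V : ℝ)) := by rw [hskk]
  have hbV : (b0 : ℝ) / V ≤ 2 / k := by
    rw [div_le_div_iff₀ hVr (by linarith)]
    have h1 : (B : ℝ) * b0 ≤ (2 * k) ^ 2 * V := by
      have : B * b0 ≤ (2 * k) ^ 2 * V := hbad.trans (by gcongr; omega)
      exact_mod_cast this
    have h2 : (B : ℝ) = 2 * (k : ℝ) ^ 3 := by rw [hB]; push_cast; ring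
    rw [h2] at h1
    have h3 : (2 * (k : ℝ) ^ 2) * (b0 * k) ≤ (2 * (k : ℝ) ^ 2) * (2 * V) := by nlinarith
    exact le_of_mul_le_mul_left h3 (by positivity)
  have hc2 : √((b0 : ℝ) / V) ≤ √2 / √(k : ℝ) := by
    rw [← Real.sqrt_div (by norm_num)]
    exact Real.sqrt_le_sqrt hbV
  have h2 : √2 ≤ 3 / 2 := by
    rw [Real.sqrt_le_left (by norm_num)]; norm_num
  refine ⟨(2 + S) * (S / k) + 8 * k * V + 2 * √((b0 : ℝ) / V) + 4 * (√(b0 : ℝ) + 1), ?_⟩
  intro n hn
  have hnr : (1 : ℝ) ≤ n := by exact_mod_cast hn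
  have hsn : √(n : ℝ) ≤ n := by
    rw [Real.sqrt_le_left (by linarith)]; nlinarith
  have hsn1 : 0 ≤ √(n : ℝ) := Real.sqrt_nonneg _
  have hmain := lam_le_nat k A B n hk hApos hBpos hdvd
  rw [← hV, ← hb0, ← hS] at hmain
  have hmainr : (lam n : ℝ) ≤ 2 * (Nat.sqrt (n / V + 1) + 1 + S) * (S * ((n / (2 * k) : ℕ) : ℝ)) +
      ((n + 1) * (2 * k * (2 * V)) + 2 * ((Nat.sqrt ((n / V + 1) * b0) + 1) * (n + 1))) := by
    exact_mod_cast hmain
  have hdiv1 : ((n / (2 * k) : ℕ) : ℝ) ≤ n / (2 * k) := by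
    have := @Nat.cast_div_le ℝ _ _ _ n (2 * k)
    push_cast at this ⊢
    exact this
  have hdiv2 : ((n / V : ℕ) : ℝ) ≤ n / V := Nat.cast_div_le
  have hsqrt_add : ∀ x y : ℝ, 0 ≤ x → 0 ≤ y → √(x + y) ≤ √x + √y := by
    intro x y hx hy
    rw [Real.sqrt_le_left (by positivity)]
    nlinarith [Real.sq_sqrt hx, Real.sq_sqrt hy, Real.sqrt_nonneg x, Real.sqrt_nonneg y,
      mul_nonneg (Real.sqrt_nonneg x) (Real.sqrt_nonneg y)]
  have hq1 : (Nat.sqrt (n / V + 1) : ℝ) ≤ √(n : ℝ) / √(V : ℝ) + 1 := by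
    calc (Nat.sqrt (n / V + 1) : ℝ) ≤ √((n / V + 1 : ℕ) : ℝ) := Real.nat_sqrt_le_real_sqrt
      _ ≤ √((n : ℝ) / V + 1) := by
          apply Real.sqrt_le_sqrt
          push_cast
          linarith
      _ ≤ √((n : ℝ) / V) + √1 := hsqrt_add _ _ (by positivity) (by norm_num)
      _ = _ := by rw [Real.sqrt_div (by linarith), Real.sqrt_one]
  have hq2 : (Nat.sqrt ((n / V + 1) * b0) : ℝ) ≤ √(n : ℝ) * √((b0 : ℝ) / V) + √(b0 : ℝ) := by
    calc (Nat.sqrt ((n / V + 1) * b0) : ℝ) ≤ √(((n / V + 1) * b0 : ℕ) : ℝ) :=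
          Real.nat_sqrt_le_real_sqrt
      _ ≤ √((n : ℝ) * ((b0 : ℝ) / V) + b0) := by
          apply Real.sqrt_le_sqrt
          push_cast
          have hb : (0 : ℝ) ≤ b0 := by positivity
          calc (((n / V : ℕ) : ℝ) + 1) * b0 ≤ ((n : ℝ) / V + 1) * b0 := by gcongr
            _ = _ := by ring
      _ ≤ √((n : ℝ) * ((b0 : ℝ) / V)) + √(b0 : ℝ) := hsqrt_add _ _ (by positivity) (by positivity)
      _ = _ := by rw [Real.sqrt_mul (by linarith)]
  have t1 : 2 * ((Nat.sqrt (n / V + 1) : ℝ) + 1 + S) * (S * ((n / (2 * k) : ℕ) : ℝ)) ≤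
      2 * √2 / √(k : ℝ) * (n * √(n : ℝ)) + (2 + S) * (S / k) * n := by
    calc 2 * ((Nat.sqrt (n / V + 1) : ℝ) + 1 + S) * (S * ((n / (2 * k) : ℕ) : ℝ))
        ≤ 2 * ((√(n : ℝ) / √(V : ℝ) + 1) + 1 + S) * (S * (n / (2 * k))) := by gcongr
      _ = (S : ℝ) / (k * √(V : ℝ)) * (n * √(n : ℝ)) + (2 + S) * (S / k) * n := by
          field_simp; ring
      _ ≤ _ := by gcongr
  have t2 : ((n : ℝ) + 1) * (2 * k * (2 * V)) ≤ 8 * k * V * n := by
    calc ((n : ℝ) + 1) * (2 * k * (2 * V)) ≤ (n + n) * (2 * k * (2 * V)) := by gcongr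
      _ = 8 * k * V * n := by ring
  have t3 : 2 * (((Nat.sqrt ((n / V + 1) * b0) : ℝ) + 1) * (n + 1)) ≤
      2 * (√2 / √(k : ℝ)) * (n * √(n : ℝ)) + (2 * √((b0 : ℝ) / V) + 4 * (√(b0 : ℝ) + 1)) * n := by
    set u := √((b0 : ℝ) / V) with hu
    have hu0 : 0 ≤ u := Real.sqrt_nonneg _
    have hb : 0 ≤ √(b0 : ℝ) := Real.sqrt_nonneg _
    calc 2 * (((Nat.sqrt ((n / V + 1) * b0) : ℝ) + 1) * (n + 1))
        ≤ 2 * ((√(n : ℝ) * u + √(b0 : ℝ) + 1) * (n + 1)) := by gcongr
      _ = 2 * u * (n * √(n : ℝ)) + 2 * u * √(n : ℝ) + 2 * (√(b0 : ℝ) + 1) * (n + 1) := by ring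
      _ ≤ 2 * (√2 / √(k : ℝ)) * (n * √(n : ℝ)) + 2 * u * n + 2 * (√(b0 : ℝ) + 1) * (n + n) := by
          gcongr
      _ = _ := by ring
  have hfin : 2 * √2 / √(k : ℝ) * (n * √(n : ℝ)) + 2 * (√2 / √(k : ℝ)) * (n * √(n : ℝ)) ≤
      6 / √(k : ℝ) * (n * √(n : ℝ)) := by
    have e : 2 * √2 / √(k : ℝ) * (n * √(n : ℝ)) + 2 * (√2 / √(k : ℝ)) * (n * √(n : ℝ))
        = (4 * √2) / √(k : ℝ) * (n * √(n : ℝ)) := by ring
    rw [e]
    gcongr
    linarith
  refine hmainr.trans ((add_le_add t1 (add_le_add t2 t3)).trans ?_)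
  refine le_trans (le_of_eq ?_) (add_le_add_left hfin _)
  ring


/-- sanity check: the minimum in the definition of `lam` is attained, and the sets of labels
that it counts are finite -/
theorem lam_attained (n : ℕ) : ∃ (L : Type) (φ : (i : ℕ) → Fin i → L),
    IsDistanceLabeling n φ ∧ (labelSet n φ).Finite ∧ (labelSet n φ).ncard = lam n := by
  classical
  have hne : {m : ℕ | ∃ (L : Type) (φ : (i : ℕ) → Fin i → L), IsDistanceLabeling n φ ∧
      (labelSet n φ).ncard = m}.Nonempty := by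
    refine ⟨_, (Σ i : ℕ, Fin i), fun i x => ⟨i, x⟩, ?_, rfl⟩
    refine ⟨fun l m => (cd l.1 l.2 m.2 : ℤ), ?_⟩
    intro i hi hin x y
    rw [dist_eq_cd hi]
  obtain ⟨L, φ, h1, h2⟩ := Nat.sInf_mem hne
  refine ⟨L, φ, h1, ?_, h2⟩
  have : labelSet n φ ⊆ ⋃ i ∈ Finset.range (n + 1), Set.range (φ i) := by
    rintro l ⟨i, _, hin, x, rfl⟩
    simp only [Set.mem_iUnion]
    exact ⟨i, Finset.mem_range.2 (by omega), x, rfl⟩
  refine Set.Finite.subset ?_ this
  exact Set.Finite.biUnion (Finset.finite_toSet _) (fun i _ => Set.finite_range _)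

theorem tendsto_lam :
    Filter.Tendsto (fun n : ℕ => (lam n : ℝ) / (n * √(n : ℝ))) Filter.atTop (nhds 0) := by
  rw [Metric.tendsto_atTop]
  intro ε hε
  obtain ⟨k, hk⟩ := exists_nat_gt ((12 / ε) ^ 2 + 2)
  have hk2 : 2 ≤ k := by
    have : (2 : ℝ) < k := by nlinarith [sq_nonneg (12 / ε)]
    exact_mod_cast this.le
  obtain ⟨C, hC⟩ := main_bound k hk2
  have hsk : 12 / ε < √(k : ℝ) := by
    apply Real.lt_sqrt_of_sq_lt
    linarith
  have h6 : 6 / √(k : ℝ) < ε / 2 := by
    rw [div_lt_div_iff₀ (lt_trans (by positivity) hsk) (by norm_num)]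
    rw [div_lt_iff₀ hε] at hsk
    linarith
  obtain ⟨N, hN⟩ := exists_nat_gt ((2 * |C| / ε) ^ 2 + 1)
  refine ⟨N, fun n hn => ?_⟩
  have hnN : (N : ℝ) ≤ n := by exact_mod_cast hn
  have hn1 : (1 : ℝ) < n := by nlinarith [sq_nonneg (2 * |C| / ε)]
  have hn1' : 1 ≤ n := by exact_mod_cast hn1.le
  have hsn : 2 * |C| / ε < √(n : ℝ) := by
    apply Real.lt_sqrt_of_sq_lt
    linarith
  have hsn0 : 0 < √(n : ℝ) := Real.sqrt_pos.2 (by linarith)
  have hpos : 0 < (n : ℝ) * √(n : ℝ) := by positivity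
  rw [Real.dist_eq, sub_zero, abs_of_nonneg (by positivity), div_lt_iff₀ hpos]
  have hCn : C * n ≤ |C| * n := by
    apply mul_le_mul_of_nonneg_right (le_abs_self C) (by linarith)
  have hC2 : |C| < ε / 2 * √(n : ℝ) := by
    rw [div_lt_iff₀ hε] at hsn
    linarith
  calc (lam n : ℝ) ≤ 6 / √(k : ℝ) * (n * √(n : ℝ)) + C * n := hC n hn1'
    _ ≤ ε / 2 * (n * √(n : ℝ)) + |C| * n := by gcongr
    _ < ε / 2 * (n * √(n : ℝ)) + (ε / 2 * √(n : ℝ)) * n := by
        have : |C| * n < (ε / 2 * √(n : ℝ)) * n := mul_lt_mul_of_pos_right hC2 (by linarith)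
        linarith
    _ = ε * (n * √(n : ℝ)) := by ring

theorem not_conjecture : ¬ ∃ C : ℝ, ∀ n : ℕ, 3 ≤ n →
    |(lam n : ℝ) - n * √(n : ℝ) / √6| ≤ C * n := by
  rintro ⟨C, hC⟩
  have h6 : (0 : ℝ) < √6 := Real.sqrt_pos.2 (by norm_num)
  have h := tendsto_lam
  rw [Metric.tendsto_atTop] at h
  obtain ⟨N, hN⟩ := h (1 / (2 * √6)) (by positivity)
  obtain ⟨M, hM⟩ := exists_nat_gt ((2 * √6 * |C|) ^ 2)
  set n := max (max N M) 3 with hn
  have hn3 : 3 ≤ n := le_max_right _ _
  have hnN : N ≤ n := (le_max_left N M).trans (le_max_left _ _)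
  have hnM : M ≤ n := (le_max_right N M).trans (le_max_left _ _)
  have hnMr : (M : ℝ) ≤ n := by exact_mod_cast hnM
  have hn3r : (3 : ℝ) ≤ n := by exact_mod_cast hn3
  have h1 := hN n hnN
  have h2 := hC n hn3
  have hsn0 : 0 < √(n : ℝ) := Real.sqrt_pos.2 (by linarith)
  have hpos : 0 < (n : ℝ) * √(n : ℝ) := by positivity
  rw [Real.dist_eq, sub_zero, abs_of_nonneg (by positivity), div_lt_iff₀ hpos] at h1
  rw [abs_le] at h2
  have hsn : 2 * √6 * |C| < √(n : ℝ) := by
    apply Real.lt_sqrt_of_sq_lt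
    linarith
  have h3 : n * √(n : ℝ) / √6 - C * n < 1 / (2 * √6) * (n * √(n : ℝ)) := by linarith [h2.1]
  have h4 : C * n ≤ |C| * n := by
    apply mul_le_mul_of_nonneg_right (le_abs_self C) (by linarith)
  have h5 : n * √(n : ℝ) / √6 = 2 * (1 / (2 * √6) * (n * √(n : ℝ))) := by
    field_simp
  have h7 : 1 / (2 * √6) * (n * √(n : ℝ)) < |C| * n := by linarith
  have h8 : |C| * n < 1 / (2 * √6) * (n * √(n : ℝ)) := by
    have : |C| < 1 / (2 * √6) * √(n : ℝ) := by
      rw [one_div, inv_mul_eq_div, lt_div_iff₀ (by positivity)]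
      linarith
    calc |C| * n < 1 / (2 * √6) * √(n : ℝ) * n := mul_lt_mul_of_pos_right this (by linarith)
      _ = _ := by ring
  exact lt_irrefl _ (h7.trans h8)

/-- The minimum number of labels is of smaller order than `n ^ (3/2)`; in particular it is not
`n √n / √6 + O(n)`. -/
theorem result :
    Filter.Tendsto (fun n : ℕ => (lam n : ℝ) / (n * √(n : ℝ))) Filter.atTop (nhds 0) ∧
    ¬ ∃ C : ℝ, ∀ n : ℕ, 3 ≤ n → |(lam n : ℝ) - n * √(n : ℝ) / √6| ≤ C * n :=
  ⟨tendsto_lam, not_conjecture⟩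

end Pool.Agent.Results.MP_30c5a0_lc.SubThreeHalves
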